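import Mathlib

/-!
# MP_5c7d49_an: the definitions of the problem

The definitions are those of `Pool.Agent.Results.MP_5c7d49_an.LastThirdOrderCase` (helper50).
-/

namespace Pool.Agent.H81.RDE

open Finset

/-- Parameters of the rational difference equation of order `k`: `alpha`, `beta i`
(the coefficient written `β_{i+1}` in the problem), `A`, `B i` (written `B_{i+1}`). -/
structure Params (k : ℕ) where
  alpha : ℝ
  beta : Fin k → ℝ
  A : ℝ
  B : Fin k → ℝ

/-- A solution, with times shifted by `k`: `x 0, …, x (k-1)` are the (nonnegative) initial
values, every denominator is positive, and the equation holds. -/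
def IsSolution {k : ℕ} (P : Params k) (x : ℕ → ℝ) : Prop :=
  (∀ n < k, 0 ≤ x n) ∧
  ∀ n : ℕ, 0 < P.A + ∑ i : Fin k, P.B i * x (n + k - 1 - i) ∧
    x (n + k) = (P.alpha + ∑ i : Fin k, P.beta i * x (n + k - 1 - i)) /
      (P.A + ∑ i : Fin k, P.B i * x (n + k - 1 - i))

/-- A special case: which of the parameters are positive (all others are zero). -/
@[ext]
structure SpecialCase (k : ℕ) where
  alpha : Bool
  beta : Fin k → Bool
  A : Bool
  B : Fin k → Bool

/-- The real number `t` is positive when the flag is `true`, and zero when it is `false`. -/
def Sign (b : Bool) (t : ℝ) : Prop := if b = true then 0 < t else t = 0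

/-- The parameters `P` belong to the special case `S`. -/
def Belongs {k : ℕ} (S : SpecialCase k) (P : Params k) : Prop :=
  Sign S.alpha P.alpha ∧ (∀ i, Sign (S.beta i) (P.beta i)) ∧
    Sign S.A P.A ∧ (∀ i, Sign (S.B i) (P.B i))

/-- ESB: every solution is bounded for every choice of the positive parameters. -/
def ESB {k : ℕ} (S : SpecialCase k) : Prop :=
  ∀ P : Params k, Belongs S P → ∀ x : ℕ → ℝ, IsSolution P x → ∃ M : ℝ, ∀ n, x n ≤ M

/-- The special cases that are counted: at least one numerator parameter and at least one
denominator parameter is positive. -/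
def Admissible {k : ℕ} (S : SpecialCase k) : Prop :=
  (S.alpha = true ∨ ∃ i, S.beta i = true) ∧ (S.A = true ∨ ∃ i, S.B i = true)

/-- The special case coded by two bit masks: bit `0` is the constant term and bit `i` the term
`x_{n-i}`; `N` is the mask of the numerator and `D` the mask of the denominator. -/
def caseOf (k N D : ℕ) : SpecialCase k :=
  ⟨N.testBit 0, fun i => N.testBit (i + 1), D.testBit 0, fun i => D.testBit (i + 1)⟩

/-- the positions of the bits of a mask -/
def bitsL (m : ℕ) : List ℕ := (List.range 5).filter fun i => m.testBit i

end Pool.Agent.H81.RDE
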