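import Mathlib

/-!
# Linear checks for lists of pairs of masks

A pair `(N, D)` with `N, D < 32` has the number `32 N + D`; sets of pairs are bits of a natural number.
-/

namespace Pool.Agent.H81.RDE

/-- the number of a pair -/
def pairCode (p : ℕ × ℕ) : ℕ := 32 * p.1 + p.2

theorem pairCode_inj {p q : ℕ × ℕ} (hp : p.2 < 32) (hq : q.2 < 32) (h : pairCode p = pairCode q) : p = q := by
  unfold pairCode at h
  exact Prod.ext (by omega) (by omega)

/-- the numbers of the pairs are different and none of them is a bit of `m`; all entries are between 1 and 31 -/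
def freshPairs : List (ℕ × ℕ) → ℕ → Bool
  | [], _ => true
  | p :: l, m => (!(m.testBit (pairCode p)) && Nat.ble 1 p.1 && Nat.ble p.1 31 && Nat.ble 1 p.2 && Nat.ble p.2 31) &&
      freshPairs l (m ||| (1 <<< pairCode p))

theorem freshPairs_spec : ∀ (l : List (ℕ × ℕ)) (m : ℕ), freshPairs l m = true →
    l.Nodup ∧ (∀ p ∈ l, m.testBit (pairCode p) = false) ∧ ∀ p ∈ l, 1 ≤ p.1 ∧ p.1 < 32 ∧ 1 ≤ p.2 ∧ p.2 < 32
  | [], _, _ => ⟨List.nodup_nil, fun _ h => absurd h List.not_mem_nil, fun _ h => absurd h List.not_mem_nil⟩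
  | p :: l, m, h => by
    simp only [freshPairs, Bool.and_eq_true, Bool.not_eq_true', Nat.ble_eq] at h
    obtain ⟨⟨⟨⟨⟨h1, h2⟩, h3⟩, h4⟩, h5⟩, h6⟩ := h
    obtain ⟨g1, g2, g3⟩ := freshPairs_spec l _ h6
    have g4 : ∀ q ∈ l, m.testBit (pairCode q) = false ∧ pairCode p ≠ pairCode q := by
      intro q hq
      have h7 := g2 q hq
      rw [Nat.testBit_or, Bool.or_eq_false_iff] at h7
      refine ⟨h7.1, fun h8 => ?_⟩
      have h9 := h7.2
      rw [← h8, Nat.testBit_shiftLeft] at h9
      simp at h9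
    refine ⟨List.nodup_cons.2 ⟨fun hp => (g4 p hp).2 rfl, g1⟩, ?_, ?_⟩
    · intro q hq
      rcases List.mem_cons.1 hq with rfl | hq
      · exact h1
      · exact (g4 q hq).1
    · intro q hq
      rcases List.mem_cons.1 hq with rfl | hq
      · exact ⟨h2, by omega, h4, by omega⟩
      · exact g3 q hq

/-- the set of the numbers of the pairs of a list -/
def maskOf : List (ℕ × ℕ) → ℕ
  | [] => 0
  | p :: l => maskOf l ||| (1 <<< pairCode p)

theorem maskOf_spec : ∀ (l : List (ℕ × ℕ)) (i : ℕ), (maskOf l).testBit i = true → ∃ q ∈ l, pairCode q = i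
  | [], i, h => by
    simp [maskOf] at h
  | p :: l, i, h => by
    simp only [maskOf] at h
    rw [Nat.testBit_or, Bool.or_eq_true] at h
    rcases h with h | h
    · obtain ⟨q, hq, h1⟩ := maskOf_spec l i h
      exact ⟨q, List.mem_cons_of_mem _ hq, h1⟩
    · refine ⟨p, List.mem_cons_self, ?_⟩
      rw [Nat.one_shiftLeft, Nat.testBit_two_pow, decide_eq_true_eq] at h
      exact h

/-- all pairs of the list have their numbers in `m`, second entries at most 31 -/
def allIn (l : List (ℕ × ℕ)) (m : ℕ) : Bool := l.all fun p => m.testBit (pairCode p)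

/-- `allIn l (maskOf l')` means that `l` is a part of `l'` -/
theorem mem_of_allIn {l l' : List (ℕ × ℕ)} (h : allIn l (maskOf l') = true) (hl : ∀ p ∈ l, p.2 < 32)
    (hl' : ∀ p ∈ l', p.2 < 32) : ∀ p ∈ l, p ∈ l' := by
  intro p hp
  obtain ⟨q, hq, h1⟩ := maskOf_spec l' _ (List.all_eq_true.1 h p hp)
  rw [← pairCode_inj (hl' q hq) (hl p hp) h1]
  exact hq

end Pool.Agent.H81.RDE
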