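import Pool.Agent.H81.RDE.Problem

/-!
# [H81 RDE THREE] From order four to order three

Suppose that `caseOf 3 N D` is ESB. Let `P : Params 4` belong to `caseOf 4 N D` and `x` be a solution. As
`N, D < 16`, `N.testBit 4 = D.testBit 4 = false`, so `P.beta 3 = P.B 3 = 0`. The parameters
`P' = ⟨P.alpha, fun i => P.beta i.castSucc, P.A, fun i => P.B i.castSucc⟩` belong to `caseOf 3 N D` and
`fun n => x (n + 1)` is a solution of `P'` (`Fin.sum_univ_castSucc`; `x (n + 1 + 3 - 1 - i + ...)`: the index
`n + 3 - 1 - i + 1 = n + 4 - 1 - i` for `i < 3`; nonnegativity of all `x n`, or only of `x 1, x 2, x 3`).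
So it is bounded, and `x 0` is one more value.
-/

namespace Pool.Agent.H81.RDE

/-- A special case of order three is not ESB if the same special case is not ESB as an equation of
order four: if `x` is a solution of the order four equation without the terms `x_{n-4}` then
`fun n => x (n + 1)` is a solution of the order three equation. -/
theorem not_esb_three {N D : ℕ} (hN : N < 16) (hD : D < 16) (h : ¬ ESB (caseOf 4 N D)) :
    ¬ ESB (caseOf 3 N D) := by
  intro h3
  apply h
  intro P hP x hx
  have hN4 : N.testBit 4 = false := Nat.testBit_lt_two_pow (by omega)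
  have hD4 : D.testBit 4 = false := Nat.testBit_lt_two_pow (by omega)
  obtain ⟨ha, hb, hA, hB⟩ := hP
  have hb3 : P.beta (Fin.last 3) = 0 := by
    have h1 := hb (Fin.last 3)
    have e : (caseOf 4 N D).beta (Fin.last 3) = false := hN4
    rw [e] at h1
    simpa [Sign] using h1
  have hB3 : P.B (Fin.last 3) = 0 := by
    have h1 := hB (Fin.last 3)
    have e : (caseOf 4 N D).B (Fin.last 3) = false := hD4
    rw [e] at h1
    simpa [Sign] using h1
  have hbel : Belongs (caseOf 3 N D)
      ⟨P.alpha, fun i => P.beta i.castSucc, P.A, fun i => P.B i.castSucc⟩ := by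
    refine ⟨ha, fun i => ?_, hA, fun i => ?_⟩
    · exact hb i.castSucc
    · exact hB i.castSucc
  have hsum' : ∀ (c : Fin 4 → ℝ) (n : ℕ), c (Fin.last 3) = 0 →
      ∑ i : Fin 4, c i * x (n + 4 - 1 - i) =
        ∑ i : Fin 3, c i.castSucc * x (n + 3 - 1 - i + 1) := by
    intro c n hc
    rw [Fin.sum_univ_castSucc, hc, zero_mul, add_zero]
    refine Finset.sum_congr rfl fun i _ => ?_
    have e : n + 4 - 1 - (i.castSucc : ℕ) = n + 3 - 1 - i + 1 := by
      have := i.2
      rw [Fin.val_castSucc]
      omega
    rw [e]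
  have hsol : IsSolution (k := 3)
      ⟨P.alpha, fun i => P.beta i.castSucc, P.A, fun i => P.B i.castSucc⟩ (fun n => x (n + 1)) := by
    refine ⟨fun n hn => hx.1 (n + 1) (by omega), fun n => ?_⟩
    obtain ⟨h1, h2⟩ := hx.2 n
    rw [hsum' P.B n hB3] at h1 h2
    rw [hsum' P.beta n hb3] at h2
    exact ⟨h1, h2⟩
  obtain ⟨M, hM⟩ := h3 _ hbel _ hsol
  refine ⟨max M (x 0), fun n => ?_⟩
  cases n with
  | zero => exact le_max_right _ _
  | succ n => exact (hM n).trans (le_max_left _ _)

end Pool.Agent.H81.RDE
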