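import Pool.Agent.H81.RDE.Cases
import Pool.Agent.H81.RDE.Three
import Pool.Agent.H81.RDE.Bits

/-! # Counting -/

set_option maxRecDepth 10000

namespace Pool.Agent.H81.RDE

/-- The special cases of order four that are shown to have unbounded solutions: rows `(N, l)`, the
mask `N` of the numerator followed by the list `l` of the masks of the denominators. -/
def rows : List (ℕ × List ℕ) := [
  (2, [1, 8, 12, 16, 20, 24, 28]),
  (3, [1, 8, 12, 16, 24, 28]),
  (4, [1, 2, 3, 8, 9, 10, 11]),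
  (5, [1, 2, 3, 8, 9, 10, 11]),
  (6, [1, 2, 3, 8, 9, 10, 11, 16, 20, 24, 28]),
  (7, [1, 2, 3, 8, 9, 10, 11, 16, 24]),
  (8, [1, 2, 3, 4, 5, 6, 7, 16, 17, 18, 19, 20, 21, 22, 23]),
  (9, [1, 2, 4, 6, 7, 16, 18, 20, 21, 22, 23]),
  (10, [1, 4, 6, 7, 16, 20, 21, 22, 23]),
  (11, [1, 4, 6, 7, 16, 20, 21, 22, 23]),
  (12, [1, 2, 3, 6, 7, 8, 9, 10, 11, 16, 17, 18, 20, 21, 22, 23]),
  (13, [1, 2, 3, 6, 7, 8, 9, 10, 11, 16, 17, 18, 20, 21, 22, 23]),
  (14, [1, 2, 3, 6, 7, 8, 9, 10, 11, 16, 17, 20, 21, 22, 23]),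
  (15, [1, 2, 3, 6, 7, 8, 9, 10, 11, 16, 17, 20, 21, 22, 23]),
  (16, [1, 2, 3, 4, 5, 6, 7, 8, 9, 10, 11, 12, 13, 14, 15]),
  (17, [1, 2, 3, 4, 5, 6, 8, 9, 10, 11, 12, 14, 15]),
  (18, [1, 2, 3, 4, 5, 6, 7, 8, 9, 10, 11, 12, 14, 15]),
  (19, [1, 2, 3, 4, 5, 6, 7, 8, 9, 10, 11, 12, 14, 15]),
  (20, [1, 2, 3, 4, 5, 6, 7, 8, 9, 10, 11, 12, 13, 14, 15]),
  (21, [1, 2, 3, 4, 5, 6, 7, 8, 9, 10, 11, 12, 13, 14, 15]),
  (22, [1, 2, 3, 4, 5, 6, 7, 8, 9, 10, 11, 14, 15]),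
  (23, [1, 2, 3, 4, 5, 6, 7, 8, 9, 10, 11, 14, 15]),
  (24, [1, 2, 3, 4, 5, 6, 7, 8, 9, 10, 11, 12, 13, 14, 15, 20, 21, 22, 23]),
  (25, [1, 2, 3, 4, 5, 6, 7, 8, 9, 10, 11, 12, 13, 14, 15, 20, 21, 22, 23]),
  (26, [1, 2, 3, 4, 5, 6, 7, 8, 9, 10, 11, 14, 15, 20, 21, 22, 23]),
  (27, [1, 2, 3, 4, 5, 6, 7, 8, 9, 10, 11, 14, 15, 20, 21, 22, 23]),
  (28, [1, 2, 3, 4, 5, 6, 7, 8, 9, 10, 11, 12, 13, 14, 15, 16, 17, 20, 21, 22, 23]),
  (29, [1, 2, 3, 4, 5, 6, 7, 8, 9, 10, 11, 12, 13, 14, 15, 16, 17, 20, 21, 22, 23]),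
  (30, [1, 2, 3, 4, 5, 6, 7, 8, 9, 10, 11, 14, 15, 16, 17, 20, 21, 22, 23]),
  (31, [1, 2, 3, 4, 5, 6, 7, 8, 9, 10, 11, 14, 15, 16, 17, 20, 21, 22, 23])]

/-- the pairs of masks -/
def unbounded4 : List (ℕ × ℕ) := rows.flatMap fun r => r.2.map fun d => (r.1, d)

/-- the pairs of masks for the order three -/
def unbounded3 : List (ℕ × ℕ) := unbounded4.filter fun p => decide (p.1 < 16 ∧ p.2 < 16)

theorem fresh4 : freshPairs unbounded4 0 = true := by decide +kernel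

theorem freshChunks : freshPairs chunks.flatten 0 = true := by decide +kernel

theorem unbounded4_sub : allIn unbounded4 (maskOf chunks.flatten) = true := by decide +kernel

theorem not_esb4 : ∀ p ∈ unbounded4, ¬ ESB (caseOf 4 p.1 p.2) := by
  intro p hp
  have h := mem_of_allIn unbounded4_sub (fun q hq => ((freshPairs_spec _ _ fresh4).2.2 q hq).2.2.2)
    (fun q hq => ((freshPairs_spec _ _ freshChunks).2.2 q hq).2.2.2) p hp
  obtain ⟨l, hl, h⟩ := List.mem_flatten.1 h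
  exact chunks_ok l hl p h

theorem not_esb3 : ∀ p ∈ unbounded3, ¬ ESB (caseOf 3 p.1 p.2) := by
  intro p hp
  obtain ⟨h1, h2⟩ := List.mem_filter.1 hp
  rw [decide_eq_true_eq] at h2
  exact not_esb_three h2.1 h2.2 (not_esb4 p h1)

theorem nodup4 : unbounded4.Nodup := (freshPairs_spec _ _ fresh4).1

theorem length4 : unbounded4.length = 417 := by decide +kernel

theorem nodup3 : unbounded3.Nodup := nodup4.filter _

theorem length3 : unbounded3.length = 90 := by decide +kernel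

theorem lt4 : ∀ p ∈ unbounded4, 1 ≤ p.1 ∧ p.1 < 32 ∧ 1 ≤ p.2 ∧ p.2 < 32 := (freshPairs_spec _ _ fresh4).2.2

theorem lt3 : ∀ p ∈ unbounded3, 1 ≤ p.1 ∧ p.1 < 16 ∧ 1 ≤ p.2 ∧ p.2 < 16 := by decide +kernel

/-- the special cases form a finite type -/
def SpecialCase.equiv (k : ℕ) : SpecialCase k ≃ Bool × (Fin k → Bool) × Bool × (Fin k → Bool) where
  toFun S := (S.alpha, S.beta, S.A, S.B)
  invFun t := ⟨t.1, t.2.1, t.2.2.1, t.2.2.2⟩
  left_inv _ := rfl
  right_inv _ := rfl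

instance (k : ℕ) : Finite (SpecialCase k) := Finite.of_equiv _ (SpecialCase.equiv k).symm

theorem mask_inj {k a b : ℕ} (ha : a < 2 ^ (k + 1)) (hb : b < 2 ^ (k + 1))
    (h0 : a.testBit 0 = b.testBit 0) (h : ∀ i : Fin k, a.testBit (i + 1) = b.testBit (i + 1)) : a = b := by
  apply Nat.eq_of_testBit_eq
  intro i
  rcases i with _ | i
  · exact h0
  · by_cases hi : i < k
    · exact h ⟨i, hi⟩
    · rw [Nat.testBit_lt_two_pow (lt_of_lt_of_le ha (Nat.pow_le_pow_right (by norm_num) (by omega))),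
        Nat.testBit_lt_two_pow (lt_of_lt_of_le hb (Nat.pow_le_pow_right (by norm_num) (by omega)))]

theorem caseOf_inj {k N D N' D' : ℕ} (hN : N < 2 ^ (k + 1)) (hD : D < 2 ^ (k + 1))
    (hN' : N' < 2 ^ (k + 1)) (hD' : D' < 2 ^ (k + 1)) (h : caseOf k N D = caseOf k N' D') :
    N = N' ∧ D = D' := by
  have h1 := congrArg SpecialCase.alpha h
  have h2 := congrArg SpecialCase.beta h
  have h3 := congrArg SpecialCase.A h
  have h4 := congrArg SpecialCase.B h
  exact ⟨mask_inj hN hN' h1 fun i => congrFun h2 i, mask_inj hD hD' h3 fun i => congrFun h4 i⟩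

theorem exists_bit {k a : ℕ} (ha : a < 2 ^ (k + 1)) (h1 : 1 ≤ a) :
    a.testBit 0 = true ∨ ∃ i : Fin k, a.testBit (i + 1) = true := by
  by_contra hc
  push Not at hc
  have : a = 0 := by
    refine mask_inj ha (by positivity) ?_ fun i => ?_
    · rw [Nat.zero_testBit]; simpa using hc.1
    · rw [Nat.zero_testBit]; simpa using hc.2 i
  omega

theorem admissible_caseOf {k N D : ℕ} (hN : N < 2 ^ (k + 1)) (hD : D < 2 ^ (k + 1)) (hN1 : 1 ≤ N)
    (hD1 : 1 ≤ D) : Admissible (caseOf k N D) :=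
  ⟨exists_bit hN hN1, exists_bit hD hD1⟩

/-- a lower bound for the number of unbounded cases from a list of masks -/
theorem card_ge {k : ℕ} {l : List (ℕ × ℕ)} (hl : l.Nodup)
    (hlt : ∀ p ∈ l, 1 ≤ p.1 ∧ p.1 < 2 ^ (k + 1) ∧ 1 ≤ p.2 ∧ p.2 < 2 ^ (k + 1))
    (h : ∀ p ∈ l, ¬ ESB (caseOf k p.1 p.2)) :
    l.length ≤ Nat.card {S : SpecialCase k // Admissible S ∧ ¬ ESB S} := by
  classical
  have hinj : Function.Injective (fun i : Fin l.length =>
      (⟨caseOf k (l.get i).1 (l.get i).2, by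
        obtain ⟨a, b, c, d⟩ := hlt _ (l.get_mem i)
        exact ⟨admissible_caseOf b d a c, h _ (l.get_mem i)⟩⟩ :
        {S : SpecialCase k // Admissible S ∧ ¬ ESB S})) := by
    intro i j hij
    have hij' := congrArg Subtype.val hij
    obtain ⟨a, b, c, d⟩ := hlt _ (l.get_mem i)
    obtain ⟨a', b', c', d'⟩ := hlt _ (l.get_mem j)
    have := caseOf_inj b d b' d' hij'
    exact (List.nodup_iff_injective_get.1 hl) (Prod.ext this.1 this.2)
  have := Nat.card_le_card_of_injective _ hinj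
  simpa using this

/-- the total number of special cases -/
theorem card_admissible (k : ℕ) :
    Nat.card {S : SpecialCase k // Admissible S} = (2 ^ (k + 1) - 1) ^ 2 := by
  have e : {S : SpecialCase k // Admissible S} ≃
      {t : Bool × (Fin k → Bool) // t.1 = true ∨ ∃ i, t.2 i = true} ×
      {t : Bool × (Fin k → Bool) // t.1 = true ∨ ∃ i, t.2 i = true} :=
    { toFun := fun S => (⟨(S.1.alpha, S.1.beta), S.2.1⟩, ⟨(S.1.A, S.1.B), S.2.2⟩)
      invFun := fun t => ⟨⟨t.1.1.1, t.1.1.2, t.2.1.1, t.2.1.2⟩, t.1.2, t.2.2⟩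
      left_inv := fun _ => rfl
      right_inv := fun _ => rfl }
  rw [Nat.card_congr e, Nat.card_prod]
  have h1 : Nat.card {t : Bool × (Fin k → Bool) // t.1 = true ∨ ∃ i, t.2 i = true} = 2 ^ (k + 1) - 1 := by
    classical
    have hset : {t : Bool × (Fin k → Bool) | t.1 = true ∨ ∃ i, t.2 i = true} =
        {((false, fun _ => false) : Bool × (Fin k → Bool))}ᶜ := by
      ext ⟨a, f⟩
      simp only [Set.mem_ofPred_eq, Set.mem_compl_iff, Set.mem_singleton_iff, Prod.mk.injEq, not_and]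
      constructor
      · rintro (h | ⟨i, hi⟩) ha hf
        · simp [h] at ha
        · rw [hf] at hi; simp at hi
      · intro h
        by_contra hc
        push Not at hc
        refine h (by simpa using hc.1) (funext fun i => by simpa using hc.2 i)
    have h2 : Nat.card ({t : Bool × (Fin k → Bool) | t.1 = true ∨ ∃ i, t.2 i = true} : Set _) =
        2 ^ (k + 1) - 1 := by
      rw [hset, Nat.card_eq_fintype_card, Fintype.card_compl_set]
      simp [pow_succ]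
      ring_nf
    exact h2
  rw [h1, sq]

/-- bounded + unbounded = all -/
theorem card_split (k : ℕ) : Nat.card {S : SpecialCase k // Admissible S ∧ ESB S} +
    Nat.card {S : SpecialCase k // Admissible S ∧ ¬ ESB S} = (2 ^ (k + 1) - 1) ^ 2 := by
  classical
  rw [← card_admissible, ← Nat.card_sum]
  refine Nat.card_congr ?_
  refine (Equiv.sumCongr ?_ ?_).trans (Equiv.sumCompl (fun S : {S : SpecialCase k // Admissible S} => ESB S.1))
  · exact (Equiv.subtypeSubtypeEquivSubtypeInter (fun S : SpecialCase k => Admissible S) ESB).symm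
  · exact (Equiv.subtypeSubtypeEquivSubtypeInter (fun S : SpecialCase k => Admissible S)
      (fun S => ¬ ESB S)).symm

theorem counts :
    (417 ≤ Nat.card {S : SpecialCase 4 // Admissible S ∧ ¬ ESB S} ∧
      Nat.card {S : SpecialCase 4 // Admissible S ∧ ESB S} ≤ 544) ∧
    (90 ≤ Nat.card {S : SpecialCase 3 // Admissible S ∧ ¬ ESB S} ∧
      Nat.card {S : SpecialCase 3 // Admissible S ∧ ESB S} ≤ 135) := by
  have h4 := card_ge (k := 4) nodup4 (fun p hp => lt4 p hp) not_esb4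
  have h3 := card_ge (k := 3) nodup3 (fun p hp => lt3 p hp) not_esb3
  rw [length4] at h4
  rw [length3] at h3
  have s4 := card_split 4
  have s3 := card_split 3
  norm_num at s4 s3
  omega

end Pool.Agent.H81.RDE
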