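import Pool.Agent.H81.RDE.Defs

/-!
# [H81 RDE LIN] Soundness of the linear arithmetic of the checker

All definitions are in `Defs.lean`. Lists of integers are linear forms with missing entries zero,
`ev co t` is the value of the form at the point `t : List ℝ`.

* `ev_addL`, `ev_smulL`: induction on the lists (note `addL [] b = b`, `ev (a :: as) [] = 0`; for
  `ev_addL` do a double induction, generalizing the second list and `t`).
* `ev_eq_zero`: `allZero l = true` means that all entries are zero (`isZero a = true ↔ a = 0`: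
  cases on `a`, `Nat.beq`).
* `isNonneg_iff`: cases.
* `comb_holds`: induction on the list of multipliers, `getH` is a `Holds` hypothesis (out of range it
  is `⟨[], 0⟩`).
* `ineq_sound`: with `s = comb H C.lam`: `C.den * (ev f t + c) = ev s.co t + C.den * c
  ≥ ev s.co t + s.c ≥ 0` and `C.den > 0`.
* `contra_sound`: `0 ≤ ev s.co t + s.c = s.c ≤ -1`.
* `Describes.*`: from the definitions and `abs_le`.
* `hypGe_holds`: from `x ≥ y`, `|x - (f)| ≤ r_f ε`, `|y - g| ≤ r_g ε`, `ε ≤ 1`.
* `domin_sound`: induction on `ws` and `Cs`.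
* `combF_sound`: induction on `co` generalizing `F` and `n` (`Valid.tail`): `evy (a :: as) y n =
  a * y (n-1) + evy as y (n-1)`, and `|a| * r` for the radius.
* `claims_sound`: induction, `combF_sound` and `ineq_sound`: `evy ≥ ev f.co t + f.c - f.r * ε ≥ k`.
* `termForm_sound`: a term `(0, a)` is the constant `a`; a term `(i+1, a)` is `a + y (n - 1 - i)`.
* `evy_addL`, `evy_shift`, `evy_smulL`: inductions.
-/

namespace Pool.Agent.H81.RDE

theorem isZero_iff (a : ℤ) : isZero a = true ↔ a = 0 := by
  rcases a with (_ | n) | n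
  · simp [isZero, Nat.beq]
  · simp only [isZero, Nat.beq, Bool.false_eq_true, false_iff, Int.ofNat_eq_natCast]
    omega
  · simp [isZero]

theorem isNonneg_iff (a : ℤ) : isNonneg a = true ↔ 0 ≤ a := by
  rcases a with n | n
  · simp [isNonneg]
  · simp [isNonneg, Int.negSucc_not_nonneg]

theorem ev_addL (a b : List ℤ) (t : List ℝ) : ev (addL a b) t = ev a t + ev b t := by
  induction a generalizing b t with
  | nil => simp [addL, ev]
  | cons x xs ih =>
    cases b with
    | nil => simp [addL, ev]
    | cons y ys =>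
      cases t with
      | nil => simp [addL, ev]
      | cons z zs =>
        simp only [addL, ev, ih]
        push_cast
        ring

theorem ev_smulL (k : ℤ) (a : List ℤ) (t : List ℝ) : ev (smulL k a) t = k * ev a t := by
  induction a generalizing t with
  | nil => simp [smulL, ev]
  | cons x xs ih =>
    cases t with
    | nil => simp [smulL, ev]
    | cons z zs =>
      simp only [smulL, ev, ih]
      push_cast
      ring

theorem ev_eq_zero {l : List ℤ} (h : allZero l = true) (t : List ℝ) : ev l t = 0 := by
  induction l generalizing t with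
  | nil => simp [ev]
  | cons x xs ih =>
    simp only [allZero, Bool.and_eq_true, isZero_iff] at h
    cases t with
    | nil => simp [ev]
    | cons z zs => simp [ev, ih h.2, h.1]

theorem getH_holds {H : List Hyp} {t : List ℝ} (hH : ∀ h ∈ H, h.Holds t) (i : ℕ) :
    (getH H i).Holds t := by
  induction H generalizing i with
  | nil => simp [getH, Hyp.Holds, ev]
  | cons h hs ih =>
    cases i with
    | zero => exact hH h (by simp)
    | succ k => exact ih (fun g hg => hH g (by simp [hg])) k

theorem comb_holds {H : List Hyp} {t : List ℝ} (hH : ∀ h ∈ H, h.Holds t)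
    (l : List (ℕ × ℕ)) : (comb H l).Holds t := by
  induction l with
  | nil => simp [comb, Hyp.Holds, ev]
  | cons p l ih =>
    obtain ⟨i, m⟩ := p
    have h1 := getH_holds hH i
    unfold Hyp.Holds at h1 ih ⊢
    simp only [comb, ev_addL, ev_smulL]
    push_cast
    have hm : (0 : ℝ) ≤ m := Nat.cast_nonneg m
    nlinarith [mul_nonneg hm h1]

theorem ineq_sound {H : List Hyp} {t : List ℝ} (hH : ∀ h ∈ H, h.Holds t) {f : List ℤ} {c : ℤ}
    {C : Cert} (h : ineq H f c C = true) : 0 ≤ ev f t + c := by
  simp only [ineq, Bool.and_eq_true, isNonneg_iff] at h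
  obtain ⟨⟨h1, h2⟩, h3⟩ := h
  have h1' : 0 < C.den := Nat.le_of_ble_eq_true h1
  have h4 := comb_holds hH C.lam
  have h5 := ev_eq_zero h2 t
  rw [ev_addL, ev_smulL, ev_smulL] at h5
  unfold Hyp.Holds at h4
  have h6 : (0 : ℝ) ≤ (C.den : ℝ) * c - (comb H C.lam).c := by exact_mod_cast h3
  have h7 : (0 : ℝ) < C.den := by exact_mod_cast h1'
  have h8 : 0 ≤ (C.den : ℝ) * (ev f t + c) := by
    push_cast at h5
    nlinarith
  exact nonneg_of_mul_nonneg_right h8 h7

theorem contra_sound {H : List Hyp} {t : List ℝ} (hH : ∀ h ∈ H, h.Holds t)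
    {l : List (ℕ × ℕ)} (h : contra H l = true) : False := by
  simp only [contra, Bool.and_eq_true, isNonneg_iff] at h
  have h1 := comb_holds hH l
  unfold Hyp.Holds at h1
  rw [ev_eq_zero h.1 t] at h1
  have h2 : (0 : ℝ) ≤ -(comb H l).c - 1 := by exact_mod_cast h.2
  linarith

theorem Describes.sub {f g : Form} {ε : ℝ} {t : List ℝ} {x y : ℝ} (hf : f.Describes ε t x)
    (hg : g.Describes ε t y) : (f.sub g).Describes ε t (x - y) := by
  unfold Form.Describes at hf hg ⊢
  simp only [Form.sub, ev_addL, ev_smulL]
  push_cast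
  rw [abs_le] at hf hg ⊢
  constructor <;> nlinarith [hf.1, hf.2, hg.1, hg.2]

theorem Describes.addc {f : Form} {ε : ℝ} {t : List ℝ} {x : ℝ} (hf : f.Describes ε t x) (a : ℤ) :
    (f.addc a).Describes ε t (a + x) := by
  unfold Form.Describes at hf ⊢
  simp only [Form.addc]
  push_cast
  rw [abs_le] at hf ⊢
  constructor <;> linarith [hf.1, hf.2]

theorem Describes.blur {f : Form} {ε : ℝ} {t : List ℝ} {x u : ℝ} (hf : f.Describes ε t x) (k : ℕ)
    (h1 : x ≤ u) (h2 : u ≤ x + k * ε) : (f.blur k).Describes ε t u := by
  unfold Form.Describes at hf ⊢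
  simp only [Form.blur]
  push_cast
  have h3 : (0 : ℝ) ≤ k * ε := by linarith
  rw [abs_le] at hf ⊢
  constructor <;> nlinarith [hf.1, hf.2]

theorem hypGe_holds {f g : Form} {ε : ℝ} {t : List ℝ} {x y : ℝ} (hε : 0 ≤ ε) (hε1 : ε ≤ 1)
    (hf : f.Describes ε t x) (hg : g.Describes ε t y) (h : y ≤ x) : (hypGe f g).Holds t := by
  unfold Form.Describes at hf hg
  unfold Hyp.Holds
  simp only [hypGe, ev_addL, ev_smulL]
  push_cast
  rw [abs_le] at hf hg
  have h1 : (f.r : ℝ) * ε ≤ f.r := by
    have : (0 : ℝ) ≤ f.r := Nat.cast_nonneg _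
    nlinarith
  have h2 : (g.r : ℝ) * ε ≤ g.r := by
    have : (0 : ℝ) ≤ g.r := Nat.cast_nonneg _
    nlinarith
  linarith [hf.1, hf.2, hg.1, hg.2]

/-- hypotheses added by `addGe` -/
theorem addGe_holds {v : Form} {ws : List Form} {H : List Hyp} {ε : ℝ} {t : List ℝ} {x : ℝ}
    {ys : List ℝ} (hε : 0 ≤ ε) (hε1 : ε ≤ 1) (hH : ∀ h ∈ H, h.Holds t) (hv : v.Describes ε t x)
    (hw : List.Forall₂ (fun f y => f.Describes ε t y) ws ys) (hy : ∀ y ∈ ys, y ≤ x) :
    ∀ h ∈ addGe v ws H, h.Holds t := by
  induction hw generalizing H with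
  | nil => exact hH
  | @cons f y ws ys h1 _ ih =>
    have h3 : (hypGe v f).Holds t := hypGe_holds hε hε1 hv h1 (hy y (by simp))
    have h4 := ih (H := hypGe v f :: H)
      (fun h hh => by
        rcases List.mem_cons.1 hh with rfl | hh
        · exact h3
        · exact hH h hh)
      (fun z hz => hy z (by simp [hz]))
    intro h hh
    exact h4 h hh

theorem domin_sound {H : List Hyp} {ε : ℝ} {t : List ℝ} (hε : 0 ≤ ε) (hε1 : ε ≤ 1)
    (hH : ∀ h ∈ H, h.Holds t) {v : Form} {x : ℝ} (hv : v.Describes ε t x) {ws : List Form}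
    {ys : List ℝ} (hw : List.Forall₂ (fun f y => f.Describes ε t y) ws ys) {Cs : List Cert}
    (h : domin H v ws Cs = true) : ∀ y ∈ ys, y ≤ x := by
  induction hw generalizing Cs with
  | nil => simp
  | @cons f y ws ys h1 _ ih =>
    cases Cs with
    | nil => simp [domin] at h
    | cons C Cs =>
      simp only [domin, Bool.and_eq_true] at h
      intro z hz
      rcases List.mem_cons.1 hz with rfl | hz
      · have h2 := ineq_sound hH h.1
        rw [ev_addL, ev_smulL] at h2
        push_cast at h2
        unfold Form.Describes at hv h1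
        rw [abs_le] at hv h1
        have h3 : (f.r : ℝ) * ε ≤ f.r := by
          have : (0 : ℝ) ≤ f.r := Nat.cast_nonneg _
          nlinarith
        have h4 : (v.r : ℝ) * ε ≤ v.r := by
          have : (0 : ℝ) ≤ v.r := Nat.cast_nonneg _
          nlinarith
        linarith [hv.1, hv.2, h1.1, h1.2]
      · exact ih h.2 z hz

theorem Valid.cons {ε : ℝ} {t : List ℝ} {y : ℕ → ℝ} {n : ℕ} {F : List Form} {f : Form}
    (h : Valid ε t y n F) (hf : f.Describes ε t (y n)) : Valid ε t y (n + 1) (f :: F) := by
  refine ⟨by simp only [List.length_cons]; exact Nat.succ_le_succ h.1, ?_⟩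
  intro k g hg
  cases k with
  | zero =>
    simp only [List.getElem?_cons_zero, Option.some.injEq] at hg
    subst hg
    simpa using hf
  | succ k =>
    simp only [List.getElem?_cons_succ] at hg
    have := h.2 k g hg
    have e : n + 1 - 1 - (k + 1) = n - 1 - k := by omega
    rw [e]
    exact this

theorem Valid.tail {ε : ℝ} {t : List ℝ} {y : ℕ → ℝ} {n : ℕ} {F : List Form} {f : Form}
    (h : Valid ε t y n (f :: F)) : Valid ε t y (n - 1) F := by
  have h1 := h.1
  simp only [List.length_cons] at h1
  refine ⟨by omega, ?_⟩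
  intro k g hg
  have := h.2 (k + 1) g (by simpa using hg)
  have e : n - 1 - (k + 1) = n - 1 - 1 - k := by omega
  rw [e] at this
  exact this

/-- a linear combination of described values -/
theorem combF_sound {ε : ℝ} {t : List ℝ} {y : ℕ → ℝ} {n : ℕ} {F : List Form} (hε : 0 ≤ ε)
    (h : Valid ε t y n F) (co : List ℤ) (hco : co.length ≤ F.length) :
    |evy co y n - (ev (combF co F).co t + (combF co F).c)| ≤ (combF co F).r * ε := by
  induction co generalizing F n with
  | nil => simp [evy, combF, ev]
  | cons a as ih =>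
    cases F with
    | nil => simp at hco
    | cons f fs =>
      have h1 := ih h.tail (by simpa using hco)
      have h2 := h.2 0 f (by simp)
      unfold Form.Describes at h2
      simp only [Nat.sub_zero] at h2
      simp only [combF, evy, ev_addL, ev_smulL]
      push_cast
      have e : (a : ℝ) * y (n - 1) + evy as y (n - 1) -
          ((a : ℝ) * ev f.co t + ev (combF as fs).co t + ((a : ℝ) * f.c + (combF as fs).c)) =
          a * (y (n - 1) - (ev f.co t + f.c)) +
          (evy as y (n - 1) - (ev (combF as fs).co t + (combF as fs).c)) := by ring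
      rw [e]
      refine (abs_add_le _ _).trans ?_
      rw [abs_mul, add_mul]
      refine add_le_add ?_ h1
      have e2 : ((a.natAbs : ℕ) : ℝ) = |(a : ℝ)| := by
        rw [Nat.cast_natAbs, Int.cast_abs]
      rw [← Int.cast_abs, ← Nat.cast_natAbs] at *
      rw [mul_assoc]
      exact mul_le_mul_of_nonneg_left h2 (Nat.cast_nonneg _)

theorem claims_sound {H : List Hyp} {ε : ℝ} {t : List ℝ} {y : ℕ → ℝ} {n : ℕ} {F : List Form}
    (hε : 0 ≤ ε) (hε1 : ε ≤ 1) (hH : ∀ h ∈ H, h.Holds t) (hF : Valid ε t y n F)
    {cs : List Claim} {Cs : List Cert} (h : claims H F cs Cs = true) : ∀ c ∈ cs, c.Holds y n := by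
  induction cs generalizing Cs with
  | nil => simp
  | cons c cs ih =>
    cases Cs with
    | nil => simp [claims] at h
    | cons C Cs =>
      simp only [claims, Bool.and_eq_true] at h
      obtain ⟨⟨h1, h2⟩, h3⟩ := h
      intro d hd
      rcases List.mem_cons.1 hd with rfl | hd
      · have h4 := combF_sound hε hF d.co (Nat.le_of_ble_eq_true h1)
        have h5 := ineq_sound hH h2
        unfold Claim.Holds
        push_cast at h5
        rw [abs_le] at h4
        have h6 : ((combF d.co F).r : ℝ) * ε ≤ (combF d.co F).r := by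
          have : (0 : ℝ) ≤ (combF d.co F).r := Nat.cast_nonneg _
          nlinarith
        linarith [h4.1, h4.2]
      · exact ih h3 d hd

/-- the value of a term -/
noncomputable def termVal (y : ℕ → ℝ) (n : ℕ) (p : ℕ × ℤ) : ℝ :=
  (p.2 : ℝ) + (if p.1 = 0 then 0 else y (n - p.1))

theorem tv_eq (L : List (ℕ × ℤ)) (y : ℕ → ℝ) (n : ℕ) : tv L y n = L.map (termVal y n) := rfl

theorem termForm_sound {ε : ℝ} {t : List ℝ} {y : ℕ → ℝ} {n : ℕ} {F : List Form} (hε : 0 ≤ ε)
    (hF : Valid ε t y n F) {p : ℕ × ℤ} {f : Form} (h : termForm F p = some f) :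
    f.Describes ε t (termVal y n p) := by
  obtain ⟨i, a⟩ := p
  cases i with
  | zero =>
    simp only [termForm, Option.some.injEq] at h
    subst h
    simp [Form.Describes, termVal, ev]
  | succ i =>
    simp only [termForm, Option.map_eq_some_iff] at h
    obtain ⟨g, hg, rfl⟩ := h
    have h1 := hF.2 i g hg
    have e : termVal y n (i + 1, a) = a + y (n - 1 - i) := by
      have e1 : n - (i + 1) = n - 1 - i := by omega
      simp [termVal, e1]
    rw [e]
    exact Describes.addc h1 a

theorem termForms_sound {ε : ℝ} {t : List ℝ} {y : ℕ → ℝ} {n : ℕ} {F : List Form} (hε : 0 ≤ ε)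
    (hF : Valid ε t y n F) {L : List (ℕ × ℤ)} {fs : List Form} (h : termForms F L = some fs) :
    List.Forall₂ (fun f x => f.Describes ε t x) fs (tv L y n) := by
  rw [tv_eq]
  induction L generalizing fs with
  | nil =>
    simp only [termForms, Option.some.injEq] at h
    subst h
    exact List.Forall₂.nil
  | cons p ps ih =>
    simp only [termForms] at h
    split at h
    · rename_i f gs h1 h2
      simp only [Option.some.injEq] at h
      subst h
      exact List.Forall₂.cons (termForm_sound hε hF h1) (ih h2)
    · exact absurd h (by simp)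

theorem evy_addL (a b : List ℤ) (y : ℕ → ℝ) (n : ℕ) : evy (addL a b) y n = evy a y n + evy b y n := by
  induction a generalizing b n with
  | nil => simp [addL, evy]
  | cons x xs ih =>
    cases b with
    | nil => simp [addL, evy]
    | cons z zs =>
      simp only [addL, evy, ih]
      push_cast
      ring

theorem evy_smulL (k : ℤ) (a : List ℤ) (y : ℕ → ℝ) (n : ℕ) : evy (smulL k a) y n = k * evy a y n := by
  induction a generalizing n with
  | nil => simp [smulL, evy]
  | cons x xs ih =>
    simp only [smulL, evy, ih]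
    push_cast
    ring

theorem evy_replicate (k : ℕ) (a : List ℤ) (y : ℕ → ℝ) (n : ℕ) :
    evy (List.replicate k 0 ++ a) y n = evy a y (n - k) := by
  induction k generalizing n with
  | zero => simp
  | succ k ih =>
    rw [List.replicate_succ, List.cons_append]
    simp only [evy, ih]
    have e : n - 1 - k = n - (k + 1) := by omega
    rw [e]
    simp

end Pool.Agent.H81.RDE
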