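import Pool.Agent.H81.RDE.System
import Pool.Agent.H81.RDE.Linear

/-!
# [H81 RDE BASE] The base window

`window y n W = [y (n-1), y (n-2), …, y (n-W)]`.

* `ev_window`: induction on `co` generalizing `n` and `W` (`window y n (W+1) = y (n-1) :: window y (n-1) W`,
  use `List.range_succ_eq_map`; natural subtraction is harmless since `n - 1 - (k+1) = (n-1) - 1 - k`).
* `valid_base`: `(baseF W)[k]? = some f` means `k < W` and `f = ⟨unitL k, 0, 0⟩`; `ev (unitL k) (window y n W)
  = y (n-1-k)` (from `ev_window` and `evy (unitL k) y n = y (n-1-k)`, or directly).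
* `hyps_holds`: `hyps l` consists of the `⟨c.co, -c.k⟩` for `c ∈ l` (foldl: generalize the accumulator).
-/

namespace Pool.Agent.H81.RDE

def window (y : ℕ → ℝ) (n W : ℕ) : List ℝ := (List.range W).map fun k => y (n - 1 - k)

theorem window_succ (y : ℕ → ℝ) (n W : ℕ) :
    window y n (W + 1) = y (n - 1) :: window y (n - 1) W := by
  unfold window
  rw [List.range_succ_eq_map, List.map_cons, List.map_map]
  congr 1
  apply List.map_congr_left
  intro k _
  show y (n - 1 - (k + 1)) = y (n - 1 - 1 - k)
  congr 1
  omega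

theorem ev_window {co : List ℤ} {W : ℕ} (h : co.length ≤ W) (y : ℕ → ℝ) (n : ℕ) :
    ev co (window y n W) = evy co y n := by
  induction co generalizing W n with
  | nil => simp [ev, evy]
  | cons a as ih =>
    cases W with
    | zero => simp at h
    | succ W =>
      rw [window_succ]
      simp only [ev, evy]
      rw [ih (by simpa using h)]

theorem evy_unitL (k : ℕ) (y : ℕ → ℝ) (n : ℕ) : evy (unitL k) y n = y (n - 1 - k) := by
  induction k generalizing n with
  | zero => simp [unitL, evy]
  | succ k ih =>
    simp only [unitL, evy]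
    rw [ih]
    have : n - 1 - 1 - k = n - 1 - (k + 1) := by omega
    rw [this]
    simp

theorem length_unitL (k : ℕ) : (unitL k).length = k + 1 := by
  induction k with
  | zero => rfl
  | succ k ih => simp [unitL, ih]

theorem valid_base {W n : ℕ} (hW : W ≤ n) {ε : ℝ} (hε : 0 ≤ ε) (y : ℕ → ℝ) :
    Valid ε (window y n W) y n (baseF W) := by
  refine ⟨by simpa [baseF] using hW, ?_⟩
  intro k f hf
  have hk : k < W := by
    have := (List.getElem?_eq_some_iff.1 hf).1
    simpa [baseF] using this
  have hf2 : f = ⟨unitL k, 0, 0⟩ := by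
    have := (List.getElem?_eq_some_iff.1 hf).2
    simp only [baseF, List.getElem_map, List.getElem_range] at this
    exact this.symm
  subst hf2
  unfold Form.Describes
  simp only
  rw [ev_window (by rw [length_unitL]; omega), evy_unitL]
  simp

theorem length_baseF (W : ℕ) : (baseF W).length = W := by
  simp [baseF]

theorem mem_hyps_aux (l : List Claim) (H : List Hyp) (h : Hyp)
    (hh : h ∈ l.foldl (fun H c => (⟨c.co, -c.k⟩ : Hyp) :: H) H) :
    h ∈ H ∨ ∃ c ∈ l, h = ⟨c.co, -c.k⟩ := by
  induction l generalizing H with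
  | nil => left; simpa using hh
  | cons c l ih =>
    simp only [List.foldl_cons] at hh
    rcases ih _ hh with h1 | ⟨c', hc', h1⟩
    · rcases List.mem_cons.1 h1 with h2 | h2
      · exact Or.inr ⟨c, by simp, h2⟩
      · exact Or.inl h2
    · exact Or.inr ⟨c', by simp [hc'], h1⟩

theorem hyps_holds {l : List Claim} {W : ℕ} (hl : ∀ c ∈ l, c.co.length ≤ W) {y : ℕ → ℝ} {n : ℕ}
    (h : ∀ c ∈ l, c.Holds y n) : ∀ h ∈ hyps l, h.Holds (window y n W) := by
  intro g hg
  rcases mem_hyps_aux l [] g hg with h1 | ⟨c, hc, h1⟩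
  · simp at h1
  · subst h1
    have h2 := h c hc
    unfold Claim.Holds at h2
    unfold Hyp.Holds
    simp only
    rw [ev_window (hl c hc)]
    push_cast
    linarith

/-- a bound for a functional with nonnegative coefficients -/
theorem evy_le {co : List ℤ} (hco : co.all isNonneg = true) {y : ℕ → ℝ} {M : ℝ} (hM : 0 ≤ M)
    (hy : ∀ n, y n ≤ M) (n : ℕ) : evy co y n ≤ (co.sum : ℤ) * M := by
  induction co generalizing n with
  | nil => simp [evy]
  | cons a as ih =>
    simp only [List.all_cons, Bool.and_eq_true] at hco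
    have ha : (0 : ℤ) ≤ a := (isNonneg_iff a).1 hco.1
    have ha' : (0 : ℝ) ≤ (a : ℝ) := by exact_mod_cast ha
    simp only [evy, List.sum_cons]
    rw [Int.cast_add, add_mul]
    have h1 := ih hco.2 (n - 1)
    have h2 := mul_le_mul_of_nonneg_left (hy (n - 1)) ha'
    linarith

end Pool.Agent.H81.RDE
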