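import Pool.Agent.H81.RDE.Defs

/-!
# [H81 RDE LSE] Elementary facts about `LSE`

`LSE l u` means `5 ^ u = ∑_{v ∈ l} 5 ^ v` (base 5 logarithm of a sum of at most five powers).
Use `Real.rpow_le_rpow_left_iff` / `Real.rpow_lt_rpow_left_iff` (base `5 > 1`), `List.single_le_sum`
or an induction on `l` for sums of nonnegative terms, `Real.rpow_add`, `Real.rpow_neg`.

* `LSE.le`: `5 ^ v ≤` the sum `= 5 ^ u`.
* `LSE.exists_of_ne_nil`: the sum is positive, take `u = Real.logb 5 (sum)`.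
* `exists_max_of_ne_nil`: induction on `l`.
* `LSE.le_add_one`: the sum is at most `5 * 5 ^ v = 5 ^ (v + 1)`.
* `LSE.gap`: the sum is `5 ^ v +` (sum over `l.eraseIdx i`) `≤ 5 ^ v + 4 * 5 ^ (v - g)
  = 5 ^ v * (1 + 4 * s)`, `s = 5 ^ (-g) ∈ (0, 1]`. And `1 + 4 s ≤ 5 ^ (3 s) = exp (3 s * log 5)` because
  `exp t ≥ 1 + t` and `3 * log 5 ≥ 4` (`log 5 ≥ 4/3`: e.g. `exp 1 < 2.7182818286`
  (`Real.exp_one_lt_d9`), so `exp (4/3) ^ 3 = (exp 1) ^ 4 < 55 < 125 = 5 ^ 3`).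
-/

namespace Pool.Agent.H81.RDE

theorem LSE.sum_nonneg (l : List ℝ) : 0 ≤ (l.map fun v => (5 : ℝ) ^ v).sum := by
  apply List.sum_nonneg
  intro x hx
  obtain ⟨v, _, rfl⟩ := List.mem_map.1 hx
  positivity

theorem LSE.le {l : List ℝ} {u v : ℝ} (h : LSE l u) (hv : v ∈ l) : v ≤ u := by
  have h1 : (5 : ℝ) ^ v ≤ (l.map fun v => (5 : ℝ) ^ v).sum := by
    apply List.single_le_sum
    · intro x hx
      obtain ⟨w, _, rfl⟩ := List.mem_map.1 hx
      positivity
    · exact List.mem_map.2 ⟨v, hv, rfl⟩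
  rw [← h] at h1
  exact (Real.rpow_le_rpow_left_iff (by norm_num)).1 h1

theorem LSE.exists_of_ne_nil {l : List ℝ} (hl : l ≠ []) : ∃ u, LSE l u := by
  obtain ⟨v, vs, rfl⟩ := List.exists_cons_of_ne_nil hl
  have h1 : 0 < ((v :: vs).map fun v => (5 : ℝ) ^ v).sum := by
    simp only [List.map_cons, List.sum_cons]
    have := LSE.sum_nonneg vs
    positivity
  exact ⟨Real.logb 5 _, Real.rpow_logb (by norm_num) (by norm_num) h1⟩

theorem exists_max_of_ne_nil {l : List ℝ} (hl : l ≠ []) :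
    ∃ (i : ℕ) (v : ℝ), l[i]? = some v ∧ ∀ w ∈ l, w ≤ v := by
  induction l with
  | nil => exact absurd rfl hl
  | cons x xs ih =>
    by_cases hx : xs = []
    · subst hx
      exact ⟨0, x, by simp, by simp⟩
    · obtain ⟨i, v, hi, hv⟩ := ih hx
      rcases le_total x v with h | h
      · refine ⟨i + 1, v, by simpa using hi, ?_⟩
        intro w hw
        rcases List.mem_cons.1 hw with rfl | hw
        · exact h
        · exact hv w hw
      · refine ⟨0, x, by simp, ?_⟩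
        intro w hw
        rcases List.mem_cons.1 hw with rfl | hw
        · exact le_rfl
        · exact (hv w hw).trans h

theorem sum_pow_le {l : List ℝ} {v : ℝ} (hv : ∀ w ∈ l, w ≤ v) :
    (l.map fun v => (5 : ℝ) ^ v).sum ≤ l.length * (5 : ℝ) ^ v := by
  induction l with
  | nil => simp
  | cons x xs ih =>
    simp only [List.map_cons, List.sum_cons, List.length_cons]
    have h1 := ih (fun w hw => hv w (by simp [hw]))
    have h2 : (5 : ℝ) ^ x ≤ (5 : ℝ) ^ v :=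
      (Real.rpow_le_rpow_left_iff (by norm_num)).2 (hv x (by simp))
    push_cast
    linarith

theorem LSE.le_add_one {l : List ℝ} {u v : ℝ} (h : LSE l u) (hl : l.length ≤ 5)
    (hv : ∀ w ∈ l, w ≤ v) : u ≤ v + 1 := by
  have h1 := sum_pow_le hv
  rw [← h] at h1
  have h2 : (l.length : ℝ) ≤ 5 := by exact_mod_cast hl
  have h3 : (0 : ℝ) < 5 ^ v := by positivity
  have h4 : (5 : ℝ) ^ u ≤ (5 : ℝ) ^ (v + 1) := by
    rw [Real.rpow_add (by norm_num), Real.rpow_one]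
    nlinarith
  exact (Real.rpow_le_rpow_left_iff (by norm_num)).1 h4

theorem four_le_three_mul_log : (4 : ℝ) ≤ 3 * Real.log 5 := by
  have h1 : Real.exp 1 ^ 4 ≤ 5 ^ 3 := by
    have h2 : Real.exp 1 ≤ 2.7182818286 := Real.exp_one_lt_d9.le
    have h3 : Real.exp 1 ^ 4 ≤ 2.7182818286 ^ 4 := pow_le_pow_left₀ (Real.exp_pos 1).le h2 4
    refine h3.trans (by norm_num)
  have h2 : Real.log (Real.exp 1 ^ 4) ≤ Real.log (5 ^ 3) := Real.log_le_log (by positivity) h1
  rw [Real.log_pow, Real.log_pow, Real.log_exp] at h2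
  push_cast at h2
  linarith

theorem LSE.gap {l : List ℝ} {u v g : ℝ} {i : ℕ} (h : LSE l u) (hl : l.length ≤ 5)
    (hi : l[i]? = some v) (hg : 0 ≤ g) (hw : ∀ w ∈ l.eraseIdx i, w + g ≤ v) :
    u ≤ v + 3 * (5 : ℝ) ^ (-g) := by
  obtain ⟨hi1, hi2⟩ := List.getElem?_eq_some_iff.1 hi
  have h1 : (l.map fun v => (5 : ℝ) ^ v).sum =
      (5 : ℝ) ^ v + ((l.eraseIdx i).map fun v => (5 : ℝ) ^ v).sum := by
    have hp : (l[i] :: l.eraseIdx i).Perm l := List.getElem_cons_eraseIdx_perm hi1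
    have := (hp.map fun v => (5 : ℝ) ^ v).sum_eq
    rw [← this, hi2]
    simp
  have h2 : ((l.eraseIdx i).map fun v => (5 : ℝ) ^ v).sum ≤ 4 * (5 : ℝ) ^ (v - g) := by
    have h3 := sum_pow_le (l := l.eraseIdx i) (v := v - g) (fun w hw' => by linarith [hw w hw'])
    have h4 : (l.eraseIdx i).length ≤ 4 := by
      rw [List.length_eraseIdx_of_lt hi1]
      omega
    have h5 : (((l.eraseIdx i).length : ℕ) : ℝ) ≤ 4 := by exact_mod_cast h4
    have h6 : (0 : ℝ) < 5 ^ (v - g) := by positivity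
    nlinarith
  have h3 : (5 : ℝ) ^ (v - g) = 5 ^ v * 5 ^ (-g) := by
    rw [← Real.rpow_add (by norm_num)]
    rfl
  set s := (5 : ℝ) ^ (-g) with hs
  have hs0 : 0 < s := by positivity
  have h4 : 1 + 4 * s ≤ (5 : ℝ) ^ (3 * s) := by
    rw [Real.rpow_def_of_pos (by norm_num)]
    have h5 : 1 + 4 * s ≤ 1 + Real.log 5 * (3 * s) := by
      nlinarith [four_le_three_mul_log]
    refine h5.trans ?_
    have := Real.add_one_le_exp (Real.log 5 * (3 * s))
    linarith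
  have h5 : (5 : ℝ) ^ u ≤ (5 : ℝ) ^ (v + 3 * s) := by
    rw [h, h1, Real.rpow_add (by norm_num)]
    have h6 : (0 : ℝ) < 5 ^ v := by positivity
    calc (5 : ℝ) ^ v + ((l.eraseIdx i).map fun v => (5 : ℝ) ^ v).sum
        ≤ 5 ^ v + 4 * (5 : ℝ) ^ (v - g) := by linarith
      _ = 5 ^ v * (1 + 4 * s) := by rw [h3]; ring
      _ ≤ 5 ^ v * 5 ^ (3 * s) := mul_le_mul_of_nonneg_left h4 h6.le
  exact (Real.rpow_le_rpow_left_iff (by norm_num)).1 h5

end Pool.Agent.H81.RDE
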