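import Pool.Agent.H81.RDE.Tree

/-!
# Systems of nodes

A node is a region (a list of claims about the last `W` values) together with a functional `V`
(nonnegative coefficients) and an integer `off`. From every state in the region of the node `j` the
orbit reaches the region of some node `l`, and `V + off` grows by at least `1` (by at least `1/2`
when the node `j` has a loop). Hence the orbit is unbounded.
-/

namespace Pool.Agent.H81.RDE

/-- certificate that an affine form is at least `min (ω - e₀) (τ - x₀)` -/
structure GCert where
  den : ℕ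
  ka : ℕ
  kb : ℕ
  lam : List (ℕ × ℕ)

/-- one step of the loop: positions of the largest terms, with the certificates of the gaps -/
structure LStep where
  qN : ℕ
  cN : List GCert
  qD : ℕ
  cD : List GCert

/-- The data of a loop. In the region `near`, `ω ≥ e₀`, `τ ≥ x₀`, `V ≥ vmin - 1` one period of the
word `steps` keeps `near`, increases `ω` by at least one, decreases `τ` by at least `1` and at most
`dmax`, and changes `V` by at most `(1/8) 5 ^ (-min (ω - e₀) (τ - x₀))`. -/
structure Loop where
  near : List Claim
  om : List ℤ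
  e0 : ℤ
  tau : List ℤ
  x0 : ℤ
  vmin : ℤ
  dmax : ℕ
  G : ℕ
  steps : List LStep
  cNear : List Cert
  cOm : Cert
  cUp : Cert
  cLo : Cert

structure Node where
  cons : List Claim
  V : List ℤ
  off : ℤ
  loop : Option Loop
  tree : Tree

/-- the state before the loop -/
def Loop.entry (L : Loop) (V : List ℤ) : List Claim :=
  L.near ++ [⟨L.om, L.e0⟩, ⟨V, L.vmin⟩, ⟨L.tau, L.x0⟩]

/-- the state after the loop -/
def Loop.exit (L : Loop) (V : List ℤ) : List Claim :=
  L.near ++ [⟨L.om, L.e0⟩, ⟨V, L.vmin - 1⟩, ⟨smulL (-1) L.tau, -L.x0⟩, ⟨L.tau, L.x0 - L.dmax⟩]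

/-- the state at the beginning of each period -/
def Loop.inner (L : Loop) (V : List ℤ) : List Claim :=
  L.near ++ [⟨L.om, L.e0⟩, ⟨V, L.vmin - 1⟩, ⟨L.tau, L.x0⟩]

def Node.entry (nd : Node) : List Claim :=
  match nd.loop with
  | none => nd.cons
  | some L => L.entry nd.V

def Node.exit (nd : Node) : List Claim :=
  match nd.loop with
  | none => nd.cons
  | some L => L.exit nd.V

/-- claims as hypotheses on the base window (newest first) -/
def hyps (l : List Claim) : List Hyp := l.foldl (fun H c => ⟨c.co, -c.k⟩ :: H) []

/-- the `k`-th coordinate -/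
def unitL : ℕ → List ℤ
  | 0 => [1]
  | k + 1 => 0 :: unitL k

/-- the forms of the base window -/
def baseF (W : ℕ) : List Form := (List.range W).map fun k => ⟨unitL k, 0, 0⟩

def gapOK (H : List Hyp) (L : Loop) (f : List ℤ) (c : ℤ) (C : GCert) : Bool :=
  Nat.blt 0 C.den && Nat.ble C.den (C.ka + C.kb) &&
    ineq H (addL (smulL C.den f) (addL (smulL (-C.ka) L.om) (smulL (-C.kb) L.tau)))
      (C.den * c + C.ka * L.e0 + C.kb * L.x0) ⟨1, C.lam⟩

/-- the gaps between `v` and each of `ws` are at least `G + min (ω - e₀) (τ - x₀)` -/
def gapsOK (H : List Hyp) (L : Loop) (v : Form) : List Form → List GCert → Bool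
  | [], [] => true
  | w :: ws, C :: Cs =>
    gapOK H L (addL v.co (smulL (-1) w.co)) (v.c - w.c - (v.r + w.r : ℕ) - L.G) C &&
      gapsOK H L v ws Cs
  | _, _ => false

/-- run the word; the result is the list of forms at the end of the period -/
def runLoop (N D : List (ℕ × ℤ)) (H : List Hyp) (L : Loop) : List LStep → List Form → Option (List Form)
  | [], F => some F
  | s :: ss, F =>
    match termForms F N, termForms F D with
    | some vs, some ws =>
      match vs[s.qN]?, ws[s.qD]? with
      | some v, some w =>
        match gapsOK H L v (vs.eraseIdx s.qN) s.cN && gapsOK H L w (ws.eraseIdx s.qD) s.cD with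
        | true => runLoop N D H L ss ((v.blur 1).sub (w.blur 1) :: F)
        | false => none
      | _, _ => none
    | _, _ => none

def loopOK (N D : List (ℕ × ℤ)) (W : ℕ) (V : List ℤ) (L : Loop) : Bool :=
  let H := hyps (L.inner V)
  match runLoop N D H L L.steps (baseF W) with
  | none => false
  | some F =>
    let fo := combF L.om F
    let ft := combF L.tau F
    let fv := combF V F
    claims H F L.near L.cNear &&
    Nat.ble L.om.length F.length && Nat.ble L.tau.length F.length && Nat.ble V.length F.length &&
    ineq H (addL fo.co (smulL (-1) L.om)) (fo.c - fo.r - 1) L.cOm &&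
    ineq H (addL L.tau (smulL (-1) ft.co)) (-ft.c - ft.r - 1) L.cUp &&
    ineq H (addL ft.co (smulL (-1) L.tau)) (ft.c - ft.r + L.dmax) L.cLo &&
    allZero (addL fv.co (smulL (-1) V)) && isZero fv.c && Nat.ble (24 * fv.r) (5 ^ L.G) &&
    Nat.ble 1 L.G && Nat.ble L.om.length W && Nat.ble L.tau.length W && Nat.ble V.length W &&
    (L.near.all fun c => Nat.ble c.co.length W)

/-- What has to be shown at a leaf with label `l` when `m` forms are known: the region of the node
`l`, and the growth of `V` from the base of the node `nd`. -/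
def obl (nodes : List Node) (nd : Node) (W : ℕ) (l m : ℕ) : List Claim :=
  match nodes[l]? with
  | none => [⟨[], 1⟩]
  | some nl =>
    nl.entry ++ [⟨addL nl.V (List.replicate (m - W) 0 ++ smulL (-1) nd.V), 1 + nd.off - nl.off⟩]

/-- What has to be shown at a leaf of the initial tree. -/
def obl0 (nodes : List Node) (W : ℕ) (l m : ℕ) : List Claim :=
  match nodes[l]?, Nat.ble W m with
  | some nl, true => nl.entry
  | _, _ => [⟨[], 1⟩]

/-- A complete certificate. `init` are the logarithms of the initial values
`x 3, x 2, x 1, x 0` (in this order). -/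
structure Sys where
  N : List (ℕ × ℤ)
  D : List (ℕ × ℤ)
  W : ℕ
  nodes : List Node
  init : List ℤ
  tree0 : Tree

def Node.ok (s : Sys) (nd : Node) : Bool :=
  check s.N s.D (obl s.nodes nd s.W) nd.tree (baseF s.W) (hyps nd.exit) (.node none) &&
    (nd.V.all isNonneg) && Nat.ble nd.V.length s.W && (nd.exit.all fun c => Nat.ble c.co.length s.W) &&
    (match nd.loop with
    | none => true
    | some L => loopOK s.N s.D s.W nd.V L)

def Sys.ok (s : Sys) : Bool :=
  Nat.ble s.N.length 5 && Nat.ble s.D.length 5 && Nat.beq s.init.length 4 &&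
    (s.nodes.all fun nd => nd.ok s) &&
    check s.N s.D (obl0 s.nodes s.W) s.tree0 (s.init.map fun c => ⟨[], c, 0⟩) [] (.node none)

end Pool.Agent.H81.RDE
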