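import Pool.Agent.H81.RDE.Problem

/-!
# [H81 RDE TRIV] Elementary cases

* `const_case`: the denominator is the constant `A`. Take `A = 1`, `alpha = 1` if the flag is set, and
  `beta j = 2` for all flags `j` that are set; the solution with the initial values `1, 1, 1, 1` (defined by
  recursion) has positive terms and `x (n + 4) ≥ 2 * x (n + 3 - i)`, hence `x (k * (i+1)) ≥ 2 ^ k` for
  `k ≥ ...`: the subsequence `x (3 - i + k (i+1))`, `k = 0, 1, …`, satisfies `≥ 2 ^ k` (`x (n+4) = x ((n + 3 - i) +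
  (i + 1))`).
* `zero_case`: the numerator is `beta x_{n-m}`, `m ∈ {3, 4}`, `D` contains the constant but not `x_{n-m}`.
  Take `beta = 2`, all denominator parameters `1`. The sequence `x n = 2 ^ (n / m)` if `m ∣ n` and `x n = 0`
  otherwise is a solution: the denominator is `≥ A = 1 > 0`, and if `m ∣ n + 4` then every other term
  `x (n + 4 - j)`, `j ∈ {1,2,3,4}`, `j ≠ m`, is zero because `m ∤ n + 4 - j` (for `m = 3`: `j = 1, 2, 4`; for
  `m = 4`: `j = 1, 2, 3`), so the denominator is `1`; if `m ∤ n + 4` the numerator is zero.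
-/

namespace Pool.Agent.H81.RDE

/-- Sequences defined by strong recursion. -/
noncomputable def recSeq (F : ℕ → (ℕ → ℝ) → ℝ) : ℕ → ℝ
  | n => F n (fun m => if _h : m < n then recSeq F m else 0)
termination_by n => n

theorem recSeq_eq (F : ℕ → (ℕ → ℝ) → ℝ) (n : ℕ) :
    recSeq F n = F n (fun m => if m < n then recSeq F m else 0) := by
  conv_lhs => rw [recSeq]
  simp only [dite_eq_ite]

theorem not_esb_of_unbounded {k : ℕ} {S : SpecialCase k} (P : Params k) (hP : Belongs S P)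
    (x : ℕ → ℝ) (hx : IsSolution P x) (hu : ∀ M : ℝ, ∃ n, M < x n) : ¬ ESB S := by
  intro h
  obtain ⟨M, hM⟩ := h P hP x hx
  obtain ⟨n, hn⟩ := hu M
  exact absurd (hM n) (not_le.2 hn)

theorem const_case {N : ℕ} (i : Fin 4) (hN : N.testBit (i + 1) = true) : ¬ ESB (caseOf 4 N 1) := by
  obtain ⟨al, hal⟩ : ∃ al : ℝ, al = if N.testBit 0 = true then 1 else 0 := ⟨_, rfl⟩
  obtain ⟨be, hbe⟩ : ∃ be : Fin 4 → ℝ, be = fun (j : Fin 4) =>
      if N.testBit ((j : ℕ) + 1) = true then (2 : ℝ) else 0 := ⟨_, rfl⟩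
  obtain ⟨x, hx⟩ : ∃ x : ℕ → ℝ, x = recSeq (fun n g => if n < 4 then 1 else
    al + ∑ j : Fin 4, be j * g (n - 1 - j)) := ⟨_, rfl⟩
  have hal0 : 0 ≤ al := by rw [hal]; split_ifs <;> norm_num
  have hbe0 : ∀ j, 0 ≤ be j := by intro j; rw [hbe]; dsimp only; split_ifs <;> norm_num
  have hbei : be i = 2 := by rw [hbe]; dsimp only; rw [if_pos hN]
  have hx1 : ∀ n < 4, x n = 1 := by
    intro n hn
    rw [hx, recSeq_eq, if_pos hn]
  have hx2 : ∀ n, x (n + 4) = al + ∑ j : Fin 4, be j * x (n + 4 - 1 - j) := by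
    intro n
    conv_lhs => rw [hx, recSeq_eq]
    rw [if_neg (by omega), hx]
    congr 1
    refine Finset.sum_congr rfl fun j _ => ?_
    dsimp only
    rw [if_pos (by omega)]
  have hx0 : ∀ n, 0 ≤ x n := by
    intro n
    induction n using Nat.strong_induction_on with
    | _ n ih =>
      rcases lt_or_ge n 4 with h | h
      · rw [hx1 n h]; norm_num
      · obtain ⟨m, rfl⟩ := Nat.exists_eq_add_of_le' h
        rw [hx2]
        refine add_nonneg hal0 (Finset.sum_nonneg fun j _ => mul_nonneg (hbe0 j) (ih _ ?_))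
        omega
  have hgrow : ∀ n, 2 * x (n + 4 - 1 - i) ≤ x (n + 4) := by
    intro n
    rw [hx2]
    have h1 : be i * x (n + 4 - 1 - i) ≤ ∑ j : Fin 4, be j * x (n + 4 - 1 - j) :=
      Finset.single_le_sum (f := fun j : Fin 4 => be j * x (n + 4 - 1 - j))
        (fun j _ => mul_nonneg (hbe0 j) (hx0 _)) (Finset.mem_univ i)
    rw [hbei] at h1
    linarith
  have hpow : ∀ k : ℕ, (2 : ℝ) ^ k ≤ x (3 + k * (i + 1)) := by
    intro k
    induction k with
    | zero => simp [hx1 3 (by norm_num)]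
    | succ k ih =>
      have h1 := hgrow (k * (i + 1) + i)
      have e1 : k * ((i : ℕ) + 1) + i + 4 - 1 - i = 3 + k * (i + 1) := by omega
      have e2 : k * ((i : ℕ) + 1) + i + 4 = 3 + (k + 1) * (i + 1) := by
        rw [add_mul]; omega
      rw [e1, e2] at h1
      rw [pow_succ]
      linarith
  refine not_esb_of_unbounded (k := 4) ⟨al, be, 1, fun _ => 0⟩ ?_ x ⟨fun n _ => hx0 n, ?_⟩ ?_
  · refine ⟨?_, fun j => ?_, ?_, fun j => ?_⟩
    · show Sign (N.testBit 0) al
      unfold Sign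
      rw [hal]
      split_ifs <;> norm_num
    · show Sign (N.testBit (j + 1)) (be j)
      unfold Sign
      rw [hbe]
      dsimp only
      split_ifs <;> norm_num
    · show Sign (Nat.testBit 1 0) 1
      unfold Sign
      simp
    · show Sign (Nat.testBit 1 (j + 1)) 0
      unfold Sign
      have e : Nat.testBit 1 ((j : ℕ) + 1) = false := by
        rw [Nat.testBit_succ]; simp
      rw [e]
      simp
  · intro n
    simp only [zero_mul, Finset.sum_const_zero, add_zero, div_one]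
    exact ⟨zero_lt_one, hx2 n⟩
  · intro M
    obtain ⟨k, hk⟩ := pow_unbounded_of_one_lt M (one_lt_two)
    exact ⟨_, hk.trans_le (hpow k)⟩

/-- the sequence `2 ^ (n / m)` on the multiples of `m` -/
noncomputable def pulse (m n : ℕ) : ℝ := if m ∣ n then 2 ^ (n / m) else 0

theorem pulse_nonneg (m n : ℕ) : 0 ≤ pulse m n := by
  unfold pulse; split_ifs <;> positivity

theorem pulse_add {m : ℕ} (hm : 0 < m) (n : ℕ) : pulse m (n + m) = 2 * pulse m n := by
  unfold pulse
  by_cases h : m ∣ n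
  · rw [if_pos h, if_pos (by simpa using h), Nat.add_div_right _ hm, pow_succ]
    ring
  · rw [if_neg h, if_neg (by simpa using h)]
    ring

theorem pulse_unbounded {m : ℕ} (hm : 0 < m) (M : ℝ) : ∃ n, M < pulse m n := by
  obtain ⟨k, hk⟩ := pow_unbounded_of_one_lt M (one_lt_two)
  refine ⟨m * k, ?_⟩
  unfold pulse
  rw [if_pos (Dvd.intro _ rfl), Nat.mul_div_cancel_left _ hm]
  exact hk

theorem zero_case3 {D : ℕ} (h0 : D.testBit 0 = true) (h3 : D.testBit 3 = false) :
    ¬ ESB (caseOf 4 8 D) := by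
  obtain ⟨B, hB⟩ : ∃ B : Fin 4 → ℝ, B = fun (j : Fin 4) =>
      if D.testBit ((j : ℕ) + 1) = true then (1 : ℝ) else 0 := ⟨_, rfl⟩
  have hB0 : ∀ j, 0 ≤ B j := by intro j; rw [hB]; dsimp only; split_ifs <;> norm_num
  have hB2 : B 2 = 0 := by
    rw [hB]
    show (if D.testBit 3 = true then (1 : ℝ) else 0) = 0
    rw [h3]; simp
  refine not_esb_of_unbounded (k := 4) ⟨0, ![0, 0, 2, 0], 1, B⟩ ?_ (pulse 3)
    ⟨fun n _ => pulse_nonneg 3 n, ?_⟩ (pulse_unbounded (by norm_num))
  · refine ⟨?_, fun j => ?_, ?_, fun j => ?_⟩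
    · show Sign (Nat.testBit 8 0) 0
      simp [Sign, Nat.testBit]
    · show Sign (Nat.testBit 8 (j + 1)) (![0, 0, 2, 0] j : ℝ)
      fin_cases j <;> simp [Sign, Nat.testBit]
    · show Sign (D.testBit 0) 1
      rw [h0]; simp [Sign]
    · show Sign (D.testBit (j + 1)) (B j)
      unfold Sign
      rw [hB]
      dsimp only
      split_ifs <;> norm_num
  · intro n
    have hden : 0 < 1 + ∑ i : Fin 4, B i * pulse 3 (n + 4 - 1 - i) := by
      have : 0 ≤ ∑ i : Fin 4, B i * pulse 3 (n + 4 - 1 - i) :=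
        Finset.sum_nonneg fun j _ => mul_nonneg (hB0 j) (pulse_nonneg _ _)
      linarith
    refine ⟨hden, ?_⟩
    show pulse 3 (n + 4) = (0 + ∑ i : Fin 4, (![0, 0, 2, 0] i : ℝ) * pulse 3 (n + 4 - 1 - i)) /
      (1 + ∑ i : Fin 4, B i * pulse 3 (n + 4 - 1 - i))
    have hnum : (0 + ∑ i : Fin 4, (![0, 0, 2, 0] i : ℝ) * pulse 3 (n + 4 - 1 - i)) =
        pulse 3 (n + 4) := by
      rw [show n + 4 = (n + 1) + 3 by ring, pulse_add (by norm_num)]
      rw [Fin.sum_univ_four]
      simp only [Matrix.cons_val_zero, Matrix.cons_val_one, Matrix.cons_val, zero_mul, zero_add,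
        add_zero]
      have e2 : n + 1 + 3 - 1 - ((2 : Fin 4) : ℕ) = n + 1 := by
        show n + 1 + 3 - 1 - 2 = n + 1
        omega
      rw [e2]
    rw [hnum, eq_div_iff hden.ne']
    by_cases h : 3 ∣ n + 4
    · have hz : ∑ i : Fin 4, B i * pulse 3 (n + 4 - 1 - i) = 0 := by
        rw [Fin.sum_univ_four, hB2]
        have e0 : pulse 3 (n + 4 - 1 - ((0 : Fin 4) : ℕ)) = 0 := by
          unfold pulse; rw [if_neg]
          simp only [Fin.val_zero]; omega
        have e1 : pulse 3 (n + 4 - 1 - ((1 : Fin 4) : ℕ)) = 0 := by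
          unfold pulse; rw [if_neg]
          simp only [Fin.val_one]; omega
        have e3 : pulse 3 (n + 4 - 1 - ((3 : Fin 4) : ℕ)) = 0 := by
          unfold pulse; rw [if_neg]
          show ¬ 3 ∣ n + 4 - 1 - 3
          omega
        rw [e0, e1, e3]
        ring
      rw [hz]; ring
    · have e : pulse 3 (n + 4) = 0 := by unfold pulse; rw [if_neg h]
      rw [e]; ring

theorem zero_case4 {D : ℕ} (h0 : D.testBit 0 = true) (h4 : D.testBit 4 = false) :
    ¬ ESB (caseOf 4 16 D) := by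
  obtain ⟨B, hB⟩ : ∃ B : Fin 4 → ℝ, B = fun (j : Fin 4) =>
      if D.testBit ((j : ℕ) + 1) = true then (1 : ℝ) else 0 := ⟨_, rfl⟩
  have hB0 : ∀ j, 0 ≤ B j := by intro j; rw [hB]; dsimp only; split_ifs <;> norm_num
  have hB3 : B 3 = 0 := by
    rw [hB]
    show (if D.testBit 4 = true then (1 : ℝ) else 0) = 0
    rw [h4]; simp
  refine not_esb_of_unbounded (k := 4) ⟨0, ![0, 0, 0, 2], 1, B⟩ ?_ (pulse 4)
    ⟨fun n _ => pulse_nonneg 4 n, ?_⟩ (pulse_unbounded (by norm_num))
  · refine ⟨?_, fun j => ?_, ?_, fun j => ?_⟩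
    · show Sign (Nat.testBit 16 0) 0
      simp [Sign, Nat.testBit]
    · show Sign (Nat.testBit 16 (j + 1)) (![0, 0, 0, 2] j : ℝ)
      fin_cases j <;> simp [Sign, Nat.testBit]
    · show Sign (D.testBit 0) 1
      rw [h0]; simp [Sign]
    · show Sign (D.testBit (j + 1)) (B j)
      unfold Sign
      rw [hB]
      dsimp only
      split_ifs <;> norm_num
  · intro n
    have hden : 0 < 1 + ∑ i : Fin 4, B i * pulse 4 (n + 4 - 1 - i) := by
      have : 0 ≤ ∑ i : Fin 4, B i * pulse 4 (n + 4 - 1 - i) :=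
        Finset.sum_nonneg fun j _ => mul_nonneg (hB0 j) (pulse_nonneg _ _)
      linarith
    refine ⟨hden, ?_⟩
    show pulse 4 (n + 4) = (0 + ∑ i : Fin 4, (![0, 0, 0, 2] i : ℝ) * pulse 4 (n + 4 - 1 - i)) /
      (1 + ∑ i : Fin 4, B i * pulse 4 (n + 4 - 1 - i))
    have hnum : (0 + ∑ i : Fin 4, (![0, 0, 0, 2] i : ℝ) * pulse 4 (n + 4 - 1 - i)) =
        pulse 4 (n + 4) := by
      rw [pulse_add (by norm_num)]
      rw [Fin.sum_univ_four]
      simp only [Matrix.cons_val_zero, Matrix.cons_val_one, Matrix.cons_val, zero_mul, zero_add,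
        add_zero]
      have e3 : n + 4 - 1 - ((3 : Fin 4) : ℕ) = n := by
        show n + 4 - 1 - 3 = n
        omega
      rw [e3]
    rw [hnum, eq_div_iff hden.ne']
    by_cases h : 4 ∣ n + 4
    · have hz : ∑ i : Fin 4, B i * pulse 4 (n + 4 - 1 - i) = 0 := by
        rw [Fin.sum_univ_four, hB3]
        have e0 : pulse 4 (n + 4 - 1 - ((0 : Fin 4) : ℕ)) = 0 := by
          unfold pulse; rw [if_neg]
          simp only [Fin.val_zero]; omega
        have e1 : pulse 4 (n + 4 - 1 - ((1 : Fin 4) : ℕ)) = 0 := by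
          unfold pulse; rw [if_neg]
          simp only [Fin.val_one]; omega
        have e2 : pulse 4 (n + 4 - 1 - ((2 : Fin 4) : ℕ)) = 0 := by
          unfold pulse; rw [if_neg]
          show ¬ 4 ∣ n + 4 - 1 - 2
          omega
        rw [e0, e1, e2]
        ring
      rw [hz]; ring
    · have e : pulse 4 (n + 4) = 0 := by unfold pulse; rw [if_neg h]
      rw [e]; ring

end Pool.Agent.H81.RDE
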