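import Pool.Agent.H81.RDE.Problem
import Pool.Agent.H81.RDE.System
import Pool.Agent.H81.RDE.LSELemmas
import Pool.Agent.H81.RDE.Triv

/-!
# [H81 RDE REAL] From logarithmic orbits to solutions of the difference equation

`not_esb_of_orbits`: choose the parameters `alpha = 5 ^ a` (real power of the integer `a`) if `(0, a) ∈ NL`,
`beta i = 5 ^ a` if `(i+1, a) ∈ NL`, all others `0`, and the same for the denominator. Since
`NL.map Prod.fst = bitsL N` the parameters belong to `caseOf 4 N D`.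
There is an orbit `y` with the given initial values: define by strong recursion
`y n = init n` for `n < 4` and `y n = logb 5 (∑ 5 ^ (terms of NL)) - logb 5 (∑ 5 ^ (terms of DL))` for `n ≥ 4`
(both sums are positive because the lists are not empty; all terms of `tv` at time `n` use only
`y (n - i)`, `1 ≤ i ≤ 4`). Then `x n = 5 ^ (y n) > 0` is a solution:
`(NL.map fun p => 5 ^ (p.2 + y (n - p.1)))` sums to `alpha + ∑ beta i * x (n - 1 - i)`: a convenient way is
`bitsL N = (List.range 5).filter ..`, so both sums equal `∑_{i<5} (if N.testBit i then coefficient * term else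
0)`; e.g. define `coef NL i = (NL.find? (·.1 = i))`-like or prove a general lemma
`(L.map fun p => 5 ^ (p.2 : ℝ) * g p.1).sum = ∑ i : Fin 5, (cf L i) * g i` where `cf L i = ((L.filter (·.1 = i)).map
fun p => 5 ^ (p.2:ℝ)).sum` by induction on `L` (entries `< 5`), and then
`alpha = cf NL 0`, `beta i = cf NL (i+1)`; `cf L i > 0` iff `i ∈ L.map Prod.fst`, and `cf L i = 0` otherwise.
The orbit is unbounded, so the solution is unbounded (`5 ^ ·` is increasing and unbounded).
-/

namespace Pool.Agent.H81.RDE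

/-- a positive solution that is not bounded above shows that the special case is not ESB -/
theorem not_esb_of_solution {k : ℕ} {S : SpecialCase k} (P : Params k) (hP : Belongs S P) (x : ℕ → ℝ)
    (hx : IsSolution P x) (hu : ∀ M : ℝ, ∃ n, M < x n) : ¬ ESB S := by
  intro h
  obtain ⟨M, hM⟩ := h P hP x hx
  obtain ⟨n, hn⟩ := hu M
  exact absurd (hM n) (not_le.2 hn)

/-- the coefficient of the term `i` -/
noncomputable def cf : List (ℕ × ℤ) → ℕ → ℝ
  | [], _ => 0
  | p :: L, i => (if p.1 = i then (5 : ℝ) ^ (p.2 : ℝ) else 0) + cf L i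

theorem cf_nonneg (L : List (ℕ × ℤ)) (i : ℕ) : 0 ≤ cf L i := by
  induction L with
  | nil => exact le_rfl
  | cons p L ih =>
    rw [cf]
    refine add_nonneg ?_ ih
    split_ifs
    · positivity
    · exact le_rfl

theorem cf_pos {L : List (ℕ × ℤ)} {i : ℕ} (h : i ∈ L.map Prod.fst) : 0 < cf L i := by
  induction L with
  | nil => simp at h
  | cons p L ih =>
    rw [cf]
    rw [List.map_cons, List.mem_cons] at h
    rcases h with h | h
    · rw [if_pos h.symm]
      have h1 : (0 : ℝ) < (5 : ℝ) ^ (p.2 : ℝ) := by positivity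
      linarith [cf_nonneg L i]
    · have h2 := ih h
      refine add_pos_of_nonneg_of_pos ?_ h2
      split_ifs
      · positivity
      · exact le_rfl

theorem cf_zero {L : List (ℕ × ℤ)} {i : ℕ} (h : i ∉ L.map Prod.fst) : cf L i = 0 := by
  induction L with
  | nil => rfl
  | cons p L ih =>
    rw [cf]
    rw [List.map_cons, List.mem_cons, not_or] at h
    rw [if_neg (fun e => h.1 e.symm), ih h.2, add_zero]

theorem mem_bitsL {m i : ℕ} : i ∈ bitsL m ↔ i < 5 ∧ m.testBit i = true := by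
  unfold bitsL
  rw [List.mem_filter, List.mem_range]

theorem sign_cf {L : List (ℕ × ℤ)} {m : ℕ} (h : L.map Prod.fst = bitsL m) {i : ℕ} (hi : i < 5) :
    Sign (m.testBit i) (cf L i) := by
  unfold Sign
  split_ifs with hb
  · exact cf_pos (by rw [h, mem_bitsL]; exact ⟨hi, hb⟩)
  · exact cf_zero (by rw [h, mem_bitsL]; exact fun h' => hb h'.2)

theorem sum_cf {L : List (ℕ × ℤ)} (h : ∀ p ∈ L, p.1 < 5) (g : ℕ → ℝ) :
    (L.map fun p => (5 : ℝ) ^ (p.2 : ℝ) * g p.1).sum =
      cf L 0 * g 0 + ∑ i : Fin 4, cf L (i + 1) * g (i + 1) := by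
  induction L with
  | nil => simp [cf]
  | cons p L ih =>
    have ih' := ih fun q hq => h q (List.mem_cons_of_mem _ hq)
    have hp := h p List.mem_cons_self
    rw [List.map_cons, List.sum_cons, ih']
    obtain ⟨j, a⟩ := p
    simp only [cf, Fin.sum_univ_four]
    simp only at hp
    have h0 : ((0 : Fin 4) : ℕ) = 0 := rfl
    have h1 : ((1 : Fin 4) : ℕ) = 1 := rfl
    have h2 : ((2 : Fin 4) : ℕ) = 2 := rfl
    have h3 : ((3 : Fin 4) : ℕ) = 3 := rfl
    rw [h0, h1, h2, h3]
    interval_cases j <;> norm_num <;> ring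

theorem logb_of_LSE {l : List ℝ} {u : ℝ} (h : LSE l u) :
    Real.logb 5 (l.map fun v => (5 : ℝ) ^ v).sum = u := by
  unfold LSE at h
  rw [← h]
  exact Real.logb_rpow (by norm_num) (by norm_num)

theorem tv_ne_nil {L : List (ℕ × ℤ)} (hL : L ≠ []) (y : ℕ → ℝ) (n : ℕ) : tv L y n ≠ [] := by
  unfold tv
  simpa using hL

theorem tv_trunc (L : List (ℕ × ℤ)) (y : ℕ → ℝ) {n : ℕ} (hn : 0 < n) :
    tv L (fun m => if m < n then y m else 0) n = tv L y n := by
  unfold tv
  refine List.map_congr_left fun p _ => ?_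
  by_cases hp : p.1 = 0
  · simp [hp]
  · rw [if_neg hp, if_neg hp]
    dsimp only
    rw [if_pos (by omega)]

/-- the orbit with given initial values -/
theorem exists_orbit {NL DL : List (ℕ × ℤ)} (hN0 : NL ≠ []) (hD0 : DL ≠ []) (init : ℕ → ℝ) :
    ∃ y : ℕ → ℝ, Orbit NL DL y ∧ ∀ i < 4, y i = init i := by
  obtain ⟨y, hy⟩ : ∃ y : ℕ → ℝ, y = recSeq (fun n g => if n < 4 then init n else
    Real.logb 5 ((tv NL g n).map fun v => (5 : ℝ) ^ v).sum -
      Real.logb 5 ((tv DL g n).map fun v => (5 : ℝ) ^ v).sum) := ⟨_, rfl⟩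
  refine ⟨y, fun n hn => ?_, fun i hi => ?_⟩
  · obtain ⟨u, hu⟩ := LSE.exists_of_ne_nil (tv_ne_nil hN0 y n)
    obtain ⟨v, hv⟩ := LSE.exists_of_ne_nil (tv_ne_nil hD0 y n)
    refine ⟨u, v, hu, hv, ?_⟩
    have h1 : y n = Real.logb 5 ((tv NL y n).map fun v => (5 : ℝ) ^ v).sum -
        Real.logb 5 ((tv DL y n).map fun v => (5 : ℝ) ^ v).sum := by
      have e1 := tv_trunc NL y (n := n) (by omega)
      have e2 := tv_trunc DL y (n := n) (by omega)
      conv_lhs => rw [hy, recSeq_eq]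
      rw [if_neg (by omega), ← hy, e1, e2]
    rw [h1, logb_of_LSE hu, logb_of_LSE hv]
  · rw [hy, recSeq_eq, if_pos hi]

/-- the sum of the terms in terms of the parameters -/
theorem sum_tv {L : List (ℕ × ℤ)} {m : ℕ} (h : L.map Prod.fst = bitsL m) (y : ℕ → ℝ) (n : ℕ) :
    ((tv L y (n + 4)).map fun v => (5 : ℝ) ^ v).sum =
      cf L 0 + ∑ i : Fin 4, cf L (i + 1) * (5 : ℝ) ^ y (n + 4 - 1 - i) := by
  have hL : ∀ p ∈ L, p.1 < 5 := by
    intro p hp
    have h1 : p.1 ∈ L.map Prod.fst := List.mem_map_of_mem hp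
    rw [h, mem_bitsL] at h1
    exact h1.1
  have h2 := sum_cf hL (fun j => (5 : ℝ) ^ (if j = 0 then 0 else y (n + 4 - j)))
  have h3 : ((tv L y (n + 4)).map fun v => (5 : ℝ) ^ v).sum =
      (L.map fun p => (5 : ℝ) ^ (p.2 : ℝ) *
        (5 : ℝ) ^ (if p.1 = 0 then 0 else y (n + 4 - p.1))).sum := by
    unfold tv
    rw [List.map_map]
    congr 1
    refine List.map_congr_left fun p _ => ?_
    simp only [Function.comp]
    rw [Real.rpow_add (by norm_num)]
  rw [h3, h2]
  simp only [if_true, Real.rpow_zero, mul_one]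
  refine congrArg (fun z => cf L 0 + z) (Finset.sum_congr rfl fun i _ => ?_)
  have e : n + 4 - ((i : ℕ) + 1) = n + 4 - 1 - i := by omega
  rw [if_neg (by omega), e]

theorem not_esb_of_orbits {NL DL : List (ℕ × ℤ)} {N D : ℕ} (hN : NL.map Prod.fst = bitsL N)
    (hD : DL.map Prod.fst = bitsL D) (hN0 : NL ≠ []) (hD0 : DL ≠ []) (init : ℕ → ℝ)
    (h : ∀ y : ℕ → ℝ, Orbit NL DL y → (∀ i < 4, y i = init i) → ∀ M : ℝ, ∃ n, M < y n) :
    ¬ ESB (caseOf 4 N D) := by
  obtain ⟨y, hy, hinit⟩ := exists_orbit hN0 hD0 init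
  have hunb := h y hy hinit
  refine not_esb_of_solution (k := 4) ⟨cf NL 0, fun i => cf NL (i + 1), cf DL 0,
    fun i => cf DL (i + 1)⟩ ?_ (fun n => (5 : ℝ) ^ y n) ⟨fun n _ => ?_, fun n => ?_⟩ ?_
  · refine ⟨sign_cf hN (by norm_num), fun i => sign_cf hN (by omega), sign_cf hD (by norm_num),
      fun i => sign_cf hD (by omega)⟩
  · positivity
  · obtain ⟨u, v, hu, hv, huv⟩ := hy (n + 4) (by omega)
    unfold LSE at hu hv
    rw [sum_tv hN] at hu
    rw [sum_tv hD] at hv
    simp only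
    rw [← hu, ← hv, huv, Real.rpow_sub (by norm_num)]
    exact ⟨by positivity, rfl⟩
  · intro M
    obtain ⟨n, hn⟩ := hunb (Real.logb 5 (max M 1))
    refine ⟨n, ?_⟩
    rw [Real.logb_lt_iff_lt_rpow (by norm_num) (by positivity)] at hn
    exact (le_max_left _ _).trans_lt hn

end Pool.Agent.H81.RDE
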