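import Pool.Agent.H81.RDE.Shadow
import Pool.Agent.H81.RDE.Real

/-!
# [H81 RDE EIGHT] The special cases (14,16) and (15,16)

`x (n+4) * x n = α + x (n+3) + 25 x (n+2) + 94 x (n+1)` with `α = 0` (mask 14) or `α = 1` (mask 15).

Approximate solution of period 8 (up to the factor `39`): for `n = 8 k + j`,
`z n = A₀ 39^k, S₁, S₂, A₃ 39^k, S₄, A₅ 39^k, A₆ 39^k, S₇` for `j = 0, …, 7`, where
`A₀ = 1, A₃ = 31/3, A₅ = 11/3, A₆ = 7/3`, `S₁ = 25 A₃ / A₅ = 775/11`, `S₂ = 39 * 25 A₀ / A₆ = 2925/7`,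
`S₄ = A₃ / A₀ = 31/3`, `S₇ = 94 A₀ / A₃ = 282/31`.
The terms of order `39^k` in `z (n+4) * z n = …` agree exactly (`n = 8k + j`):
* j=0: `S₄ A₀ = A₃`; * j=1: `A₅ S₁ = 25 A₃`; * j=2: `A₆ S₂ = A₅ + 94 A₃` (`= 975`);
* j=3: `S₇ A₃ = A₆ + 25 A₅` (`= 94`); * j=4: `39 A₀ S₄ = 25 A₆ + 94 A₅` (`= 403`);
* j=5: `S₁ A₅ = 39 A₀ + 94 A₆` (`= 775/3`); * j=6: `S₂ A₆ = 25 * 39 A₀`; * j=7: `39 A₃ S₇ = 94 * 39 A₀`.
So `num4 z n = z (n+4) * z n + R` with `0 ≤ R ≤ C` constant (the remaining bounded terms and `α`) and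
`z (n+4) * z n ≥ c * 39^k`; hence `0 ≤ log num4 - log z (n+4) - log z n ≤ R / (z (n+4) z n) ≤ C' 39^(-k)`.
Use `shadow` with `E n = K (16/25)^n`: `16/25 + (16/25)^4 < 81/100`, so it is enough that
`C' 39^(-k) ≤ (19/100) K (16/25)^n`, and `(16/25)^n ≥ (16/25)^7 ((16/25)^8)^k ≥ (16/25)^7 39^(-k)` because
`(16/25)^8 > 1/39`. The solution satisfies `x (8k) ≥ 39^k exp (-K)`, unbounded.
Finally `not_esb_of_solution` with `beta = ![1, 25, 94, 0]`, `A = 0`, `B = ![0, 0, 0, 1]`.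
(It is convenient to treat `α ∈ [0, 1]` as a parameter.)
-/

namespace Pool.Agent.H81.RDE

/-- the approximate solution, as a function of `39 ^ k` and `j` -/
noncomputable def eightV (P : ℝ) : ℕ → ℝ
  | 0 => P
  | 1 => 775 / 11
  | 2 => 2925 / 7
  | 3 => 31 / 3 * P
  | 4 => 31 / 3
  | 5 => 11 / 3 * P
  | 6 => 7 / 3 * P
  | _ => 282 / 31

noncomputable def eightZ (n : ℕ) : ℝ := eightV (39 ^ (n / 8)) (n % 8)

theorem eightV_pos {P : ℝ} (hP : 0 < P) (j : ℕ) : 0 < eightV P j := by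
  unfold eightV
  split <;> positivity

theorem eightZ_pos (n : ℕ) : 0 < eightZ n := eightV_pos (by positivity) _

theorem eightZ_eq (k j : ℕ) (hj : j < 8) : eightZ (8 * k + j) = eightV (39 ^ k) j := by
  unfold eightZ
  have h1 : (8 * k + j) / 8 = k := by omega
  have h2 : (8 * k + j) % 8 = j := by omega
  rw [h1, h2]

theorem eightZ_eq' (k j : ℕ) (hj : j < 8) :
    eightZ (8 * k + (j + 8)) = eightV (39 * 39 ^ k) j := by
  have h : 8 * k + (j + 8) = 8 * (k + 1) + j := by ring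
  rw [h, eightZ_eq (k + 1) j hj, pow_succ, mul_comm]

/-- the main terms agree -/
theorem eight_main (α : ℝ) (h0 : 0 ≤ α) (h1 : α ≤ 1) (n : ℕ) :
    ∃ R : ℝ, 0 ≤ R ∧ R ≤ 40000 ∧ num4 α 1 25 94 eightZ n = eightZ (n + 4) * eightZ n + R ∧
      10 * 39 ^ (n / 8) ≤ eightZ (n + 4) * eightZ n := by
  obtain ⟨k, j, hj, rfl⟩ : ∃ k j, j < 8 ∧ n = 8 * k + j :=
    ⟨n / 8, n % 8, Nat.mod_lt _ (by norm_num), by omega⟩
  have hk : (8 * k + j) / 8 = k := by omega
  rw [hk]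
  set P : ℝ := 39 ^ k with hP
  have hP1 : 1 ≤ P := one_le_pow₀ (by norm_num)
  unfold num4
  have e1 : 8 * k + j + 1 = 8 * k + (j + 1) := by ring
  have e2 : 8 * k + j + 2 = 8 * k + (j + 2) := by ring
  have e3 : 8 * k + j + 3 = 8 * k + (j + 3) := by ring
  have e4 : 8 * k + j + 4 = 8 * k + (j + 4) := by ring
  rw [e1, e2, e3, e4]
  have hz : ∀ i, i < 8 → eightZ (8 * k + i) = eightV P i := fun i hi => eightZ_eq k i hi
  have hz' : ∀ i, i < 8 → eightZ (8 * k + (i + 8)) = eightV (39 * P) i := fun i hi =>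
    eightZ_eq' k i hi
  interval_cases j
  · rw [hz 0 (by norm_num), hz 1 (by norm_num), hz 2 (by norm_num), hz 3 (by norm_num),
      hz 4 (by norm_num)]
    simp only [eightV]
    refine ⟨α + 25 * (2925 / 7) + 94 * (775 / 11), by positivity, by linarith, by ring, by linarith⟩
  · rw [hz 1 (by norm_num), hz 2 (by norm_num), hz 3 (by norm_num),
      hz 4 (by norm_num), hz 5 (by norm_num)]
    simp only [eightV]
    refine ⟨α + 31 / 3 + 94 * (2925 / 7), by positivity, by linarith, by ring, by linarith⟩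
  · rw [hz 2 (by norm_num), hz 3 (by norm_num), hz 4 (by norm_num), hz 5 (by norm_num),
      hz 6 (by norm_num)]
    simp only [eightV]
    refine ⟨α + 25 * (31 / 3), by positivity, by linarith, by ring, by linarith⟩
  · rw [hz 3 (by norm_num), hz 4 (by norm_num), hz 5 (by norm_num), hz 6 (by norm_num),
      hz 7 (by norm_num)]
    simp only [eightV]
    refine ⟨α + 94 * (31 / 3), by positivity, by linarith, by ring, by linarith⟩
  · rw [hz 4 (by norm_num), hz 5 (by norm_num), hz 6 (by norm_num),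
      hz 7 (by norm_num), hz' 0 (by norm_num)]
    simp only [eightV]
    refine ⟨α + 282 / 31, by positivity, by linarith, by ring, by linarith⟩
  · rw [hz 5 (by norm_num), hz 6 (by norm_num), hz 7 (by norm_num), hz' 0 (by norm_num),
      hz' 1 (by norm_num)]
    simp only [eightV]
    refine ⟨α + 25 * (282 / 31), by positivity, by linarith, by ring, by linarith⟩
  · rw [hz 6 (by norm_num), hz 7 (by norm_num), hz' 0 (by norm_num), hz' 1 (by norm_num),
      hz' 2 (by norm_num)]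
    simp only [eightV]
    refine ⟨α + 775 / 11 + 94 * (282 / 31), by positivity, by linarith, by ring, by linarith⟩
  · rw [hz 7 (by norm_num), hz' 0 (by norm_num), hz' 1 (by norm_num), hz' 2 (by norm_num),
      hz' 3 (by norm_num)]
    simp only [eightV]
    refine ⟨α + 2925 / 7 + 25 * (775 / 11), by positivity, by linarith, by ring, by linarith⟩

theorem eight_log (α : ℝ) (h0 : 0 ≤ α) (h1 : α ≤ 1) (n : ℕ) :
    |Real.log (num4 α 1 25 94 eightZ n) - Real.log (eightZ (n + 4)) - Real.log (eightZ n)| ≤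
      4000 / 39 ^ (n / 8) := by
  obtain ⟨R, hR0, hR1, hR, hlow⟩ := eight_main α h0 h1 n
  have hP : (0 : ℝ) < 39 ^ (n / 8) := by positivity
  have hz1 := eightZ_pos (n + 4)
  have hz2 := eightZ_pos n
  have hzz : 0 < eightZ (n + 4) * eightZ n := mul_pos hz1 hz2
  have e1 : Real.log (num4 α 1 25 94 eightZ n) - Real.log (eightZ (n + 4)) - Real.log (eightZ n) =
      Real.log (1 + R / (eightZ (n + 4) * eightZ n)) := by
    rw [sub_sub, ← Real.log_mul hz1.ne' hz2.ne', ← Real.log_div _ hzz.ne', hR, add_div,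
      div_self hzz.ne']
    rw [hR]
    positivity
  rw [e1]
  have hq : 0 ≤ R / (eightZ (n + 4) * eightZ n) := by positivity
  have h2 : 0 ≤ Real.log (1 + R / (eightZ (n + 4) * eightZ n)) := Real.log_nonneg (by linarith)
  rw [abs_of_nonneg h2]
  have h3 := Real.log_le_sub_one_of_pos (show 0 < 1 + R / (eightZ (n + 4) * eightZ n) by linarith)
  have h4 : R / (eightZ (n + 4) * eightZ n) ≤ 4000 / 39 ^ (n / 8) := by
    rw [div_le_div_iff₀ hzz hP]
    have h5 : R * 39 ^ (n / 8) ≤ 40000 * 39 ^ (n / 8) := mul_le_mul_of_nonneg_right hR1 hP.le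
    linarith
  linarith

theorem eight_bound (n : ℕ) : (4000 : ℝ) / 39 ^ (n / 8) + 1000000 * (16 / 25) ^ (n + 1) +
    1000000 * (16 / 25) ^ (n + 4) ≤ 1000000 * (16 / 25) ^ n := by
  have h1 : ((16 : ℝ) / 25) ^ 7 * (1 / 39) ^ (n / 8) ≤ (16 / 25) ^ n := by
    have h2 : ((16 : ℝ) / 25) ^ n = ((16 / 25) ^ 8) ^ (n / 8) * (16 / 25) ^ (n % 8) := by
      rw [← pow_mul, ← pow_add, Nat.div_add_mod]
    rw [h2, mul_comm]
    apply mul_le_mul
    · exact pow_le_pow_left₀ (by norm_num) (by norm_num) _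
    · exact pow_le_pow_of_le_one (by norm_num) (by norm_num) (by omega)
    · positivity
    · positivity
  have h3 : (4000 : ℝ) / 39 ^ (n / 8) = 4000 * (1 / 39) ^ (n / 8) := by
    rw [one_div, inv_pow]
    ring
  have h4 : (0 : ℝ) < (1 / 39) ^ (n / 8) := by positivity
  have h5 : ((16 : ℝ) / 25) ^ (n + 1) = (16 / 25) * (16 / 25) ^ n := by ring
  have h6 : ((16 : ℝ) / 25) ^ (n + 4) = (16 / 25) ^ 4 * (16 / 25) ^ n := by ring
  rw [h3, h5, h6]
  have h7 : (0 : ℝ) < (16 / 25) ^ n := by positivity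
  norm_num at h1 ⊢
  linarith

theorem eight_solution (α : ℝ) (h0 : 0 ≤ α) (h1 : α ≤ 1) :
    ∃ x : ℕ → ℝ, (∀ n, 0 < x n) ∧ (∀ n, x (n + 4) * x n = num4 α 1 25 94 x n) ∧
      ∀ M : ℝ, ∃ n, M < x n := by
  obtain ⟨x, hx1, hx2, hx3⟩ := shadow (z := eightZ) (E := fun n => 1000000 * (16 / 25) ^ n)
    (ε := fun n => 4000 / 39 ^ (n / 8)) h0 (β₁ := 1) (β₂ := 25) (β₃ := 94) (by norm_num)
    (by norm_num) (by norm_num) (by linarith) eightZ_pos (fun n => by positivity)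
    (fun m n h => by
      have := pow_le_pow_of_le_one (show (0 : ℝ) ≤ 16 / 25 by norm_num) (by norm_num) h
      simp only
      linarith)
    (eight_log α h0 h1) eight_bound
  refine ⟨x, hx1, hx2, fun M => ?_⟩
  have h2 : ∀ k : ℕ, (39 : ℝ) ^ k * Real.exp (-1000000) ≤ x (8 * k) := by
    intro k
    have h3 := (abs_le.1 (hx3 (8 * k))).1
    have h4 : eightZ (8 * k) = 39 ^ k := eightZ_eq k 0 (by norm_num)
    have h5 : ((16 : ℝ) / 25) ^ (8 * k) ≤ 1 := pow_le_one₀ (by norm_num) (by norm_num)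
    rw [h4] at h3
    have h6 : Real.log (39 ^ k) - 1000000 ≤ Real.log (x (8 * k)) := by linarith
    have h7 := Real.exp_le_exp.2 h6
    rw [Real.exp_log (hx1 _), sub_eq_add_neg, Real.exp_add, Real.exp_log (by positivity)] at h7
    exact h7
  have h3 : Filter.Tendsto (fun k : ℕ => (39 : ℝ) ^ k * Real.exp (-1000000)) Filter.atTop
      Filter.atTop :=
    (tendsto_pow_atTop_atTop_of_one_lt (by norm_num)).atTop_mul_const (Real.exp_pos _)
  obtain ⟨k, hk⟩ := (h3.eventually_gt_atTop M).exists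
  exact ⟨8 * k, hk.trans_le (h2 k)⟩

theorem eight_isSolution (α : ℝ) (x : ℕ → ℝ) (h1 : ∀ n, 0 < x n)
    (h2 : ∀ n, x (n + 4) * x n = num4 α 1 25 94 x n) :
    IsSolution (k := 4) ⟨α, ![1, 25, 94, 0], 0, ![0, 0, 0, 1]⟩ x := by
  refine ⟨fun n _ => (h1 n).le, fun n => ?_⟩
  have e1 : ∑ i : Fin 4, (![0, 0, 0, 1] : Fin 4 → ℝ) i * x (n + 4 - 1 - i) = x n := by
    rw [Fin.sum_univ_four]
    simp
  have e2 : ∑ i : Fin 4, (![1, 25, 94, 0] : Fin 4 → ℝ) i * x (n + 4 - 1 - i) =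
      x (n + 3) + 25 * x (n + 2) + 94 * x (n + 1) := by
    rw [Fin.sum_univ_four]
    simp
  simp only
  rw [e1, e2, zero_add]
  refine ⟨h1 n, ?_⟩
  rw [eq_div_iff (h1 n).ne', h2]
  unfold num4
  ring

theorem not_esb_14_16 : ¬ ESB (caseOf 4 14 16) := by
  obtain ⟨x, hx1, hx2, hx3⟩ := eight_solution 0 le_rfl zero_le_one
  refine not_esb_of_solution (S := caseOf 4 14 16) ⟨0, ![1, 25, 94, 0], 0, ![0, 0, 0, 1]⟩ ?_ x
    (eight_isSolution 0 x hx1 hx2) hx3
  refine ⟨by simp [caseOf, Sign], fun i => ?_, by simp [caseOf, Sign], fun i => ?_⟩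
  · fin_cases i <;> simp [caseOf, Sign, Nat.testBit]
  · fin_cases i <;> simp [caseOf, Sign, Nat.testBit]

theorem not_esb_15_16 : ¬ ESB (caseOf 4 15 16) := by
  obtain ⟨x, hx1, hx2, hx3⟩ := eight_solution 1 zero_le_one le_rfl
  refine not_esb_of_solution (S := caseOf 4 15 16) ⟨1, ![1, 25, 94, 0], 0, ![0, 0, 0, 1]⟩ ?_ x
    (eight_isSolution 1 x hx1 hx2) hx3
  refine ⟨by simp [caseOf, Sign], fun i => ?_, by simp [caseOf, Sign], fun i => ?_⟩
  · fin_cases i <;> simp [caseOf, Sign, Nat.testBit]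
  · fin_cases i <;> simp [caseOf, Sign, Nat.testBit]

end Pool.Agent.H81.RDE
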