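import Pool.Agent.H81.RDE.Shadow
import Pool.Agent.H81.RDE.Real

/-!
# [H81 RDE MONO] The special cases (10,16) and (11,16)

`x (n+4) * x n = β₁ x (n+3) + β₃ x (n+1)` with `β₁ = 1`, `β₃ = 2 ^ 364`, and
`x (n+4) * x n = α + β₁ x (n+3) + β₃ x (n+1)` with `α = β₁ = 1`, `β₃ = 2 ^ 1148`.

Let `p` be the length of the lists and `Y (p * k + j) = U_j + k * G_j` (`monoY`). For every `n = p k + j` one
of the terms `T₁ = Y (n+3)`, `T₃ = Y (n+1) + t` (and `T₀ = 0` in the second case), namely the one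
given by the list of the branches, equals `Y (n+4) + Y n`, and the other terms are smaller by at least `n + 5`.
(For fixed `j` all differences are affine functions of `k`, so this is a finite check: the affine
function `u + k g` is `≥ p k + j + 5` for all `k ≥ 0` iff `u ≥ j + 5` and `g ≥ p`; the identity holds iff it
holds for both coefficients. State this check as a `Bool` over `j < p` and prove it by `decide +kernel`.)
Then `z n = 2 ^ (Y n)` satisfies `num4 z n = z (n+4) * z n * (1 + δ)` with `0 ≤ δ ≤ 2 * 2 ^ (-(n+5))`, so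
`|log num4 - log z (n+4) - log z n| ≤ 2 ^ (-(n+4)) =: ε n`, and `shadow` applies with `E n = 2 ^ (-n)`:
`ε n + E (n+1) + E (n+4) = (1/16 + 1/2 + 1/16) 2 ^ (-n) ≤ E n`. The solution satisfies `x n ≥ z n / exp 1`, and
`Y` is unbounded above (some `G_j > 0`). Finally `not_esb_of_solution` with the parameters `beta = ![β₁, 0, β₃,
0]`, `A = 0`, `B = ![0, 0, 0, 1]`.
-/

namespace Pool.Agent.H81.RDE

def monoY (U G : List ℤ) (n : ℕ) : ℤ :=
  U.getD (n % U.length) 0 + (n / U.length : ℕ) * G.getD (n % U.length) 0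

def m10U : List ℤ := [10324, -5788, 12200, 5408, -4916, 18352, 6152, 744, 23632, 5280, -872,
  23252, -380, -5660, 24488, 1236, 1616, 30512, 6024, 4788, 29260, -1252, -872, 24836, -4424,
  744, 26072, 1236, 5660, 25692, -380, 4788, 20396, -5296, 5532, 15972, -4424, 11192, 10804,
  -5168, 15980, 4788, -6016, 21512, 5532, 744, 27892, 6380, 848, 27512, -380, -5168, 27028,
  -484, -104, 32560, 5532, 6016, 33028, 468, 848, 27376, -5652, 744, 26892, -484, 6760, 26512,
  -380, 7608, 20116, -6396, 8352]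

def m10G : List ℤ := [2548, -1456, 2912, 1352, -1196, 4368, 1456, 104, 5564, 1196, -260, 5460,
  -104, -1300, 5720, 260, 364, 7020, 1300, 1040, 6656, -364, -260, 5616, -1040, 104, 5876, 260,
  1300, 5772, -104, 1040, 4472, -1300, 1144, 3432, -1040, 2444, 2288, -1144, 3484, 1040, -1248,
  4628, 1144, 104, 5876, 1248, 104, 5772, -104, -1144, 5668, -104, 0, 6812, 1144, 1248, 6812, 0,
  104, 5564, -1248, 104, 5460, -104, 1352, 5356, -104, 1456, 4004, -1352, 1560]

/-- the branches -/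
def m10W : List ℕ := [1, 3, 1, 1, 3, 1, 1, 3, 1, 1, 3, 1, 1, 3, 1, 1, 3, 1, 3, 3, 1, 3, 3, 1, 1,
  3, 1, 3, 3, 1, 3, 3, 1, 3, 3, 1, 3, 1, 1, 3, 1, 1, 3, 1, 1, 3, 1, 3, 3, 1, 1, 3, 1, 1, 3, 1,
  3, 3, 1, 3, 3, 1, 3, 3, 1, 3, 3, 1, 3, 3, 1, 3, 1]

def t10 : ℤ := 364

def m11U : List ℤ := [36713, -11046, 22151, 20172, -16541, 34345, 12194, -7978, 52034, 17689,
  5495, 61160, 9126, -8563, 56813, -4347, -9126, 66524, 9711, 14058, 76798, 10274, 5495, 63888,
  -12910, -3631, 59541, -4347, 12910, 64320, 4779, 18405, 52558, -11762, 14774, 35301, -17257,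
  27684, 21675, -13626, 46089, 18405, -3270, 60863, 14774, -3631, 65281, 4418, -10356, 70060,
  4779, 361, 81564, 11504, 6725, 82351, 787, -3631, 76774, -5577, -787, 81553, 4779, 10356,
  83488, 1935, 6725, 74280, -9208, 5938, 68703, -5577, 16294, 63913, -4790, 23019]

def m11G : List ℤ := [12054, -4100, 6806, 6724, -5330, 10906, 4100, -2624, 16236, 5330, 1230,
  18860, 2624, -2706, 17630, -1230, -2624, 20336, 2706, 3936, 22960, 2624, 1230, 19024, -3936,
  -1394, 17794, -1230, 3936, 19188, 1394, 5166, 15252, -3936, 3772, 10086, -5166, 7708, 6314,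
  -3772, 12874, 5166, -1148, 16646, 3772, -1394, 17794, 1148, -2624, 19188, 1394, 246, 21812,
  2624, 1230, 21566, -246, -1394, 20336, -1230, 246, 21730, 1394, 2624, 21484, -246, 1230,
  18860, -2624, 1476, 17630, -1230, 4100, 16154, -1476, 5330]

/-- the branches -/
def m11W : List ℕ := [1, 3, 1, 1, 3, 1, 1, 3, 1, 1, 3, 1, 0, 3, 1, 1, 3, 1, 3, 3, 1, 3, 3, 1, 0,
  3, 1, 3, 3, 1, 3, 3, 1, 3, 3, 1, 3, 1, 1, 3, 1, 1, 3, 1, 1, 3, 1, 1, 3, 1, 1, 3, 1, 3, 3, 1,
  0, 3, 1, 1, 3, 1, 3, 3, 1, 3, 3, 1, 3, 3, 1, 3, 3, 1, 3, 3]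

def t11 : ℤ := 1148

/-- the affine function of `k` describing `monoY (p k + j)` -/
def aff (U G : List ℤ) (j : ℕ) : ℤ × ℤ :=
  (U.getD (j % U.length) 0 + (j / U.length : ℕ) * G.getD (j % U.length) 0, G.getD (j % U.length) 0)

theorem monoY_aff (U G : List ℤ) (hU : 0 < U.length) (k j : ℕ) :
    monoY U G (U.length * k + j) = (aff U G j).1 + k * (aff U G j).2 := by
  unfold monoY aff
  rw [Nat.mul_add_mod, Nat.mul_add_div hU]
  push_cast
  ring

/-- the affine function `a + k b` is at least `p k + j + 5` -/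
abbrev Good (a b : ℤ) (j p : ℕ) : Prop := (j : ℤ) + 5 ≤ a ∧ (p : ℤ) ≤ b

theorem Good.le {a b : ℤ} {j p : ℕ} (h : Good a b j p) (k : ℕ) :
    ((p * k + j : ℕ) : ℤ) + 5 ≤ a + k * b := by
  have h1 : (k : ℤ) * p ≤ k * b := mul_le_mul_of_nonneg_left h.2 (Int.natCast_nonneg k)
  have h2 := h.1
  push_cast
  linarith [mul_comm (k : ℤ) p]

theorem check10 : ∀ j < 73,
    ((aff m10U m10G (j + 3)).1 = (aff m10U m10G (j + 4)).1 + (aff m10U m10G j).1 ∧
      (aff m10U m10G (j + 3)).2 = (aff m10U m10G (j + 4)).2 + (aff m10U m10G j).2 ∧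
      Good ((aff m10U m10G (j + 3)).1 - ((aff m10U m10G (j + 1)).1 + t10))
        ((aff m10U m10G (j + 3)).2 - (aff m10U m10G (j + 1)).2) j 73) ∨
    ((aff m10U m10G (j + 1)).1 + t10 = (aff m10U m10G (j + 4)).1 + (aff m10U m10G j).1 ∧
      (aff m10U m10G (j + 1)).2 = (aff m10U m10G (j + 4)).2 + (aff m10U m10G j).2 ∧
      Good (((aff m10U m10G (j + 1)).1 + t10) - (aff m10U m10G (j + 3)).1)
        ((aff m10U m10G (j + 1)).2 - (aff m10U m10G (j + 3)).2) j 73) := by
  decide +kernel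

theorem check11 : ∀ j < 76,
    ((aff m11U m11G (j + 3)).1 = (aff m11U m11G (j + 4)).1 + (aff m11U m11G j).1 ∧
      (aff m11U m11G (j + 3)).2 = (aff m11U m11G (j + 4)).2 + (aff m11U m11G j).2 ∧
      Good ((aff m11U m11G (j + 3)).1 - ((aff m11U m11G (j + 1)).1 + t11))
        ((aff m11U m11G (j + 3)).2 - (aff m11U m11G (j + 1)).2) j 76 ∧
      Good (aff m11U m11G (j + 3)).1 (aff m11U m11G (j + 3)).2 j 76) ∨
    ((aff m11U m11G (j + 1)).1 + t11 = (aff m11U m11G (j + 4)).1 + (aff m11U m11G j).1 ∧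
      (aff m11U m11G (j + 1)).2 = (aff m11U m11G (j + 4)).2 + (aff m11U m11G j).2 ∧
      Good (((aff m11U m11G (j + 1)).1 + t11) - (aff m11U m11G (j + 3)).1)
        ((aff m11U m11G (j + 1)).2 - (aff m11U m11G (j + 3)).2) j 76 ∧
      Good ((aff m11U m11G (j + 1)).1 + t11) (aff m11U m11G (j + 1)).2 j 76) ∨
    (0 = (aff m11U m11G (j + 4)).1 + (aff m11U m11G j).1 ∧
      0 = (aff m11U m11G (j + 4)).2 + (aff m11U m11G j).2 ∧
      Good (0 - (aff m11U m11G (j + 3)).1) (0 - (aff m11U m11G (j + 3)).2) j 76 ∧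
      Good (0 - ((aff m11U m11G (j + 1)).1 + t11)) (0 - (aff m11U m11G (j + 1)).2) j 76) := by
  decide +kernel

theorem rec10 (n : ℕ) :
    (monoY m10U m10G (n + 3) = monoY m10U m10G (n + 4) + monoY m10U m10G n ∧
      monoY m10U m10G (n + 1) + t10 + n + 5 ≤ monoY m10U m10G (n + 4) + monoY m10U m10G n) ∨
    (monoY m10U m10G (n + 1) + t10 = monoY m10U m10G (n + 4) + monoY m10U m10G n ∧
      monoY m10U m10G (n + 3) + n + 5 ≤ monoY m10U m10G (n + 4) + monoY m10U m10G n) := by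
  obtain ⟨k, j, hj, rfl⟩ : ∃ k j : ℕ, j < 73 ∧ n = 73 * k + j :=
    ⟨n / 73, n % 73, Nat.mod_lt _ (by norm_num), (Nat.div_add_mod n 73).symm⟩
  have hL : m10U.length = 73 := rfl
  have key : ∀ i, monoY m10U m10G (73 * k + j + i) =
      (aff m10U m10G (j + i)).1 + k * (aff m10U m10G (j + i)).2 := by
    intro i
    have := monoY_aff m10U m10G (by rw [hL]; norm_num) k (j + i)
    rw [hL] at this
    rw [← this, add_assoc]
  have k0 := key 0
  rw [add_zero, add_zero] at k0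
  rw [k0, key 1, key 3, key 4]
  rcases check10 j hj with ⟨h1, h2, h3⟩ | ⟨h1, h2, h3⟩
  · left
    have h4 := h3.le k
    refine ⟨by rw [h1, h2]; ring, ?_⟩
    have e : (aff m10U m10G (j + 4)).1 + ↑k * (aff m10U m10G (j + 4)).2 +
        ((aff m10U m10G j).1 + ↑k * (aff m10U m10G j).2) =
        (aff m10U m10G (j + 3)).1 + ↑k * (aff m10U m10G (j + 3)).2 := by rw [h1, h2]; ring
    rw [e]
    linarith [mul_sub (k : ℤ) (aff m10U m10G (j + 3)).2 (aff m10U m10G (j + 1)).2]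
  · right
    have h4 := h3.le k
    have e : (aff m10U m10G (j + 4)).1 + ↑k * (aff m10U m10G (j + 4)).2 +
        ((aff m10U m10G j).1 + ↑k * (aff m10U m10G j).2) =
        (aff m10U m10G (j + 1)).1 + t10 + ↑k * (aff m10U m10G (j + 1)).2 := by rw [h1, h2]; ring
    rw [e]
    refine ⟨by ring, ?_⟩
    linarith [mul_sub (k : ℤ) (aff m10U m10G (j + 1)).2 (aff m10U m10G (j + 3)).2]

theorem rec11 (n : ℕ) :
    (monoY m11U m11G (n + 3) = monoY m11U m11G (n + 4) + monoY m11U m11G n ∧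
      monoY m11U m11G (n + 1) + t11 + n + 5 ≤ monoY m11U m11G (n + 4) + monoY m11U m11G n ∧
      (n : ℤ) + 5 ≤ monoY m11U m11G (n + 4) + monoY m11U m11G n) ∨
    (monoY m11U m11G (n + 1) + t11 = monoY m11U m11G (n + 4) + monoY m11U m11G n ∧
      monoY m11U m11G (n + 3) + n + 5 ≤ monoY m11U m11G (n + 4) + monoY m11U m11G n ∧
      (n : ℤ) + 5 ≤ monoY m11U m11G (n + 4) + monoY m11U m11G n) ∨
    (0 = monoY m11U m11G (n + 4) + monoY m11U m11G n ∧
      monoY m11U m11G (n + 3) + n + 5 ≤ monoY m11U m11G (n + 4) + monoY m11U m11G n ∧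
      monoY m11U m11G (n + 1) + t11 + n + 5 ≤ monoY m11U m11G (n + 4) + monoY m11U m11G n) := by
  obtain ⟨k, j, hj, rfl⟩ : ∃ k j : ℕ, j < 76 ∧ n = 76 * k + j :=
    ⟨n / 76, n % 76, Nat.mod_lt _ (by norm_num), (Nat.div_add_mod n 76).symm⟩
  have hL : m11U.length = 76 := rfl
  have key : ∀ i, monoY m11U m11G (76 * k + j + i) =
      (aff m11U m11G (j + i)).1 + k * (aff m11U m11G (j + i)).2 := by
    intro i
    have := monoY_aff m11U m11G (by rw [hL]; norm_num) k (j + i)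
    rw [hL] at this
    rw [← this, add_assoc]
  have k0 := key 0
  rw [add_zero, add_zero] at k0
  rw [k0, key 1, key 3, key 4]
  rcases check11 j hj with ⟨h1, h2, h3, h3'⟩ | ⟨h1, h2, h3, h3'⟩ | ⟨h1, h2, h3, h3'⟩
  · left
    have h4 := h3.le k
    have h5 := h3'.le k
    have e : (aff m11U m11G (j + 4)).1 + ↑k * (aff m11U m11G (j + 4)).2 +
        ((aff m11U m11G j).1 + ↑k * (aff m11U m11G j).2) =
        (aff m11U m11G (j + 3)).1 + ↑k * (aff m11U m11G (j + 3)).2 := by rw [h1, h2]; ring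
    rw [e]
    refine ⟨rfl, ?_, h5⟩
    linarith [mul_sub (k : ℤ) (aff m11U m11G (j + 3)).2 (aff m11U m11G (j + 1)).2]
  · right; left
    have h4 := h3.le k
    have h5 := h3'.le k
    have e : (aff m11U m11G (j + 4)).1 + ↑k * (aff m11U m11G (j + 4)).2 +
        ((aff m11U m11G j).1 + ↑k * (aff m11U m11G j).2) =
        (aff m11U m11G (j + 1)).1 + t11 + ↑k * (aff m11U m11G (j + 1)).2 := by rw [h1, h2]; ring
    rw [e]
    refine ⟨by ring, ?_, h5⟩
    linarith [mul_sub (k : ℤ) (aff m11U m11G (j + 1)).2 (aff m11U m11G (j + 3)).2]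
  · right; right
    have h4 := h3.le k
    have h5 := h3'.le k
    have e : (aff m11U m11G (j + 4)).1 + ↑k * (aff m11U m11G (j + 4)).2 +
        ((aff m11U m11G j).1 + ↑k * (aff m11U m11G j).2) = 0 := by
      have : (aff m11U m11G (j + 4)).1 + ↑k * (aff m11U m11G (j + 4)).2 +
        ((aff m11U m11G j).1 + ↑k * (aff m11U m11G j).2) =
        ((aff m11U m11G (j + 4)).1 + (aff m11U m11G j).1) +
          k * ((aff m11U m11G (j + 4)).2 + (aff m11U m11G j).2) := by ring
      rw [this, ← h1, ← h2]; ring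
    rw [e]
    refine ⟨rfl, ?_, ?_⟩
    · linarith [mul_sub (k : ℤ) 0 (aff m11U m11G (j + 3)).2]
    · linarith [mul_sub (k : ℤ) 0 (aff m11U m11G (j + 1)).2]

/-- a sum close to a power of two -/
theorem abs_log_le {S m : ℝ} (hm : 0 < m) (n : ℕ) (h1 : m ≤ S) (h2 : S ≤ m * (1 + 2 * (1 / 2) ^ (n + 5))) :
    |Real.log S - Real.log m| ≤ (1 / 2 : ℝ) ^ (n + 4) := by
  have hS : 0 < S := lt_of_lt_of_le hm h1
  have h3 : Real.log m ≤ Real.log S := Real.log_le_log hm h1
  rw [abs_of_nonneg (by linarith)]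
  have h4 : Real.log S ≤ Real.log m + Real.log (1 + 2 * (1 / 2) ^ (n + 5)) := by
    rw [← Real.log_mul (by positivity) (by positivity)]
    exact Real.log_le_log hS h2
  have h5 : Real.log (1 + 2 * (1 / 2 : ℝ) ^ (n + 5)) ≤ 2 * (1 / 2) ^ (n + 5) := by
    have := Real.log_le_sub_one_of_pos (x := 1 + 2 * (1 / 2 : ℝ) ^ (n + 5)) (by positivity)
    linarith
  have h6 : 2 * (1 / 2 : ℝ) ^ (n + 5) = (1 / 2) ^ (n + 4) := by
    rw [pow_succ]; ring
  linarith

theorem zpow_small {a M : ℤ} {n : ℕ} (h : a + n + 5 ≤ M) :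
    (2 : ℝ) ^ a ≤ 2 ^ M * (1 / 2) ^ (n + 5) := by
  have : (1 / 2 : ℝ) ^ (n + 5) = (2 : ℝ) ^ (-((n + 5 : ℕ) : ℤ)) := by
    rw [zpow_neg, zpow_natCast, one_div, inv_pow]
  rw [this, ← zpow_add₀ (by norm_num)]
  apply zpow_le_zpow_right₀ (by norm_num)
  push_cast
  linarith

theorem solution_of {α β₁ β₂ β₃ : ℝ} (hα : 0 ≤ α) (h₁ : 0 ≤ β₁) (h₂ : 0 ≤ β₂) (h₃ : 0 ≤ β₃)
    (hpos : 0 < α + β₁ + β₂ + β₃) (Y : ℕ → ℤ)
    (h : ∀ n, |Real.log (num4 α β₁ β₂ β₃ (fun n => (2 : ℝ) ^ Y n) n) -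
      Real.log ((2 : ℝ) ^ (Y (n + 4) + Y n))| ≤ (1 / 2 : ℝ) ^ (n + 4))
    {p : ℕ} (hY : ∀ k : ℕ, (k : ℤ) ≤ Y (p * k)) :
    ∃ x : ℕ → ℝ, IsSolution (k := 4) ⟨α, ![β₁, β₂, β₃, 0], 0, ![0, 0, 0, 1]⟩ x ∧
      ∀ M : ℝ, ∃ n, M < x n := by
  obtain ⟨x, hx0, hx1, hx2⟩ := shadow hα h₁ h₂ h₃ hpos (z := fun n => (2 : ℝ) ^ Y n)
    (E := fun n => (1 / 2 : ℝ) ^ n) (ε := fun n => (1 / 2 : ℝ) ^ (n + 4))
    (fun n => by positivity) (fun n => by positivity)
    (fun a b hab => pow_le_pow_of_le_one (by norm_num) (by norm_num) hab)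
    (fun n => by
      have := h n
      rw [zpow_add₀ (by norm_num), Real.log_mul (by positivity) (by positivity)] at this
      rw [sub_sub]
      exact this)
    (fun n => by
      have h0 : (0 : ℝ) < (1 / 2) ^ n := by positivity
      have e1 : (1 / 2 : ℝ) ^ (n + 4) = (1 / 2) ^ n * (1 / 16) := by rw [pow_add]; norm_num
      have e2 : (1 / 2 : ℝ) ^ (n + 1) = (1 / 2) ^ n * (1 / 2) := by rw [pow_add]; norm_num
      rw [e1, e2]
      nlinarith)
  refine ⟨x, ⟨fun n _ => (hx0 n).le, fun n => ?_⟩, fun M => ?_⟩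
  · have e := hx1 n
    unfold num4 at e
    have s1 : (∑ i : Fin 4, (![0, 0, 0, 1] : Fin 4 → ℝ) i * x (n + 4 - 1 - i)) = x n := by
      simp [Fin.sum_univ_four]
    have s2 : (∑ i : Fin 4, (![β₁, β₂, β₃, 0] : Fin 4 → ℝ) i * x (n + 4 - 1 - i)) =
        β₁ * x (n + 3) + β₂ * x (n + 2) + β₃ * x (n + 1) := by
      simp [Fin.sum_univ_four]
    simp only [s1, s2, zero_add]
    refine ⟨hx0 n, ?_⟩
    rw [eq_div_iff (hx0 n).ne', e]
    ring
  · obtain ⟨k, hk⟩ := exists_nat_gt (3 * |M|)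
    refine ⟨p * k, ?_⟩
    have h1 := hx2 (p * k)
    have h2 : (1 / 2 : ℝ) ^ (p * k) ≤ 1 := pow_le_one₀ (by norm_num) (by norm_num)
    have h3 : Real.log ((2 : ℝ) ^ Y (p * k)) - 1 ≤ Real.log (x (p * k)) := by
      have := (abs_le.1 h1).1
      linarith
    have h4 : Real.exp (Real.log ((2 : ℝ) ^ Y (p * k)) - 1) ≤ x (p * k) := by
      rw [← Real.exp_log (hx0 (p * k))]
      exact Real.exp_le_exp.2 h3
    rw [Real.exp_sub, Real.exp_log (by positivity)] at h4
    have h5 : (2 : ℝ) ^ k ≤ (2 : ℝ) ^ Y (p * k) := by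
      rw [← zpow_natCast]
      exact zpow_le_zpow_right₀ (by norm_num) (hY k)
    have h6 : (k : ℝ) < 2 ^ k := by exact_mod_cast Nat.lt_two_pow_self
    have h7 : Real.exp 1 < 3 := Real.exp_one_lt_three
    have h8 : (k : ℝ) / 3 < (2 : ℝ) ^ Y (p * k) / Real.exp 1 := by
      rw [div_lt_div_iff₀ (by norm_num) (Real.exp_pos 1)]
      have h9 : (k : ℝ) < (2 : ℝ) ^ Y (p * k) := lt_of_lt_of_le h6 h5
      have h10 : (0 : ℝ) ≤ k := Nat.cast_nonneg k
      nlinarith [Real.exp_pos 1]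
    have h9 : |M| < k / 3 := by linarith
    linarith [le_abs_self M]

theorem not_esb_10_16 : ¬ ESB (caseOf 4 10 16) := by
  obtain ⟨x, hx, hu⟩ := solution_of (α := 0) (β₁ := 1) (β₂ := 0) (β₃ := (2 : ℝ) ^ t10) le_rfl zero_le_one
    le_rfl (by positivity) (by positivity) (monoY m10U m10G) (fun n => by
      have hp : ∀ a : ℤ, (0 : ℝ) < 2 ^ a := fun a => by positivity
      apply abs_log_le (hp _)
      · unfold num4
        have e : (2 : ℝ) ^ t10 * 2 ^ monoY m10U m10G (n + 1) = 2 ^ (monoY m10U m10G (n + 1) + t10) := by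
          rw [zpow_add₀ (by norm_num), mul_comm]
        simp only [e, zero_mul, one_mul, zero_add, add_zero]
        rcases rec10 n with ⟨h1, h2⟩ | ⟨h1, h2⟩
        · rw [h1]; linarith [hp (monoY m10U m10G (n + 1) + t10)]
        · rw [h1]; linarith [hp (monoY m10U m10G (n + 3))]
      · unfold num4
        have e : (2 : ℝ) ^ t10 * 2 ^ monoY m10U m10G (n + 1) = 2 ^ (monoY m10U m10G (n + 1) + t10) := by
          rw [zpow_add₀ (by norm_num), mul_comm]
        simp only [e, zero_mul, one_mul, zero_add, add_zero]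
        have h0 : (0 : ℝ) < 2 ^ (monoY m10U m10G (n + 4) + monoY m10U m10G n) * (1 / 2) ^ (n + 5) := by
          positivity
        rcases rec10 n with ⟨h1, h2⟩ | ⟨h1, h2⟩
        · rw [h1]; linarith [zpow_small h2]
        · rw [h1]; linarith [zpow_small h2])
    (p := 73) (fun k => by
      have := monoY_aff m10U m10G (by decide) k 0
      have hL : m10U.length = 73 := rfl
      rw [hL, add_zero] at this
      rw [this]
      have e : aff m10U m10G 0 = (10324, 2548) := by decide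
      rw [e]
      simp only
      have : (0 : ℤ) ≤ k := Int.natCast_nonneg k
      linarith)
  refine not_esb_of_solution _ ⟨?_, ?_, ?_, ?_⟩ x hx hu
  · simp [caseOf, Sign]
  · intro i
    fin_cases i <;> simp [caseOf, Sign, Nat.testBit, zpow_pos]
  · simp [caseOf, Sign]
  · intro i
    fin_cases i <;> simp [caseOf, Sign, Nat.testBit]

theorem not_esb_11_16 : ¬ ESB (caseOf 4 11 16) := by
  obtain ⟨x, hx, hu⟩ := solution_of (α := 1) (β₁ := 1) (β₂ := 0) (β₃ := (2 : ℝ) ^ t11) zero_le_one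
    zero_le_one le_rfl (by positivity) (by positivity) (monoY m11U m11G) (fun n => by
      have hp : ∀ a : ℤ, (0 : ℝ) < 2 ^ a := fun a => by positivity
      apply abs_log_le (hp _)
      · unfold num4
        have e : (2 : ℝ) ^ t11 * 2 ^ monoY m11U m11G (n + 1) = 2 ^ (monoY m11U m11G (n + 1) + t11) := by
          rw [zpow_add₀ (by norm_num), mul_comm]
        simp only [e, zero_mul, one_mul, add_zero]
        rcases rec11 n with ⟨h1, h2, h3⟩ | ⟨h1, h2, h3⟩ | ⟨h1, h2, h3⟩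
        · rw [h1]; linarith [hp (monoY m11U m11G (n + 1) + t11)]
        · rw [h1]; linarith [hp (monoY m11U m11G (n + 3))]
        · rw [← h1, zpow_zero]; linarith [hp (monoY m11U m11G (n + 1) + t11),
            hp (monoY m11U m11G (n + 3))]
      · unfold num4
        have e : (2 : ℝ) ^ t11 * 2 ^ monoY m11U m11G (n + 1) = 2 ^ (monoY m11U m11G (n + 1) + t11) := by
          rw [zpow_add₀ (by norm_num), mul_comm]
        simp only [e, zero_mul, one_mul, add_zero]
        rcases rec11 n with ⟨h1, h2, h3⟩ | ⟨h1, h2, h3⟩ | ⟨h1, h2, h3⟩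
        · have h4 := zpow_small (a := 0) (n := n)
            (M := monoY m11U m11G (n + 4) + monoY m11U m11G n) (by rw [zero_add]; exact h3)
          rw [zpow_zero] at h4
          rw [h1]; linarith [zpow_small h2]
        · have h4 := zpow_small (a := 0) (n := n)
            (M := monoY m11U m11G (n + 4) + monoY m11U m11G n) (by rw [zero_add]; exact h3)
          rw [zpow_zero] at h4
          rw [h1]; linarith [zpow_small h2]
        · have h4 := zpow_small h2
          have h5 := zpow_small h3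
          rw [← h1] at h4 h5 ⊢
          rw [zpow_zero] at h4 h5 ⊢
          linarith)
    (p := 76) (fun k => by
      have := monoY_aff m11U m11G (by decide) k 0
      have hL : m11U.length = 76 := rfl
      rw [hL, add_zero] at this
      rw [this]
      have e : aff m11U m11G 0 = (36713, 12054) := by decide
      rw [e]
      simp only
      have : (0 : ℤ) ≤ k := Int.natCast_nonneg k
      linarith)
  refine not_esb_of_solution _ ⟨?_, ?_, ?_, ?_⟩ x hx hu
  · simp [caseOf, Sign]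
  · intro i
    fin_cases i <;> simp [caseOf, Sign, Nat.testBit, zpow_pos]
  · simp [caseOf, Sign]
  · intro i
    fin_cases i <;> simp [caseOf, Sign, Nat.testBit]

end Pool.Agent.H81.RDE
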