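import Pool.Agent.H81.RDE.SysCase
import Pool.Agent.H81.RDE.Triv
import Pool.Agent.H81.RDE.Mono
import Pool.Agent.H81.RDE.Eight
import Pool.Agent.H81.RDE.Data.D00
import Pool.Agent.H81.RDE.Data.D01
import Pool.Agent.H81.RDE.Data.D02
import Pool.Agent.H81.RDE.Data.D03
import Pool.Agent.H81.RDE.Data.D04
import Pool.Agent.H81.RDE.Data.D05
import Pool.Agent.H81.RDE.Data.D06
import Pool.Agent.H81.RDE.Data.D07
import Pool.Agent.H81.RDE.Data.D08
import Pool.Agent.H81.RDE.Data.D09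
import Pool.Agent.H81.RDE.Data.D10
import Pool.Agent.H81.RDE.Data.D11
import Pool.Agent.H81.RDE.Data.D12
import Pool.Agent.H81.RDE.Data.D13
import Pool.Agent.H81.RDE.Data.D14
import Pool.Agent.H81.RDE.Data.D15
import Pool.Agent.H81.RDE.Data.D16
import Pool.Agent.H81.RDE.Data.D17
import Pool.Agent.H81.RDE.Data.D18
import Pool.Agent.H81.RDE.Data.D19
import Pool.Agent.H81.RDE.Data.D20
import Pool.Agent.H81.RDE.Data.D21
import Pool.Agent.H81.RDE.Data.D22
import Pool.Agent.H81.RDE.Data.D23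

/-! # The 417 special cases of order four with unbounded solutions (generated) -/

set_option maxRecDepth 10000

namespace Pool.Agent.H81.RDE

open Data

theorem c25_4 : ¬ ESB (caseOf 4 25 4) :=
  not_esb_of_sys s25_4_ok (by decide) (by decide) (by decide) (by decide)

def chunk00 : List (ℕ × ℕ) := [(25, 4)]

theorem chunk00_ok : ∀ p ∈ chunk00, ¬ ESB (caseOf 4 p.1 p.2) :=
  List.forall_mem_cons.2 ⟨c25_4, List.forall_mem_nil _⟩

theorem c2_20 : ¬ ESB (caseOf 4 2 20) :=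
  not_esb_of_sys s2_20_ok (by decide) (by decide) (by decide) (by decide)

theorem c7_24 : ¬ ESB (caseOf 4 7 24) :=
  not_esb_of_sys s7_24_ok (by decide) (by decide) (by decide) (by decide)

theorem c8_1 : ¬ ESB (caseOf 4 8 1) :=
  not_esb_of_sys s8_1_ok (by decide) (by decide) (by decide) (by decide)

theorem c8_20 : ¬ ESB (caseOf 4 8 20) :=
  not_esb_of_sys s8_20_ok (by decide) (by decide) (by decide) (by decide)

theorem c12_10 : ¬ ESB (caseOf 4 12 10) :=
  not_esb_of_sys s12_10_ok (by decide) (by decide) (by decide) (by decide)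

theorem c13_20 : ¬ ESB (caseOf 4 13 20) :=
  not_esb_of_sys s13_20_ok (by decide) (by decide) (by decide) (by decide)

theorem c15_21 : ¬ ESB (caseOf 4 15 21) :=
  not_esb_of_sys s15_21_ok (by decide) (by decide) (by decide) (by decide)

theorem c19_2 : ¬ ESB (caseOf 4 19 2) :=
  not_esb_of_sys s19_2_ok (by decide) (by decide) (by decide) (by decide)

theorem c19_3 : ¬ ESB (caseOf 4 19 3) :=
  not_esb_of_sys s19_3_ok (by decide) (by decide) (by decide) (by decide)

theorem c20_7 : ¬ ESB (caseOf 4 20 7) :=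
  not_esb_of_sys s20_7_ok (by decide) (by decide) (by decide) (by decide)

theorem c20_11 : ¬ ESB (caseOf 4 20 11) :=
  not_esb_of_sys s20_11_ok (by decide) (by decide) (by decide) (by decide)

theorem c21_1 : ¬ ESB (caseOf 4 21 1) :=
  not_esb_of_sys s21_1_ok (by decide) (by decide) (by decide) (by decide)

theorem c24_12 : ¬ ESB (caseOf 4 24 12) :=
  not_esb_of_sys s24_12_ok (by decide) (by decide) (by decide) (by decide)

theorem c24_21 : ¬ ESB (caseOf 4 24 21) :=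
  not_esb_of_sys s24_21_ok (by decide) (by decide) (by decide) (by decide)

theorem c26_6 : ¬ ESB (caseOf 4 26 6) :=
  not_esb_of_sys s26_6_ok (by decide) (by decide) (by decide) (by decide)

theorem c30_15 : ¬ ESB (caseOf 4 30 15) :=
  not_esb_of_sys s30_15_ok (by decide) (by decide) (by decide) (by decide)

def chunk01 : List (ℕ × ℕ) := [(2, 20), (7, 24), (8, 1), (8, 20), (12, 10), (13, 20), (15, 21),
  (19, 2), (19, 3), (20, 7), (20, 11), (21, 1), (24, 12), (24, 21), (26, 6), (30, 15)]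

theorem chunk01_ok : ∀ p ∈ chunk01, ¬ ESB (caseOf 4 p.1 p.2) :=
  List.forall_mem_cons.2 ⟨c2_20, List.forall_mem_cons.2 ⟨c7_24, List.forall_mem_cons.2 ⟨c8_1,
  List.forall_mem_cons.2 ⟨c8_20, List.forall_mem_cons.2 ⟨c12_10, List.forall_mem_cons.2 ⟨c13_20,
  List.forall_mem_cons.2 ⟨c15_21, List.forall_mem_cons.2 ⟨c19_2, List.forall_mem_cons.2 ⟨c19_3,
  List.forall_mem_cons.2 ⟨c20_7, List.forall_mem_cons.2 ⟨c20_11, List.forall_mem_cons.2 ⟨c21_1,
  List.forall_mem_cons.2 ⟨c24_12, List.forall_mem_cons.2 ⟨c24_21, List.forall_mem_cons.2 ⟨c26_6,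
  List.forall_mem_cons.2 ⟨c30_15, List.forall_mem_nil _⟩⟩⟩⟩⟩⟩⟩⟩⟩⟩⟩⟩⟩⟩⟩⟩

theorem c10_23 : ¬ ESB (caseOf 4 10 23) :=
  not_esb_of_sys s10_23_ok (by decide) (by decide) (by decide) (by decide)

theorem c11_6 : ¬ ESB (caseOf 4 11 6) :=
  not_esb_of_sys s11_6_ok (by decide) (by decide) (by decide) (by decide)

theorem c13_2 : ¬ ESB (caseOf 4 13 2) :=
  not_esb_of_sys s13_2_ok (by decide) (by decide) (by decide) (by decide)

theorem c15_7 : ¬ ESB (caseOf 4 15 7) :=
  not_esb_of_sys s15_7_ok (by decide) (by decide) (by decide) (by decide)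

theorem c16_1 : ¬ ESB (caseOf 4 16 1) :=
  not_esb_of_sys s16_1_ok (by decide) (by decide) (by decide) (by decide)

theorem c18_4 : ¬ ESB (caseOf 4 18 4) :=
  not_esb_of_sys s18_4_ok (by decide) (by decide) (by decide) (by decide)

theorem c19_11 : ¬ ESB (caseOf 4 19 11) :=
  not_esb_of_sys s19_11_ok (by decide) (by decide) (by decide) (by decide)

theorem c20_2 : ¬ ESB (caseOf 4 20 2) :=
  not_esb_of_sys s20_2_ok (by decide) (by decide) (by decide) (by decide)

theorem c20_3 : ¬ ESB (caseOf 4 20 3) :=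
  not_esb_of_sys s20_3_ok (by decide) (by decide) (by decide) (by decide)

theorem c22_15 : ¬ ESB (caseOf 4 22 15) :=
  not_esb_of_sys s22_15_ok (by decide) (by decide) (by decide) (by decide)

theorem c24_7 : ¬ ESB (caseOf 4 24 7) :=
  not_esb_of_sys s24_7_ok (by decide) (by decide) (by decide) (by decide)

theorem c25_5 : ¬ ESB (caseOf 4 25 5) :=
  not_esb_of_sys s25_5_ok (by decide) (by decide) (by decide) (by decide)

theorem c26_7 : ¬ ESB (caseOf 4 26 7) :=
  not_esb_of_sys s26_7_ok (by decide) (by decide) (by decide) (by decide)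

theorem c30_1 : ¬ ESB (caseOf 4 30 1) :=
  not_esb_of_sys s30_1_ok (by decide) (by decide) (by decide) (by decide)

theorem c30_9 : ¬ ESB (caseOf 4 30 9) :=
  not_esb_of_sys s30_9_ok (by decide) (by decide) (by decide) (by decide)

theorem c31_20 : ¬ ESB (caseOf 4 31 20) :=
  not_esb_of_sys s31_20_ok (by decide) (by decide) (by decide) (by decide)

def chunk02 : List (ℕ × ℕ) := [(10, 23), (11, 6), (13, 2), (15, 7), (16, 1), (18, 4), (19, 11),
  (20, 2), (20, 3), (22, 15), (24, 7), (25, 5), (26, 7), (30, 1), (30, 9), (31, 20)]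

theorem chunk02_ok : ∀ p ∈ chunk02, ¬ ESB (caseOf 4 p.1 p.2) :=
  List.forall_mem_cons.2 ⟨c10_23, List.forall_mem_cons.2 ⟨c11_6, List.forall_mem_cons.2 ⟨c13_2,
  List.forall_mem_cons.2 ⟨c15_7, List.forall_mem_cons.2 ⟨c16_1, List.forall_mem_cons.2 ⟨c18_4,
  List.forall_mem_cons.2 ⟨c19_11, List.forall_mem_cons.2 ⟨c20_2, List.forall_mem_cons.2 ⟨c20_3,
  List.forall_mem_cons.2 ⟨c22_15, List.forall_mem_cons.2 ⟨c24_7, List.forall_mem_cons.2 ⟨c25_5,
  List.forall_mem_cons.2 ⟨c26_7, List.forall_mem_cons.2 ⟨c30_1, List.forall_mem_cons.2 ⟨c30_9,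
  List.forall_mem_cons.2 ⟨c31_20, List.forall_mem_nil _⟩⟩⟩⟩⟩⟩⟩⟩⟩⟩⟩⟩⟩⟩⟩⟩

theorem c3_1 : ¬ ESB (caseOf 4 3 1) :=
  not_esb_of_sys s3_1_ok (by decide) (by decide) (by decide) (by decide)

theorem c9_1 : ¬ ESB (caseOf 4 9 1) :=
  not_esb_of_sys s9_1_ok (by decide) (by decide) (by decide) (by decide)

theorem c10_6 : ¬ ESB (caseOf 4 10 6) :=
  not_esb_of_sys s10_6_ok (by decide) (by decide) (by decide) (by decide)

theorem c14_22 : ¬ ESB (caseOf 4 14 22) :=
  not_esb_of_sys s14_22_ok (by decide) (by decide) (by decide) (by decide)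

theorem c15_3 : ¬ ESB (caseOf 4 15 3) :=
  not_esb_of_sys s15_3_ok (by decide) (by decide) (by decide) (by decide)

theorem c20_9 : ¬ ESB (caseOf 4 20 9) :=
  not_esb_of_sys s20_9_ok (by decide) (by decide) (by decide) (by decide)

theorem c21_7 : ¬ ESB (caseOf 4 21 7) :=
  not_esb_of_sys s21_7_ok (by decide) (by decide) (by decide) (by decide)

theorem c21_14 : ¬ ESB (caseOf 4 21 14) :=
  not_esb_of_sys s21_14_ok (by decide) (by decide) (by decide) (by decide)

theorem c22_3 : ¬ ESB (caseOf 4 22 3) :=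
  not_esb_of_sys s22_3_ok (by decide) (by decide) (by decide) (by decide)

theorem c23_8 : ¬ ESB (caseOf 4 23 8) :=
  not_esb_of_sys s23_8_ok (by decide) (by decide) (by decide) (by decide)

theorem c24_22 : ¬ ESB (caseOf 4 24 22) :=
  not_esb_of_sys s24_22_ok (by decide) (by decide) (by decide) (by decide)

theorem c25_7 : ¬ ESB (caseOf 4 25 7) :=
  not_esb_of_sys s25_7_ok (by decide) (by decide) (by decide) (by decide)

theorem c25_8 : ¬ ESB (caseOf 4 25 8) :=
  not_esb_of_sys s25_8_ok (by decide) (by decide) (by decide) (by decide)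

theorem c25_22 : ¬ ESB (caseOf 4 25 22) :=
  not_esb_of_sys s25_22_ok (by decide) (by decide) (by decide) (by decide)

theorem c27_7 : ¬ ESB (caseOf 4 27 7) :=
  not_esb_of_sys s27_7_ok (by decide) (by decide) (by decide) (by decide)

theorem c28_16 : ¬ ESB (caseOf 4 28 16) :=
  not_esb_of_sys s28_16_ok (by decide) (by decide) (by decide) (by decide)

def chunk03 : List (ℕ × ℕ) := [(3, 1), (9, 1), (10, 6), (14, 22), (15, 3), (20, 9), (21, 7),
  (21, 14), (22, 3), (23, 8), (24, 22), (25, 7), (25, 8), (25, 22), (27, 7), (28, 16)]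

theorem chunk03_ok : ∀ p ∈ chunk03, ¬ ESB (caseOf 4 p.1 p.2) :=
  List.forall_mem_cons.2 ⟨c3_1, List.forall_mem_cons.2 ⟨c9_1, List.forall_mem_cons.2 ⟨c10_6,
  List.forall_mem_cons.2 ⟨c14_22, List.forall_mem_cons.2 ⟨c15_3, List.forall_mem_cons.2 ⟨c20_9,
  List.forall_mem_cons.2 ⟨c21_7, List.forall_mem_cons.2 ⟨c21_14, List.forall_mem_cons.2 ⟨c22_3,
  List.forall_mem_cons.2 ⟨c23_8, List.forall_mem_cons.2 ⟨c24_22, List.forall_mem_cons.2 ⟨c25_7,
  List.forall_mem_cons.2 ⟨c25_8, List.forall_mem_cons.2 ⟨c25_22, List.forall_mem_cons.2 ⟨c27_7,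
  List.forall_mem_cons.2 ⟨c28_16, List.forall_mem_nil _⟩⟩⟩⟩⟩⟩⟩⟩⟩⟩⟩⟩⟩⟩⟩⟩

theorem c8_18 : ¬ ESB (caseOf 4 8 18) :=
  not_esb_of_sys s8_18_ok (by decide) (by decide) (by decide) (by decide)

theorem c10_1 : ¬ ESB (caseOf 4 10 1) :=
  not_esb_of_sys s10_1_ok (by decide) (by decide) (by decide) (by decide)

theorem c10_21 : ¬ ESB (caseOf 4 10 21) :=
  not_esb_of_sys s10_21_ok (by decide) (by decide) (by decide) (by decide)

theorem c11_1 : ¬ ESB (caseOf 4 11 1) :=
  not_esb_of_sys s11_1_ok (by decide) (by decide) (by decide) (by decide)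

theorem c14_23 : ¬ ESB (caseOf 4 14 23) :=
  not_esb_of_sys s14_23_ok (by decide) (by decide) (by decide) (by decide)

theorem c15_17 : ¬ ESB (caseOf 4 15 17) :=
  not_esb_of_sys s15_17_ok (by decide) (by decide) (by decide) (by decide)

theorem c17_8 : ¬ ESB (caseOf 4 17 8) :=
  not_esb_of_sys s17_8_ok (by decide) (by decide) (by decide) (by decide)

theorem c19_8 : ¬ ESB (caseOf 4 19 8) :=
  not_esb_of_sys s19_8_ok (by decide) (by decide) (by decide) (by decide)

theorem c21_3 : ¬ ESB (caseOf 4 21 3) :=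
  not_esb_of_sys s21_3_ok (by decide) (by decide) (by decide) (by decide)

theorem c23_6 : ¬ ESB (caseOf 4 23 6) :=
  not_esb_of_sys s23_6_ok (by decide) (by decide) (by decide) (by decide)

theorem c24_8 : ¬ ESB (caseOf 4 24 8) :=
  not_esb_of_sys s24_8_ok (by decide) (by decide) (by decide) (by decide)

theorem c25_2 : ¬ ESB (caseOf 4 25 2) :=
  not_esb_of_sys s25_2_ok (by decide) (by decide) (by decide) (by decide)

theorem c27_4 : ¬ ESB (caseOf 4 27 4) :=
  not_esb_of_sys s27_4_ok (by decide) (by decide) (by decide) (by decide)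

theorem c27_15 : ¬ ESB (caseOf 4 27 15) :=
  not_esb_of_sys s27_15_ok (by decide) (by decide) (by decide) (by decide)

theorem c28_12 : ¬ ESB (caseOf 4 28 12) :=
  not_esb_of_sys s28_12_ok (by decide) (by decide) (by decide) (by decide)

theorem c30_10 : ¬ ESB (caseOf 4 30 10) :=
  not_esb_of_sys s30_10_ok (by decide) (by decide) (by decide) (by decide)

theorem c30_23 : ¬ ESB (caseOf 4 30 23) :=
  not_esb_of_sys s30_23_ok (by decide) (by decide) (by decide) (by decide)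

def chunk04 : List (ℕ × ℕ) := [(8, 18), (10, 1), (10, 21), (11, 1), (14, 23), (15, 17), (17, 8),
  (19, 8), (21, 3), (23, 6), (24, 8), (25, 2), (27, 4), (27, 15), (28, 12), (30, 10), (30, 23)]

theorem chunk04_ok : ∀ p ∈ chunk04, ¬ ESB (caseOf 4 p.1 p.2) :=
  List.forall_mem_cons.2 ⟨c8_18, List.forall_mem_cons.2 ⟨c10_1, List.forall_mem_cons.2 ⟨c10_21,
  List.forall_mem_cons.2 ⟨c11_1, List.forall_mem_cons.2 ⟨c14_23, List.forall_mem_cons.2 ⟨c15_17,
  List.forall_mem_cons.2 ⟨c17_8, List.forall_mem_cons.2 ⟨c19_8, List.forall_mem_cons.2 ⟨c21_3,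
  List.forall_mem_cons.2 ⟨c23_6, List.forall_mem_cons.2 ⟨c24_8, List.forall_mem_cons.2 ⟨c25_2,
  List.forall_mem_cons.2 ⟨c27_4, List.forall_mem_cons.2 ⟨c27_15, List.forall_mem_cons.2 ⟨c28_12,
  List.forall_mem_cons.2 ⟨c30_10, List.forall_mem_cons.2 ⟨c30_23, List.forall_mem_nil
  _⟩⟩⟩⟩⟩⟩⟩⟩⟩⟩⟩⟩⟩⟩⟩⟩⟩

theorem c8_22 : ¬ ESB (caseOf 4 8 22) :=
  not_esb_of_sys s8_22_ok (by decide) (by decide) (by decide) (by decide)

theorem c10_4 : ¬ ESB (caseOf 4 10 4) :=
  not_esb_of_sys s10_4_ok (by decide) (by decide) (by decide) (by decide)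

theorem c13_11 : ¬ ESB (caseOf 4 13 11) :=
  not_esb_of_sys s13_11_ok (by decide) (by decide) (by decide) (by decide)

theorem c13_17 : ¬ ESB (caseOf 4 13 17) :=
  not_esb_of_sys s13_17_ok (by decide) (by decide) (by decide) (by decide)

theorem c15_11 : ¬ ESB (caseOf 4 15 11) :=
  not_esb_of_sys s15_11_ok (by decide) (by decide) (by decide) (by decide)

theorem c17_5 : ¬ ESB (caseOf 4 17 5) :=
  not_esb_of_sys s17_5_ok (by decide) (by decide) (by decide) (by decide)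

theorem c19_6 : ¬ ESB (caseOf 4 19 6) :=
  not_esb_of_sys s19_6_ok (by decide) (by decide) (by decide) (by decide)

theorem c20_14 : ¬ ESB (caseOf 4 20 14) :=
  not_esb_of_sys s20_14_ok (by decide) (by decide) (by decide) (by decide)

theorem c21_5 : ¬ ESB (caseOf 4 21 5) :=
  not_esb_of_sys s21_5_ok (by decide) (by decide) (by decide) (by decide)

theorem c21_11 : ¬ ESB (caseOf 4 21 11) :=
  not_esb_of_sys s21_11_ok (by decide) (by decide) (by decide) (by decide)

theorem c22_2 : ¬ ESB (caseOf 4 22 2) :=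
  not_esb_of_sys s22_2_ok (by decide) (by decide) (by decide) (by decide)

theorem c22_8 : ¬ ESB (caseOf 4 22 8) :=
  not_esb_of_sys s22_8_ok (by decide) (by decide) (by decide) (by decide)

theorem c22_10 : ¬ ESB (caseOf 4 22 10) :=
  not_esb_of_sys s22_10_ok (by decide) (by decide) (by decide) (by decide)

theorem c25_21 : ¬ ESB (caseOf 4 25 21) :=
  not_esb_of_sys s25_21_ok (by decide) (by decide) (by decide) (by decide)

theorem c26_1 : ¬ ESB (caseOf 4 26 1) :=
  not_esb_of_sys s26_1_ok (by decide) (by decide) (by decide) (by decide)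

theorem c28_14 : ¬ ESB (caseOf 4 28 14) :=
  not_esb_of_sys s28_14_ok (by decide) (by decide) (by decide) (by decide)

theorem c31_23 : ¬ ESB (caseOf 4 31 23) :=
  not_esb_of_sys s31_23_ok (by decide) (by decide) (by decide) (by decide)

def chunk05 : List (ℕ × ℕ) := [(8, 22), (10, 4), (13, 11), (13, 17), (15, 11), (17, 5), (19, 6),
  (20, 14), (21, 5), (21, 11), (22, 2), (22, 8), (22, 10), (25, 21), (26, 1), (28, 14), (31,
  23)]

theorem chunk05_ok : ∀ p ∈ chunk05, ¬ ESB (caseOf 4 p.1 p.2) :=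
  List.forall_mem_cons.2 ⟨c8_22, List.forall_mem_cons.2 ⟨c10_4, List.forall_mem_cons.2 ⟨c13_11,
  List.forall_mem_cons.2 ⟨c13_17, List.forall_mem_cons.2 ⟨c15_11, List.forall_mem_cons.2 ⟨c17_5,
  List.forall_mem_cons.2 ⟨c19_6, List.forall_mem_cons.2 ⟨c20_14, List.forall_mem_cons.2 ⟨c21_5,
  List.forall_mem_cons.2 ⟨c21_11, List.forall_mem_cons.2 ⟨c22_2, List.forall_mem_cons.2 ⟨c22_8,
  List.forall_mem_cons.2 ⟨c22_10, List.forall_mem_cons.2 ⟨c25_21, List.forall_mem_cons.2 ⟨c26_1,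
  List.forall_mem_cons.2 ⟨c28_14, List.forall_mem_cons.2 ⟨c31_23, List.forall_mem_nil
  _⟩⟩⟩⟩⟩⟩⟩⟩⟩⟩⟩⟩⟩⟩⟩⟩⟩

theorem c4_9 : ¬ ESB (caseOf 4 4 9) :=
  not_esb_of_sys s4_9_ok (by decide) (by decide) (by decide) (by decide)

theorem c5_1 : ¬ ESB (caseOf 4 5 1) :=
  not_esb_of_sys s5_1_ok (by decide) (by decide) (by decide) (by decide)

theorem c5_9 : ¬ ESB (caseOf 4 5 9) :=
  not_esb_of_sys s5_9_ok (by decide) (by decide) (by decide) (by decide)

theorem c12_7 : ¬ ESB (caseOf 4 12 7) :=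
  not_esb_of_sys s12_7_ok (by decide) (by decide) (by decide) (by decide)

theorem c17_10 : ¬ ESB (caseOf 4 17 10) :=
  not_esb_of_sys s17_10_ok (by decide) (by decide) (by decide) (by decide)

theorem c19_5 : ¬ ESB (caseOf 4 19 5) :=
  not_esb_of_sys s19_5_ok (by decide) (by decide) (by decide) (by decide)

theorem c22_7 : ¬ ESB (caseOf 4 22 7) :=
  not_esb_of_sys s22_7_ok (by decide) (by decide) (by decide) (by decide)

theorem c26_21 : ¬ ESB (caseOf 4 26 21) :=
  not_esb_of_sys s26_21_ok (by decide) (by decide) (by decide) (by decide)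

theorem c26_23 : ¬ ESB (caseOf 4 26 23) :=
  not_esb_of_sys s26_23_ok (by decide) (by decide) (by decide) (by decide)

theorem c27_5 : ¬ ESB (caseOf 4 27 5) :=
  not_esb_of_sys s27_5_ok (by decide) (by decide) (by decide) (by decide)

theorem c27_6 : ¬ ESB (caseOf 4 27 6) :=
  not_esb_of_sys s27_6_ok (by decide) (by decide) (by decide) (by decide)

theorem c28_8 : ¬ ESB (caseOf 4 28 8) :=
  not_esb_of_sys s28_8_ok (by decide) (by decide) (by decide) (by decide)

theorem c28_11 : ¬ ESB (caseOf 4 28 11) :=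
  not_esb_of_sys s28_11_ok (by decide) (by decide) (by decide) (by decide)

theorem c30_4 : ¬ ESB (caseOf 4 30 4) :=
  not_esb_of_sys s30_4_ok (by decide) (by decide) (by decide) (by decide)

theorem c30_8 : ¬ ESB (caseOf 4 30 8) :=
  not_esb_of_sys s30_8_ok (by decide) (by decide) (by decide) (by decide)

theorem c30_14 : ¬ ESB (caseOf 4 30 14) :=
  not_esb_of_sys s30_14_ok (by decide) (by decide) (by decide) (by decide)

theorem c30_16 : ¬ ESB (caseOf 4 30 16) :=
  not_esb_of_sys s30_16_ok (by decide) (by decide) (by decide) (by decide)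

def chunk06 : List (ℕ × ℕ) := [(4, 9), (5, 1), (5, 9), (12, 7), (17, 10), (19, 5), (22, 7), (26,
  21), (26, 23), (27, 5), (27, 6), (28, 8), (28, 11), (30, 4), (30, 8), (30, 14), (30, 16)]

theorem chunk06_ok : ∀ p ∈ chunk06, ¬ ESB (caseOf 4 p.1 p.2) :=
  List.forall_mem_cons.2 ⟨c4_9, List.forall_mem_cons.2 ⟨c5_1, List.forall_mem_cons.2 ⟨c5_9,
  List.forall_mem_cons.2 ⟨c12_7, List.forall_mem_cons.2 ⟨c17_10, List.forall_mem_cons.2 ⟨c19_5,
  List.forall_mem_cons.2 ⟨c22_7, List.forall_mem_cons.2 ⟨c26_21, List.forall_mem_cons.2 ⟨c26_23,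
  List.forall_mem_cons.2 ⟨c27_5, List.forall_mem_cons.2 ⟨c27_6, List.forall_mem_cons.2 ⟨c28_8,
  List.forall_mem_cons.2 ⟨c28_11, List.forall_mem_cons.2 ⟨c30_4, List.forall_mem_cons.2 ⟨c30_8,
  List.forall_mem_cons.2 ⟨c30_14, List.forall_mem_cons.2 ⟨c30_16, List.forall_mem_nil
  _⟩⟩⟩⟩⟩⟩⟩⟩⟩⟩⟩⟩⟩⟩⟩⟩⟩

theorem c2_12 : ¬ ESB (caseOf 4 2 12) :=
  not_esb_of_sys s2_12_ok (by decide) (by decide) (by decide) (by decide)

theorem c9_16 : ¬ ESB (caseOf 4 9 16) :=
  not_esb_of_sys s9_16_ok (by decide) (by decide) (by decide) (by decide)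

theorem c10_7 : ¬ ESB (caseOf 4 10 7) :=
  not_esb_of_sys s10_7_ok (by decide) (by decide) (by decide) (by decide)

theorem c11_22 : ¬ ESB (caseOf 4 11 22) :=
  not_esb_of_sys s11_22_ok (by decide) (by decide) (by decide) (by decide)

theorem c12_8 : ¬ ESB (caseOf 4 12 8) :=
  not_esb_of_sys s12_8_ok (by decide) (by decide) (by decide) (by decide)

theorem c14_7 : ¬ ESB (caseOf 4 14 7) :=
  not_esb_of_sys s14_7_ok (by decide) (by decide) (by decide) (by decide)

theorem c14_10 : ¬ ESB (caseOf 4 14 10) :=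
  not_esb_of_sys s14_10_ok (by decide) (by decide) (by decide) (by decide)

theorem c16_3 : ¬ ESB (caseOf 4 16 3) :=
  not_esb_of_sys s16_3_ok (by decide) (by decide) (by decide) (by decide)

theorem c19_4 : ¬ ESB (caseOf 4 19 4) :=
  not_esb_of_sys s19_4_ok (by decide) (by decide) (by decide) (by decide)

theorem c21_2 : ¬ ESB (caseOf 4 21 2) :=
  not_esb_of_sys s21_2_ok (by decide) (by decide) (by decide) (by decide)

theorem c22_6 : ¬ ESB (caseOf 4 22 6) :=
  not_esb_of_sys s22_6_ok (by decide) (by decide) (by decide) (by decide)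

theorem c24_5 : ¬ ESB (caseOf 4 24 5) :=
  not_esb_of_sys s24_5_ok (by decide) (by decide) (by decide) (by decide)

theorem c24_15 : ¬ ESB (caseOf 4 24 15) :=
  not_esb_of_sys s24_15_ok (by decide) (by decide) (by decide) (by decide)

theorem c29_14 : ¬ ESB (caseOf 4 29 14) :=
  not_esb_of_sys s29_14_ok (by decide) (by decide) (by decide) (by decide)

theorem c29_22 : ¬ ESB (caseOf 4 29 22) :=
  not_esb_of_sys s29_22_ok (by decide) (by decide) (by decide) (by decide)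

theorem c31_9 : ¬ ESB (caseOf 4 31 9) :=
  not_esb_of_sys s31_9_ok (by decide) (by decide) (by decide) (by decide)

theorem c31_22 : ¬ ESB (caseOf 4 31 22) :=
  not_esb_of_sys s31_22_ok (by decide) (by decide) (by decide) (by decide)

def chunk07 : List (ℕ × ℕ) := [(2, 12), (9, 16), (10, 7), (11, 22), (12, 8), (14, 7), (14, 10),
  (16, 3), (19, 4), (21, 2), (22, 6), (24, 5), (24, 15), (29, 14), (29, 22), (31, 9), (31, 22)]

theorem chunk07_ok : ∀ p ∈ chunk07, ¬ ESB (caseOf 4 p.1 p.2) :=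
  List.forall_mem_cons.2 ⟨c2_12, List.forall_mem_cons.2 ⟨c9_16, List.forall_mem_cons.2 ⟨c10_7,
  List.forall_mem_cons.2 ⟨c11_22, List.forall_mem_cons.2 ⟨c12_8, List.forall_mem_cons.2 ⟨c14_7,
  List.forall_mem_cons.2 ⟨c14_10, List.forall_mem_cons.2 ⟨c16_3, List.forall_mem_cons.2 ⟨c19_4,
  List.forall_mem_cons.2 ⟨c21_2, List.forall_mem_cons.2 ⟨c22_6, List.forall_mem_cons.2 ⟨c24_5,
  List.forall_mem_cons.2 ⟨c24_15, List.forall_mem_cons.2 ⟨c29_14, List.forall_mem_cons.2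
  ⟨c29_22, List.forall_mem_cons.2 ⟨c31_9, List.forall_mem_cons.2 ⟨c31_22, List.forall_mem_nil
  _⟩⟩⟩⟩⟩⟩⟩⟩⟩⟩⟩⟩⟩⟩⟩⟩⟩

theorem c5_8 : ¬ ESB (caseOf 4 5 8) :=
  not_esb_of_sys s5_8_ok (by decide) (by decide) (by decide) (by decide)

theorem c6_11 : ¬ ESB (caseOf 4 6 11) :=
  not_esb_of_sys s6_11_ok (by decide) (by decide) (by decide) (by decide)

theorem c6_28 : ¬ ESB (caseOf 4 6 28) :=
  not_esb_of_sys s6_28_ok (by decide) (by decide) (by decide) (by decide)

theorem c8_23 : ¬ ESB (caseOf 4 8 23) :=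
  not_esb_of_sys s8_23_ok (by decide) (by decide) (by decide) (by decide)

theorem c13_6 : ¬ ESB (caseOf 4 13 6) :=
  not_esb_of_sys s13_6_ok (by decide) (by decide) (by decide) (by decide)

theorem c13_21 : ¬ ESB (caseOf 4 13 21) :=
  not_esb_of_sys s13_21_ok (by decide) (by decide) (by decide) (by decide)

theorem c14_1 : ¬ ESB (caseOf 4 14 1) :=
  not_esb_of_sys s14_1_ok (by decide) (by decide) (by decide) (by decide)

theorem c18_9 : ¬ ESB (caseOf 4 18 9) :=
  not_esb_of_sys s18_9_ok (by decide) (by decide) (by decide) (by decide)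

theorem c18_11 : ¬ ESB (caseOf 4 18 11) :=
  not_esb_of_sys s18_11_ok (by decide) (by decide) (by decide) (by decide)

theorem c19_15 : ¬ ESB (caseOf 4 19 15) :=
  not_esb_of_sys s19_15_ok (by decide) (by decide) (by decide) (by decide)

theorem c25_3 : ¬ ESB (caseOf 4 25 3) :=
  not_esb_of_sys s25_3_ok (by decide) (by decide) (by decide) (by decide)

theorem c27_21 : ¬ ESB (caseOf 4 27 21) :=
  not_esb_of_sys s27_21_ok (by decide) (by decide) (by decide) (by decide)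

theorem c28_5 : ¬ ESB (caseOf 4 28 5) :=
  not_esb_of_sys s28_5_ok (by decide) (by decide) (by decide) (by decide)

theorem c28_22 : ¬ ESB (caseOf 4 28 22) :=
  not_esb_of_sys s28_22_ok (by decide) (by decide) (by decide) (by decide)

theorem c29_15 : ¬ ESB (caseOf 4 29 15) :=
  not_esb_of_sys s29_15_ok (by decide) (by decide) (by decide) (by decide)

theorem c30_3 : ¬ ESB (caseOf 4 30 3) :=
  not_esb_of_sys s30_3_ok (by decide) (by decide) (by decide) (by decide)

theorem c31_2 : ¬ ESB (caseOf 4 31 2) :=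
  not_esb_of_sys s31_2_ok (by decide) (by decide) (by decide) (by decide)

theorem c31_17 : ¬ ESB (caseOf 4 31 17) :=
  not_esb_of_sys s31_17_ok (by decide) (by decide) (by decide) (by decide)

def chunk08 : List (ℕ × ℕ) := [(5, 8), (6, 11), (6, 28), (8, 23), (13, 6), (13, 21), (14, 1),
  (18, 9), (18, 11), (19, 15), (25, 3), (27, 21), (28, 5), (28, 22), (29, 15), (30, 3), (31, 2),
  (31, 17)]

theorem chunk08_ok : ∀ p ∈ chunk08, ¬ ESB (caseOf 4 p.1 p.2) :=
  List.forall_mem_cons.2 ⟨c5_8, List.forall_mem_cons.2 ⟨c6_11, List.forall_mem_cons.2 ⟨c6_28,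
  List.forall_mem_cons.2 ⟨c8_23, List.forall_mem_cons.2 ⟨c13_6, List.forall_mem_cons.2 ⟨c13_21,
  List.forall_mem_cons.2 ⟨c14_1, List.forall_mem_cons.2 ⟨c18_9, List.forall_mem_cons.2 ⟨c18_11,
  List.forall_mem_cons.2 ⟨c19_15, List.forall_mem_cons.2 ⟨c25_3, List.forall_mem_cons.2 ⟨c27_21,
  List.forall_mem_cons.2 ⟨c28_5, List.forall_mem_cons.2 ⟨c28_22, List.forall_mem_cons.2 ⟨c29_15,
  List.forall_mem_cons.2 ⟨c30_3, List.forall_mem_cons.2 ⟨c31_2, List.forall_mem_cons.2 ⟨c31_17,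
  List.forall_mem_nil _⟩⟩⟩⟩⟩⟩⟩⟩⟩⟩⟩⟩⟩⟩⟩⟩⟩⟩

theorem c2_16 : ¬ ESB (caseOf 4 2 16) :=
  not_esb_of_sys s2_16_ok (by decide) (by decide) (by decide) (by decide)

theorem c5_3 : ¬ ESB (caseOf 4 5 3) :=
  not_esb_of_sys s5_3_ok (by decide) (by decide) (by decide) (by decide)

theorem c5_11 : ¬ ESB (caseOf 4 5 11) :=
  not_esb_of_sys s5_11_ok (by decide) (by decide) (by decide) (by decide)

theorem c7_1 : ¬ ESB (caseOf 4 7 1) :=
  not_esb_of_sys s7_1_ok (by decide) (by decide) (by decide) (by decide)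

theorem c12_20 : ¬ ESB (caseOf 4 12 20) :=
  not_esb_of_sys s12_20_ok (by decide) (by decide) (by decide) (by decide)

theorem c14_17 : ¬ ESB (caseOf 4 14 17) :=
  not_esb_of_sys s14_17_ok (by decide) (by decide) (by decide) (by decide)

theorem c17_11 : ¬ ESB (caseOf 4 17 11) :=
  not_esb_of_sys s17_11_ok (by decide) (by decide) (by decide) (by decide)

theorem c21_10 : ¬ ESB (caseOf 4 21 10) :=
  not_esb_of_sys s21_10_ok (by decide) (by decide) (by decide) (by decide)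

theorem c21_12 : ¬ ESB (caseOf 4 21 12) :=
  not_esb_of_sys s21_12_ok (by decide) (by decide) (by decide) (by decide)

theorem c22_5 : ¬ ESB (caseOf 4 22 5) :=
  not_esb_of_sys s22_5_ok (by decide) (by decide) (by decide) (by decide)

theorem c24_10 : ¬ ESB (caseOf 4 24 10) :=
  not_esb_of_sys s24_10_ok (by decide) (by decide) (by decide) (by decide)

theorem c24_13 : ¬ ESB (caseOf 4 24 13) :=
  not_esb_of_sys s24_13_ok (by decide) (by decide) (by decide) (by decide)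

theorem c24_14 : ¬ ESB (caseOf 4 24 14) :=
  not_esb_of_sys s24_14_ok (by decide) (by decide) (by decide) (by decide)

theorem c29_20 : ¬ ESB (caseOf 4 29 20) :=
  not_esb_of_sys s29_20_ok (by decide) (by decide) (by decide) (by decide)

theorem c30_2 : ¬ ESB (caseOf 4 30 2) :=
  not_esb_of_sys s30_2_ok (by decide) (by decide) (by decide) (by decide)

theorem c30_5 : ¬ ESB (caseOf 4 30 5) :=
  not_esb_of_sys s30_5_ok (by decide) (by decide) (by decide) (by decide)

theorem c30_11 : ¬ ESB (caseOf 4 30 11) :=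
  not_esb_of_sys s30_11_ok (by decide) (by decide) (by decide) (by decide)

theorem c30_22 : ¬ ESB (caseOf 4 30 22) :=
  not_esb_of_sys s30_22_ok (by decide) (by decide) (by decide) (by decide)

def chunk09 : List (ℕ × ℕ) := [(2, 16), (5, 3), (5, 11), (7, 1), (12, 20), (14, 17), (17, 11),
  (21, 10), (21, 12), (22, 5), (24, 10), (24, 13), (24, 14), (29, 20), (30, 2), (30, 5), (30,
  11), (30, 22)]

theorem chunk09_ok : ∀ p ∈ chunk09, ¬ ESB (caseOf 4 p.1 p.2) :=
  List.forall_mem_cons.2 ⟨c2_16, List.forall_mem_cons.2 ⟨c5_3, List.forall_mem_cons.2 ⟨c5_11,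
  List.forall_mem_cons.2 ⟨c7_1, List.forall_mem_cons.2 ⟨c12_20, List.forall_mem_cons.2 ⟨c14_17,
  List.forall_mem_cons.2 ⟨c17_11, List.forall_mem_cons.2 ⟨c21_10, List.forall_mem_cons.2
  ⟨c21_12, List.forall_mem_cons.2 ⟨c22_5, List.forall_mem_cons.2 ⟨c24_10, List.forall_mem_cons.2
  ⟨c24_13, List.forall_mem_cons.2 ⟨c24_14, List.forall_mem_cons.2 ⟨c29_20,
  List.forall_mem_cons.2 ⟨c30_2, List.forall_mem_cons.2 ⟨c30_5, List.forall_mem_cons.2 ⟨c30_11,
  List.forall_mem_cons.2 ⟨c30_22, List.forall_mem_nil _⟩⟩⟩⟩⟩⟩⟩⟩⟩⟩⟩⟩⟩⟩⟩⟩⟩⟩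

theorem c4_8 : ¬ ESB (caseOf 4 4 8) :=
  not_esb_of_sys s4_8_ok (by decide) (by decide) (by decide) (by decide)

theorem c8_7 : ¬ ESB (caseOf 4 8 7) :=
  not_esb_of_sys s8_7_ok (by decide) (by decide) (by decide) (by decide)

theorem c11_4 : ¬ ESB (caseOf 4 11 4) :=
  not_esb_of_sys s11_4_ok (by decide) (by decide) (by decide) (by decide)

theorem c11_23 : ¬ ESB (caseOf 4 11 23) :=
  not_esb_of_sys s11_23_ok (by decide) (by decide) (by decide) (by decide)

theorem c12_16 : ¬ ESB (caseOf 4 12 16) :=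
  not_esb_of_sys s12_16_ok (by decide) (by decide) (by decide) (by decide)

theorem c15_20 : ¬ ESB (caseOf 4 15 20) :=
  not_esb_of_sys s15_20_ok (by decide) (by decide) (by decide) (by decide)

theorem c16_2 : ¬ ESB (caseOf 4 16 2) :=
  not_esb_of_sys s16_2_ok (by decide) (by decide) (by decide) (by decide)

theorem c17_14 : ¬ ESB (caseOf 4 17 14) :=
  not_esb_of_sys s17_14_ok (by decide) (by decide) (by decide) (by decide)

theorem c18_5 : ¬ ESB (caseOf 4 18 5) :=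
  not_esb_of_sys s18_5_ok (by decide) (by decide) (by decide) (by decide)

theorem c19_14 : ¬ ESB (caseOf 4 19 14) :=
  not_esb_of_sys s19_14_ok (by decide) (by decide) (by decide) (by decide)

theorem c20_1 : ¬ ESB (caseOf 4 20 1) :=
  not_esb_of_sys s20_1_ok (by decide) (by decide) (by decide) (by decide)

theorem c20_10 : ¬ ESB (caseOf 4 20 10) :=
  not_esb_of_sys s20_10_ok (by decide) (by decide) (by decide) (by decide)

theorem c22_1 : ¬ ESB (caseOf 4 22 1) :=
  not_esb_of_sys s22_1_ok (by decide) (by decide) (by decide) (by decide)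

theorem c22_14 : ¬ ESB (caseOf 4 22 14) :=
  not_esb_of_sys s22_14_ok (by decide) (by decide) (by decide) (by decide)

theorem c23_2 : ¬ ESB (caseOf 4 23 2) :=
  not_esb_of_sys s23_2_ok (by decide) (by decide) (by decide) (by decide)

theorem c23_10 : ¬ ESB (caseOf 4 23 10) :=
  not_esb_of_sys s23_10_ok (by decide) (by decide) (by decide) (by decide)

theorem c24_11 : ¬ ESB (caseOf 4 24 11) :=
  not_esb_of_sys s24_11_ok (by decide) (by decide) (by decide) (by decide)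

theorem c24_20 : ¬ ESB (caseOf 4 24 20) :=
  not_esb_of_sys s24_20_ok (by decide) (by decide) (by decide) (by decide)

theorem c28_10 : ¬ ESB (caseOf 4 28 10) :=
  not_esb_of_sys s28_10_ok (by decide) (by decide) (by decide) (by decide)

def chunk10 : List (ℕ × ℕ) := [(4, 8), (8, 7), (11, 4), (11, 23), (12, 16), (15, 20), (16, 2),
  (17, 14), (18, 5), (19, 14), (20, 1), (20, 10), (22, 1), (22, 14), (23, 2), (23, 10), (24,
  11), (24, 20), (28, 10)]

theorem chunk10_ok : ∀ p ∈ chunk10, ¬ ESB (caseOf 4 p.1 p.2) :=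
  List.forall_mem_cons.2 ⟨c4_8, List.forall_mem_cons.2 ⟨c8_7, List.forall_mem_cons.2 ⟨c11_4,
  List.forall_mem_cons.2 ⟨c11_23, List.forall_mem_cons.2 ⟨c12_16, List.forall_mem_cons.2
  ⟨c15_20, List.forall_mem_cons.2 ⟨c16_2, List.forall_mem_cons.2 ⟨c17_14, List.forall_mem_cons.2
  ⟨c18_5, List.forall_mem_cons.2 ⟨c19_14, List.forall_mem_cons.2 ⟨c20_1, List.forall_mem_cons.2
  ⟨c20_10, List.forall_mem_cons.2 ⟨c22_1, List.forall_mem_cons.2 ⟨c22_14, List.forall_mem_cons.2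
  ⟨c23_2, List.forall_mem_cons.2 ⟨c23_10, List.forall_mem_cons.2 ⟨c24_11, List.forall_mem_cons.2
  ⟨c24_20, List.forall_mem_cons.2 ⟨c28_10, List.forall_mem_nil _⟩⟩⟩⟩⟩⟩⟩⟩⟩⟩⟩⟩⟩⟩⟩⟩⟩⟩⟩

theorem c4_11 : ¬ ESB (caseOf 4 4 11) :=
  not_esb_of_sys s4_11_ok (by decide) (by decide) (by decide) (by decide)

theorem c6_8 : ¬ ESB (caseOf 4 6 8) :=
  not_esb_of_sys s6_8_ok (by decide) (by decide) (by decide) (by decide)

theorem c8_16 : ¬ ESB (caseOf 4 8 16) :=
  not_esb_of_sys s8_16_ok (by decide) (by decide) (by decide) (by decide)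

theorem c14_21 : ¬ ESB (caseOf 4 14 21) :=
  not_esb_of_sys s14_21_ok (by decide) (by decide) (by decide) (by decide)

theorem c16_4 : ¬ ESB (caseOf 4 16 4) :=
  not_esb_of_sys s16_4_ok (by decide) (by decide) (by decide) (by decide)

theorem c17_9 : ¬ ESB (caseOf 4 17 9) :=
  not_esb_of_sys s17_9_ok (by decide) (by decide) (by decide) (by decide)

theorem c18_2 : ¬ ESB (caseOf 4 18 2) :=
  not_esb_of_sys s18_2_ok (by decide) (by decide) (by decide) (by decide)

theorem c22_9 : ¬ ESB (caseOf 4 22 9) :=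
  not_esb_of_sys s22_9_ok (by decide) (by decide) (by decide) (by decide)

theorem c23_4 : ¬ ESB (caseOf 4 23 4) :=
  not_esb_of_sys s23_4_ok (by decide) (by decide) (by decide) (by decide)

theorem c23_7 : ¬ ESB (caseOf 4 23 7) :=
  not_esb_of_sys s23_7_ok (by decide) (by decide) (by decide) (by decide)

theorem c25_9 : ¬ ESB (caseOf 4 25 9) :=
  not_esb_of_sys s25_9_ok (by decide) (by decide) (by decide) (by decide)

theorem c26_20 : ¬ ESB (caseOf 4 26 20) :=
  not_esb_of_sys s26_20_ok (by decide) (by decide) (by decide) (by decide)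

theorem c27_11 : ¬ ESB (caseOf 4 27 11) :=
  not_esb_of_sys s27_11_ok (by decide) (by decide) (by decide) (by decide)

theorem c28_6 : ¬ ESB (caseOf 4 28 6) :=
  not_esb_of_sys s28_6_ok (by decide) (by decide) (by decide) (by decide)

theorem c29_17 : ¬ ESB (caseOf 4 29 17) :=
  not_esb_of_sys s29_17_ok (by decide) (by decide) (by decide) (by decide)

theorem c30_7 : ¬ ESB (caseOf 4 30 7) :=
  not_esb_of_sys s30_7_ok (by decide) (by decide) (by decide) (by decide)

theorem c31_3 : ¬ ESB (caseOf 4 31 3) :=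
  not_esb_of_sys s31_3_ok (by decide) (by decide) (by decide) (by decide)

theorem c31_15 : ¬ ESB (caseOf 4 31 15) :=
  not_esb_of_sys s31_15_ok (by decide) (by decide) (by decide) (by decide)

def chunk11 : List (ℕ × ℕ) := [(4, 11), (6, 8), (8, 16), (14, 21), (16, 4), (17, 9), (18, 2),
  (22, 9), (23, 4), (23, 7), (25, 9), (26, 20), (27, 11), (28, 6), (29, 17), (30, 7), (31, 3),
  (31, 15)]

theorem chunk11_ok : ∀ p ∈ chunk11, ¬ ESB (caseOf 4 p.1 p.2) :=
  List.forall_mem_cons.2 ⟨c4_11, List.forall_mem_cons.2 ⟨c6_8, List.forall_mem_cons.2 ⟨c8_16,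
  List.forall_mem_cons.2 ⟨c14_21, List.forall_mem_cons.2 ⟨c16_4, List.forall_mem_cons.2 ⟨c17_9,
  List.forall_mem_cons.2 ⟨c18_2, List.forall_mem_cons.2 ⟨c22_9, List.forall_mem_cons.2 ⟨c23_4,
  List.forall_mem_cons.2 ⟨c23_7, List.forall_mem_cons.2 ⟨c25_9, List.forall_mem_cons.2 ⟨c26_20,
  List.forall_mem_cons.2 ⟨c27_11, List.forall_mem_cons.2 ⟨c28_6, List.forall_mem_cons.2 ⟨c29_17,
  List.forall_mem_cons.2 ⟨c30_7, List.forall_mem_cons.2 ⟨c31_3, List.forall_mem_cons.2 ⟨c31_15,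
  List.forall_mem_nil _⟩⟩⟩⟩⟩⟩⟩⟩⟩⟩⟩⟩⟩⟩⟩⟩⟩⟩

theorem c6_16 : ¬ ESB (caseOf 4 6 16) :=
  not_esb_of_sys s6_16_ok (by decide) (by decide) (by decide) (by decide)

theorem c7_10 : ¬ ESB (caseOf 4 7 10) :=
  not_esb_of_sys s7_10_ok (by decide) (by decide) (by decide) (by decide)

theorem c7_16 : ¬ ESB (caseOf 4 7 16) :=
  not_esb_of_sys s7_16_ok (by decide) (by decide) (by decide) (by decide)

theorem c9_2 : ¬ ESB (caseOf 4 9 2) :=
  not_esb_of_sys s9_2_ok (by decide) (by decide) (by decide) (by decide)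

theorem c10_22 : ¬ ESB (caseOf 4 10 22) :=
  not_esb_of_sys s10_22_ok (by decide) (by decide) (by decide) (by decide)

theorem c11_7 : ¬ ESB (caseOf 4 11 7) :=
  not_esb_of_sys s11_7_ok (by decide) (by decide) (by decide) (by decide)

theorem c12_3 : ¬ ESB (caseOf 4 12 3) :=
  not_esb_of_sys s12_3_ok (by decide) (by decide) (by decide) (by decide)

theorem c13_9 : ¬ ESB (caseOf 4 13 9) :=
  not_esb_of_sys s13_9_ok (by decide) (by decide) (by decide) (by decide)

theorem c14_9 : ¬ ESB (caseOf 4 14 9) :=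
  not_esb_of_sys s14_9_ok (by decide) (by decide) (by decide) (by decide)

theorem c15_23 : ¬ ESB (caseOf 4 15 23) :=
  not_esb_of_sys s15_23_ok (by decide) (by decide) (by decide) (by decide)

theorem c26_11 : ¬ ESB (caseOf 4 26 11) :=
  not_esb_of_sys s26_11_ok (by decide) (by decide) (by decide) (by decide)

theorem c29_6 : ¬ ESB (caseOf 4 29 6) :=
  not_esb_of_sys s29_6_ok (by decide) (by decide) (by decide) (by decide)

theorem c29_7 : ¬ ESB (caseOf 4 29 7) :=
  not_esb_of_sys s29_7_ok (by decide) (by decide) (by decide) (by decide)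

theorem c29_9 : ¬ ESB (caseOf 4 29 9) :=
  not_esb_of_sys s29_9_ok (by decide) (by decide) (by decide) (by decide)

theorem c29_16 : ¬ ESB (caseOf 4 29 16) :=
  not_esb_of_sys s29_16_ok (by decide) (by decide) (by decide) (by decide)

theorem c31_14 : ¬ ESB (caseOf 4 31 14) :=
  not_esb_of_sys s31_14_ok (by decide) (by decide) (by decide) (by decide)

theorem c31_21 : ¬ ESB (caseOf 4 31 21) :=
  not_esb_of_sys s31_21_ok (by decide) (by decide) (by decide) (by decide)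

def chunk12 : List (ℕ × ℕ) := [(6, 16), (7, 10), (7, 16), (9, 2), (10, 22), (11, 7), (12, 3),
  (13, 9), (14, 9), (15, 23), (26, 11), (29, 6), (29, 7), (29, 9), (29, 16), (31, 14), (31, 21)]

theorem chunk12_ok : ∀ p ∈ chunk12, ¬ ESB (caseOf 4 p.1 p.2) :=
  List.forall_mem_cons.2 ⟨c6_16, List.forall_mem_cons.2 ⟨c7_10, List.forall_mem_cons.2 ⟨c7_16,
  List.forall_mem_cons.2 ⟨c9_2, List.forall_mem_cons.2 ⟨c10_22, List.forall_mem_cons.2 ⟨c11_7,
  List.forall_mem_cons.2 ⟨c12_3, List.forall_mem_cons.2 ⟨c13_9, List.forall_mem_cons.2 ⟨c14_9,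
  List.forall_mem_cons.2 ⟨c15_23, List.forall_mem_cons.2 ⟨c26_11, List.forall_mem_cons.2 ⟨c29_6,
  List.forall_mem_cons.2 ⟨c29_7, List.forall_mem_cons.2 ⟨c29_9, List.forall_mem_cons.2 ⟨c29_16,
  List.forall_mem_cons.2 ⟨c31_14, List.forall_mem_cons.2 ⟨c31_21, List.forall_mem_nil
  _⟩⟩⟩⟩⟩⟩⟩⟩⟩⟩⟩⟩⟩⟩⟩⟩⟩

theorem c3_24 : ¬ ESB (caseOf 4 3 24) :=
  not_esb_of_sys s3_24_ok (by decide) (by decide) (by decide) (by decide)

theorem c5_10 : ¬ ESB (caseOf 4 5 10) :=
  not_esb_of_sys s5_10_ok (by decide) (by decide) (by decide) (by decide)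

theorem c6_3 : ¬ ESB (caseOf 4 6 3) :=
  not_esb_of_sys s6_3_ok (by decide) (by decide) (by decide) (by decide)

theorem c6_9 : ¬ ESB (caseOf 4 6 9) :=
  not_esb_of_sys s6_9_ok (by decide) (by decide) (by decide) (by decide)

theorem c9_4 : ¬ ESB (caseOf 4 9 4) :=
  not_esb_of_sys s9_4_ok (by decide) (by decide) (by decide) (by decide)

theorem c16_6 : ¬ ESB (caseOf 4 16 6) :=
  not_esb_of_sys s16_6_ok (by decide) (by decide) (by decide) (by decide)

theorem c17_4 : ¬ ESB (caseOf 4 17 4) :=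
  not_esb_of_sys s17_4_ok (by decide) (by decide) (by decide) (by decide)

theorem c20_6 : ¬ ESB (caseOf 4 20 6) :=
  not_esb_of_sys s20_6_ok (by decide) (by decide) (by decide) (by decide)

theorem c22_11 : ¬ ESB (caseOf 4 22 11) :=
  not_esb_of_sys s22_11_ok (by decide) (by decide) (by decide) (by decide)

theorem c23_5 : ¬ ESB (caseOf 4 23 5) :=
  not_esb_of_sys s23_5_ok (by decide) (by decide) (by decide) (by decide)

theorem c25_11 : ¬ ESB (caseOf 4 25 11) :=
  not_esb_of_sys s25_11_ok (by decide) (by decide) (by decide) (by decide)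

theorem c26_2 : ¬ ESB (caseOf 4 26 2) :=
  not_esb_of_sys s26_2_ok (by decide) (by decide) (by decide) (by decide)

theorem c26_5 : ¬ ESB (caseOf 4 26 5) :=
  not_esb_of_sys s26_5_ok (by decide) (by decide) (by decide) (by decide)

theorem c26_10 : ¬ ESB (caseOf 4 26 10) :=
  not_esb_of_sys s26_10_ok (by decide) (by decide) (by decide) (by decide)

theorem c28_21 : ¬ ESB (caseOf 4 28 21) :=
  not_esb_of_sys s28_21_ok (by decide) (by decide) (by decide) (by decide)

theorem c30_6 : ¬ ESB (caseOf 4 30 6) :=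
  not_esb_of_sys s30_6_ok (by decide) (by decide) (by decide) (by decide)

theorem c31_10 : ¬ ESB (caseOf 4 31 10) :=
  not_esb_of_sys s31_10_ok (by decide) (by decide) (by decide) (by decide)

theorem c31_16 : ¬ ESB (caseOf 4 31 16) :=
  not_esb_of_sys s31_16_ok (by decide) (by decide) (by decide) (by decide)

def chunk13 : List (ℕ × ℕ) := [(3, 24), (5, 10), (6, 3), (6, 9), (9, 4), (16, 6), (17, 4), (20,
  6), (22, 11), (23, 5), (25, 11), (26, 2), (26, 5), (26, 10), (28, 21), (30, 6), (31, 10), (31,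
  16)]

theorem chunk13_ok : ∀ p ∈ chunk13, ¬ ESB (caseOf 4 p.1 p.2) :=
  List.forall_mem_cons.2 ⟨c3_24, List.forall_mem_cons.2 ⟨c5_10, List.forall_mem_cons.2 ⟨c6_3,
  List.forall_mem_cons.2 ⟨c6_9, List.forall_mem_cons.2 ⟨c9_4, List.forall_mem_cons.2 ⟨c16_6,
  List.forall_mem_cons.2 ⟨c17_4, List.forall_mem_cons.2 ⟨c20_6, List.forall_mem_cons.2 ⟨c22_11,
  List.forall_mem_cons.2 ⟨c23_5, List.forall_mem_cons.2 ⟨c25_11, List.forall_mem_cons.2 ⟨c26_2,
  List.forall_mem_cons.2 ⟨c26_5, List.forall_mem_cons.2 ⟨c26_10, List.forall_mem_cons.2 ⟨c28_21,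
  List.forall_mem_cons.2 ⟨c30_6, List.forall_mem_cons.2 ⟨c31_10, List.forall_mem_cons.2 ⟨c31_16,
  List.forall_mem_nil _⟩⟩⟩⟩⟩⟩⟩⟩⟩⟩⟩⟩⟩⟩⟩⟩⟩⟩

theorem c2_24 : ¬ ESB (caseOf 4 2 24) :=
  not_esb_of_sys s2_24_ok (by decide) (by decide) (by decide) (by decide)

theorem c4_10 : ¬ ESB (caseOf 4 4 10) :=
  not_esb_of_sys s4_10_ok (by decide) (by decide) (by decide) (by decide)

theorem c6_10 : ¬ ESB (caseOf 4 6 10) :=
  not_esb_of_sys s6_10_ok (by decide) (by decide) (by decide) (by decide)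

theorem c7_2 : ¬ ESB (caseOf 4 7 2) :=
  not_esb_of_sys s7_2_ok (by decide) (by decide) (by decide) (by decide)

theorem c7_3 : ¬ ESB (caseOf 4 7 3) :=
  not_esb_of_sys s7_3_ok (by decide) (by decide) (by decide) (by decide)

theorem c9_7 : ¬ ESB (caseOf 4 9 7) :=
  not_esb_of_sys s9_7_ok (by decide) (by decide) (by decide) (by decide)

theorem c9_21 : ¬ ESB (caseOf 4 9 21) :=
  not_esb_of_sys s9_21_ok (by decide) (by decide) (by decide) (by decide)

theorem c13_16 : ¬ ESB (caseOf 4 13 16) :=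
  not_esb_of_sys s13_16_ok (by decide) (by decide) (by decide) (by decide)

theorem c14_20 : ¬ ESB (caseOf 4 14 20) :=
  not_esb_of_sys s14_20_ok (by decide) (by decide) (by decide) (by decide)

theorem c18_1 : ¬ ESB (caseOf 4 18 1) :=
  not_esb_of_sys s18_1_ok (by decide) (by decide) (by decide) (by decide)

theorem c23_14 : ¬ ESB (caseOf 4 23 14) :=
  not_esb_of_sys s23_14_ok (by decide) (by decide) (by decide) (by decide)

theorem c26_14 : ¬ ESB (caseOf 4 26 14) :=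
  not_esb_of_sys s26_14_ok (by decide) (by decide) (by decide) (by decide)

theorem c26_22 : ¬ ESB (caseOf 4 26 22) :=
  not_esb_of_sys s26_22_ok (by decide) (by decide) (by decide) (by decide)

theorem c28_17 : ¬ ESB (caseOf 4 28 17) :=
  not_esb_of_sys s28_17_ok (by decide) (by decide) (by decide) (by decide)

theorem c29_2 : ¬ ESB (caseOf 4 29 2) :=
  not_esb_of_sys s29_2_ok (by decide) (by decide) (by decide) (by decide)

theorem c29_5 : ¬ ESB (caseOf 4 29 5) :=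
  not_esb_of_sys s29_5_ok (by decide) (by decide) (by decide) (by decide)

theorem c29_12 : ¬ ESB (caseOf 4 29 12) :=
  not_esb_of_sys s29_12_ok (by decide) (by decide) (by decide) (by decide)

theorem c31_4 : ¬ ESB (caseOf 4 31 4) :=
  not_esb_of_sys s31_4_ok (by decide) (by decide) (by decide) (by decide)

def chunk14 : List (ℕ × ℕ) := [(2, 24), (4, 10), (6, 10), (7, 2), (7, 3), (9, 7), (9, 21), (13,
  16), (14, 20), (18, 1), (23, 14), (26, 14), (26, 22), (28, 17), (29, 2), (29, 5), (29, 12),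
  (31, 4)]

theorem chunk14_ok : ∀ p ∈ chunk14, ¬ ESB (caseOf 4 p.1 p.2) :=
  List.forall_mem_cons.2 ⟨c2_24, List.forall_mem_cons.2 ⟨c4_10, List.forall_mem_cons.2 ⟨c6_10,
  List.forall_mem_cons.2 ⟨c7_2, List.forall_mem_cons.2 ⟨c7_3, List.forall_mem_cons.2 ⟨c9_7,
  List.forall_mem_cons.2 ⟨c9_21, List.forall_mem_cons.2 ⟨c13_16, List.forall_mem_cons.2 ⟨c14_20,
  List.forall_mem_cons.2 ⟨c18_1, List.forall_mem_cons.2 ⟨c23_14, List.forall_mem_cons.2 ⟨c26_14,
  List.forall_mem_cons.2 ⟨c26_22, List.forall_mem_cons.2 ⟨c28_17, List.forall_mem_cons.2 ⟨c29_2,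
  List.forall_mem_cons.2 ⟨c29_5, List.forall_mem_cons.2 ⟨c29_12, List.forall_mem_cons.2 ⟨c31_4,
  List.forall_mem_nil _⟩⟩⟩⟩⟩⟩⟩⟩⟩⟩⟩⟩⟩⟩⟩⟩⟩⟩

theorem c3_8 : ¬ ESB (caseOf 4 3 8) :=
  not_esb_of_sys s3_8_ok (by decide) (by decide) (by decide) (by decide)

theorem c4_3 : ¬ ESB (caseOf 4 4 3) :=
  not_esb_of_sys s4_3_ok (by decide) (by decide) (by decide) (by decide)

theorem c9_20 : ¬ ESB (caseOf 4 9 20) :=
  not_esb_of_sys s9_20_ok (by decide) (by decide) (by decide) (by decide)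

theorem c12_2 : ¬ ESB (caseOf 4 12 2) :=
  not_esb_of_sys s12_2_ok (by decide) (by decide) (by decide) (by decide)

theorem c18_12 : ¬ ESB (caseOf 4 18 12) :=
  not_esb_of_sys s18_12_ok (by decide) (by decide) (by decide) (by decide)

theorem c20_8 : ¬ ESB (caseOf 4 20 8) :=
  not_esb_of_sys s20_8_ok (by decide) (by decide) (by decide) (by decide)

theorem c20_12 : ¬ ESB (caseOf 4 20 12) :=
  not_esb_of_sys s20_12_ok (by decide) (by decide) (by decide) (by decide)

theorem c23_3 : ¬ ESB (caseOf 4 23 3) :=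
  not_esb_of_sys s23_3_ok (by decide) (by decide) (by decide) (by decide)

theorem c24_23 : ¬ ESB (caseOf 4 24 23) :=
  not_esb_of_sys s24_23_ok (by decide) (by decide) (by decide) (by decide)

theorem c26_4 : ¬ ESB (caseOf 4 26 4) :=
  not_esb_of_sys s26_4_ok (by decide) (by decide) (by decide) (by decide)

theorem c27_2 : ¬ ESB (caseOf 4 27 2) :=
  not_esb_of_sys s27_2_ok (by decide) (by decide) (by decide) (by decide)

theorem c27_14 : ¬ ESB (caseOf 4 27 14) :=
  not_esb_of_sys s27_14_ok (by decide) (by decide) (by decide) (by decide)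

theorem c27_20 : ¬ ESB (caseOf 4 27 20) :=
  not_esb_of_sys s27_20_ok (by decide) (by decide) (by decide) (by decide)

theorem c28_23 : ¬ ESB (caseOf 4 28 23) :=
  not_esb_of_sys s28_23_ok (by decide) (by decide) (by decide) (by decide)

theorem c29_4 : ¬ ESB (caseOf 4 29 4) :=
  not_esb_of_sys s29_4_ok (by decide) (by decide) (by decide) (by decide)

theorem c29_8 : ¬ ESB (caseOf 4 29 8) :=
  not_esb_of_sys s29_8_ok (by decide) (by decide) (by decide) (by decide)

theorem c30_17 : ¬ ESB (caseOf 4 30 17) :=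
  not_esb_of_sys s30_17_ok (by decide) (by decide) (by decide) (by decide)

theorem c31_5 : ¬ ESB (caseOf 4 31 5) :=
  not_esb_of_sys s31_5_ok (by decide) (by decide) (by decide) (by decide)

def chunk15 : List (ℕ × ℕ) := [(3, 8), (4, 3), (9, 20), (12, 2), (18, 12), (20, 8), (20, 12),
  (23, 3), (24, 23), (26, 4), (27, 2), (27, 14), (27, 20), (28, 23), (29, 4), (29, 8), (30, 17),
  (31, 5)]

theorem chunk15_ok : ∀ p ∈ chunk15, ¬ ESB (caseOf 4 p.1 p.2) :=
  List.forall_mem_cons.2 ⟨c3_8, List.forall_mem_cons.2 ⟨c4_3, List.forall_mem_cons.2 ⟨c9_20,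
  List.forall_mem_cons.2 ⟨c12_2, List.forall_mem_cons.2 ⟨c18_12, List.forall_mem_cons.2 ⟨c20_8,
  List.forall_mem_cons.2 ⟨c20_12, List.forall_mem_cons.2 ⟨c23_3, List.forall_mem_cons.2 ⟨c24_23,
  List.forall_mem_cons.2 ⟨c26_4, List.forall_mem_cons.2 ⟨c27_2, List.forall_mem_cons.2 ⟨c27_14,
  List.forall_mem_cons.2 ⟨c27_20, List.forall_mem_cons.2 ⟨c28_23, List.forall_mem_cons.2 ⟨c29_4,
  List.forall_mem_cons.2 ⟨c29_8, List.forall_mem_cons.2 ⟨c30_17, List.forall_mem_cons.2 ⟨c31_5,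
  List.forall_mem_nil _⟩⟩⟩⟩⟩⟩⟩⟩⟩⟩⟩⟩⟩⟩⟩⟩⟩⟩

theorem c5_2 : ¬ ESB (caseOf 4 5 2) :=
  not_esb_of_sys s5_2_ok (by decide) (by decide) (by decide) (by decide)

theorem c8_4 : ¬ ESB (caseOf 4 8 4) :=
  not_esb_of_sys s8_4_ok (by decide) (by decide) (by decide) (by decide)

theorem c12_6 : ¬ ESB (caseOf 4 12 6) :=
  not_esb_of_sys s12_6_ok (by decide) (by decide) (by decide) (by decide)

theorem c12_17 : ¬ ESB (caseOf 4 12 17) :=
  not_esb_of_sys s12_17_ok (by decide) (by decide) (by decide) (by decide)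

theorem c12_18 : ¬ ESB (caseOf 4 12 18) :=
  not_esb_of_sys s12_18_ok (by decide) (by decide) (by decide) (by decide)

theorem c14_2 : ¬ ESB (caseOf 4 14 2) :=
  not_esb_of_sys s14_2_ok (by decide) (by decide) (by decide) (by decide)

theorem c15_6 : ¬ ESB (caseOf 4 15 6) :=
  not_esb_of_sys s15_6_ok (by decide) (by decide) (by decide) (by decide)

theorem c17_15 : ¬ ESB (caseOf 4 17 15) :=
  not_esb_of_sys s17_15_ok (by decide) (by decide) (by decide) (by decide)

theorem c18_15 : ¬ ESB (caseOf 4 18 15) :=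
  not_esb_of_sys s18_15_ok (by decide) (by decide) (by decide) (by decide)

theorem c21_9 : ¬ ESB (caseOf 4 21 9) :=
  not_esb_of_sys s21_9_ok (by decide) (by decide) (by decide) (by decide)

theorem c24_2 : ¬ ESB (caseOf 4 24 2) :=
  not_esb_of_sys s24_2_ok (by decide) (by decide) (by decide) (by decide)

theorem c25_20 : ¬ ESB (caseOf 4 25 20) :=
  not_esb_of_sys s25_20_ok (by decide) (by decide) (by decide) (by decide)

theorem c26_9 : ¬ ESB (caseOf 4 26 9) :=
  not_esb_of_sys s26_9_ok (by decide) (by decide) (by decide) (by decide)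

theorem c27_22 : ¬ ESB (caseOf 4 27 22) :=
  not_esb_of_sys s27_22_ok (by decide) (by decide) (by decide) (by decide)

theorem c27_23 : ¬ ESB (caseOf 4 27 23) :=
  not_esb_of_sys s27_23_ok (by decide) (by decide) (by decide) (by decide)

theorem c29_13 : ¬ ESB (caseOf 4 29 13) :=
  not_esb_of_sys s29_13_ok (by decide) (by decide) (by decide) (by decide)

theorem c31_11 : ¬ ESB (caseOf 4 31 11) :=
  not_esb_of_sys s31_11_ok (by decide) (by decide) (by decide) (by decide)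

def chunk16 : List (ℕ × ℕ) := [(5, 2), (8, 4), (12, 6), (12, 17), (12, 18), (14, 2), (15, 6),
  (17, 15), (18, 15), (21, 9), (24, 2), (25, 20), (26, 9), (27, 22), (27, 23), (29, 13), (31,
  11)]

theorem chunk16_ok : ∀ p ∈ chunk16, ¬ ESB (caseOf 4 p.1 p.2) :=
  List.forall_mem_cons.2 ⟨c5_2, List.forall_mem_cons.2 ⟨c8_4, List.forall_mem_cons.2 ⟨c12_6,
  List.forall_mem_cons.2 ⟨c12_17, List.forall_mem_cons.2 ⟨c12_18, List.forall_mem_cons.2 ⟨c14_2,
  List.forall_mem_cons.2 ⟨c15_6, List.forall_mem_cons.2 ⟨c17_15, List.forall_mem_cons.2 ⟨c18_15,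
  List.forall_mem_cons.2 ⟨c21_9, List.forall_mem_cons.2 ⟨c24_2, List.forall_mem_cons.2 ⟨c25_20,
  List.forall_mem_cons.2 ⟨c26_9, List.forall_mem_cons.2 ⟨c27_22, List.forall_mem_cons.2 ⟨c27_23,
  List.forall_mem_cons.2 ⟨c29_13, List.forall_mem_cons.2 ⟨c31_11, List.forall_mem_nil
  _⟩⟩⟩⟩⟩⟩⟩⟩⟩⟩⟩⟩⟩⟩⟩⟩⟩

theorem c2_28 : ¬ ESB (caseOf 4 2 28) :=
  not_esb_of_sys s2_28_ok (by decide) (by decide) (by decide) (by decide)

theorem c6_2 : ¬ ESB (caseOf 4 6 2) :=
  not_esb_of_sys s6_2_ok (by decide) (by decide) (by decide) (by decide)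

theorem c8_6 : ¬ ESB (caseOf 4 8 6) :=
  not_esb_of_sys s8_6_ok (by decide) (by decide) (by decide) (by decide)

theorem c12_9 : ¬ ESB (caseOf 4 12 9) :=
  not_esb_of_sys s12_9_ok (by decide) (by decide) (by decide) (by decide)

theorem c13_8 : ¬ ESB (caseOf 4 13 8) :=
  not_esb_of_sys s13_8_ok (by decide) (by decide) (by decide) (by decide)

theorem c14_11 : ¬ ESB (caseOf 4 14 11) :=
  not_esb_of_sys s14_11_ok (by decide) (by decide) (by decide) (by decide)

theorem c15_10 : ¬ ESB (caseOf 4 15 10) :=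
  not_esb_of_sys s15_10_ok (by decide) (by decide) (by decide) (by decide)

theorem c16_12 : ¬ ESB (caseOf 4 16 12) :=
  not_esb_of_sys s16_12_ok (by decide) (by decide) (by decide) (by decide)

theorem c17_6 : ¬ ESB (caseOf 4 17 6) :=
  not_esb_of_sys s17_6_ok (by decide) (by decide) (by decide) (by decide)

theorem c18_14 : ¬ ESB (caseOf 4 18 14) :=
  not_esb_of_sys s18_14_ok (by decide) (by decide) (by decide) (by decide)

theorem c20_4 : ¬ ESB (caseOf 4 20 4) :=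
  not_esb_of_sys s20_4_ok (by decide) (by decide) (by decide) (by decide)

theorem c21_8 : ¬ ESB (caseOf 4 21 8) :=
  not_esb_of_sys s21_8_ok (by decide) (by decide) (by decide) (by decide)

theorem c23_15 : ¬ ESB (caseOf 4 23 15) :=
  not_esb_of_sys s23_15_ok (by decide) (by decide) (by decide) (by decide)

theorem c28_20 : ¬ ESB (caseOf 4 28 20) :=
  not_esb_of_sys s28_20_ok (by decide) (by decide) (by decide) (by decide)

theorem c29_21 : ¬ ESB (caseOf 4 29 21) :=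
  not_esb_of_sys s29_21_ok (by decide) (by decide) (by decide) (by decide)

theorem c30_21 : ¬ ESB (caseOf 4 30 21) :=
  not_esb_of_sys s30_21_ok (by decide) (by decide) (by decide) (by decide)

theorem c31_7 : ¬ ESB (caseOf 4 31 7) :=
  not_esb_of_sys s31_7_ok (by decide) (by decide) (by decide) (by decide)

def chunk17 : List (ℕ × ℕ) := [(2, 28), (6, 2), (8, 6), (12, 9), (13, 8), (14, 11), (15, 10),
  (16, 12), (17, 6), (18, 14), (20, 4), (21, 8), (23, 15), (28, 20), (29, 21), (30, 21), (31,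
  7)]

theorem chunk17_ok : ∀ p ∈ chunk17, ¬ ESB (caseOf 4 p.1 p.2) :=
  List.forall_mem_cons.2 ⟨c2_28, List.forall_mem_cons.2 ⟨c6_2, List.forall_mem_cons.2 ⟨c8_6,
  List.forall_mem_cons.2 ⟨c12_9, List.forall_mem_cons.2 ⟨c13_8, List.forall_mem_cons.2 ⟨c14_11,
  List.forall_mem_cons.2 ⟨c15_10, List.forall_mem_cons.2 ⟨c16_12, List.forall_mem_cons.2 ⟨c17_6,
  List.forall_mem_cons.2 ⟨c18_14, List.forall_mem_cons.2 ⟨c20_4, List.forall_mem_cons.2 ⟨c21_8,
  List.forall_mem_cons.2 ⟨c23_15, List.forall_mem_cons.2 ⟨c28_20, List.forall_mem_cons.2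
  ⟨c29_21, List.forall_mem_cons.2 ⟨c30_21, List.forall_mem_cons.2 ⟨c31_7, List.forall_mem_nil
  _⟩⟩⟩⟩⟩⟩⟩⟩⟩⟩⟩⟩⟩⟩⟩⟩⟩

theorem c7_8 : ¬ ESB (caseOf 4 7 8) :=
  not_esb_of_sys s7_8_ok (by decide) (by decide) (by decide) (by decide)

theorem c9_22 : ¬ ESB (caseOf 4 9 22) :=
  not_esb_of_sys s9_22_ok (by decide) (by decide) (by decide) (by decide)

theorem c11_21 : ¬ ESB (caseOf 4 11 21) :=
  not_esb_of_sys s11_21_ok (by decide) (by decide) (by decide) (by decide)

theorem c12_23 : ¬ ESB (caseOf 4 12 23) :=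
  not_esb_of_sys s12_23_ok (by decide) (by decide) (by decide) (by decide)

theorem c14_8 : ¬ ESB (caseOf 4 14 8) :=
  not_esb_of_sys s14_8_ok (by decide) (by decide) (by decide) (by decide)

theorem c16_9 : ¬ ESB (caseOf 4 16 9) :=
  not_esb_of_sys s16_9_ok (by decide) (by decide) (by decide) (by decide)

theorem c18_6 : ¬ ESB (caseOf 4 18 6) :=
  not_esb_of_sys s18_6_ok (by decide) (by decide) (by decide) (by decide)

theorem c18_10 : ¬ ESB (caseOf 4 18 10) :=
  not_esb_of_sys s18_10_ok (by decide) (by decide) (by decide) (by decide)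

theorem c19_10 : ¬ ESB (caseOf 4 19 10) :=
  not_esb_of_sys s19_10_ok (by decide) (by decide) (by decide) (by decide)

theorem c22_4 : ¬ ESB (caseOf 4 22 4) :=
  not_esb_of_sys s22_4_ok (by decide) (by decide) (by decide) (by decide)

theorem c24_3 : ¬ ESB (caseOf 4 24 3) :=
  not_esb_of_sys s24_3_ok (by decide) (by decide) (by decide) (by decide)

theorem c26_3 : ¬ ESB (caseOf 4 26 3) :=
  not_esb_of_sys s26_3_ok (by decide) (by decide) (by decide) (by decide)

theorem c27_3 : ¬ ESB (caseOf 4 27 3) :=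
  not_esb_of_sys s27_3_ok (by decide) (by decide) (by decide) (by decide)

theorem c27_8 : ¬ ESB (caseOf 4 27 8) :=
  not_esb_of_sys s27_8_ok (by decide) (by decide) (by decide) (by decide)

theorem c27_10 : ¬ ESB (caseOf 4 27 10) :=
  not_esb_of_sys s27_10_ok (by decide) (by decide) (by decide) (by decide)

theorem c31_1 : ¬ ESB (caseOf 4 31 1) :=
  not_esb_of_sys s31_1_ok (by decide) (by decide) (by decide) (by decide)

theorem c31_8 : ¬ ESB (caseOf 4 31 8) :=
  not_esb_of_sys s31_8_ok (by decide) (by decide) (by decide) (by decide)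

def chunk18 : List (ℕ × ℕ) := [(7, 8), (9, 22), (11, 21), (12, 23), (14, 8), (16, 9), (18, 6),
  (18, 10), (19, 10), (22, 4), (24, 3), (26, 3), (27, 3), (27, 8), (27, 10), (31, 1), (31, 8)]

theorem chunk18_ok : ∀ p ∈ chunk18, ¬ ESB (caseOf 4 p.1 p.2) :=
  List.forall_mem_cons.2 ⟨c7_8, List.forall_mem_cons.2 ⟨c9_22, List.forall_mem_cons.2 ⟨c11_21,
  List.forall_mem_cons.2 ⟨c12_23, List.forall_mem_cons.2 ⟨c14_8, List.forall_mem_cons.2 ⟨c16_9,
  List.forall_mem_cons.2 ⟨c18_6, List.forall_mem_cons.2 ⟨c18_10, List.forall_mem_cons.2 ⟨c19_10,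
  List.forall_mem_cons.2 ⟨c22_4, List.forall_mem_cons.2 ⟨c24_3, List.forall_mem_cons.2 ⟨c26_3,
  List.forall_mem_cons.2 ⟨c27_3, List.forall_mem_cons.2 ⟨c27_8, List.forall_mem_cons.2 ⟨c27_10,
  List.forall_mem_cons.2 ⟨c31_1, List.forall_mem_cons.2 ⟨c31_8, List.forall_mem_nil
  _⟩⟩⟩⟩⟩⟩⟩⟩⟩⟩⟩⟩⟩⟩⟩⟩⟩

theorem c6_24 : ¬ ESB (caseOf 4 6 24) :=
  not_esb_of_sys s6_24_ok (by decide) (by decide) (by decide) (by decide)

theorem c9_6 : ¬ ESB (caseOf 4 9 6) :=
  not_esb_of_sys s9_6_ok (by decide) (by decide) (by decide) (by decide)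

theorem c10_20 : ¬ ESB (caseOf 4 10 20) :=
  not_esb_of_sys s10_20_ok (by decide) (by decide) (by decide) (by decide)

theorem c13_10 : ¬ ESB (caseOf 4 13 10) :=
  not_esb_of_sys s13_10_ok (by decide) (by decide) (by decide) (by decide)

theorem c17_12 : ¬ ESB (caseOf 4 17 12) :=
  not_esb_of_sys s17_12_ok (by decide) (by decide) (by decide) (by decide)

theorem c18_3 : ¬ ESB (caseOf 4 18 3) :=
  not_esb_of_sys s18_3_ok (by decide) (by decide) (by decide) (by decide)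

theorem c19_12 : ¬ ESB (caseOf 4 19 12) :=
  not_esb_of_sys s19_12_ok (by decide) (by decide) (by decide) (by decide)

theorem c20_15 : ¬ ESB (caseOf 4 20 15) :=
  not_esb_of_sys s20_15_ok (by decide) (by decide) (by decide) (by decide)

theorem c21_4 : ¬ ESB (caseOf 4 21 4) :=
  not_esb_of_sys s21_4_ok (by decide) (by decide) (by decide) (by decide)

theorem c23_1 : ¬ ESB (caseOf 4 23 1) :=
  not_esb_of_sys s23_1_ok (by decide) (by decide) (by decide) (by decide)

theorem c24_9 : ¬ ESB (caseOf 4 24 9) :=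
  not_esb_of_sys s24_9_ok (by decide) (by decide) (by decide) (by decide)

theorem c26_15 : ¬ ESB (caseOf 4 26 15) :=
  not_esb_of_sys s26_15_ok (by decide) (by decide) (by decide) (by decide)

theorem c28_2 : ¬ ESB (caseOf 4 28 2) :=
  not_esb_of_sys s28_2_ok (by decide) (by decide) (by decide) (by decide)

theorem c28_4 : ¬ ESB (caseOf 4 28 4) :=
  not_esb_of_sys s28_4_ok (by decide) (by decide) (by decide) (by decide)

theorem c28_7 : ¬ ESB (caseOf 4 28 7) :=
  not_esb_of_sys s28_7_ok (by decide) (by decide) (by decide) (by decide)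

theorem c28_13 : ¬ ESB (caseOf 4 28 13) :=
  not_esb_of_sys s28_13_ok (by decide) (by decide) (by decide) (by decide)

theorem c31_6 : ¬ ESB (caseOf 4 31 6) :=
  not_esb_of_sys s31_6_ok (by decide) (by decide) (by decide) (by decide)

def chunk19 : List (ℕ × ℕ) := [(6, 24), (9, 6), (10, 20), (13, 10), (17, 12), (18, 3), (19, 12),
  (20, 15), (21, 4), (23, 1), (24, 9), (26, 15), (28, 2), (28, 4), (28, 7), (28, 13), (31, 6)]

theorem chunk19_ok : ∀ p ∈ chunk19, ¬ ESB (caseOf 4 p.1 p.2) :=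
  List.forall_mem_cons.2 ⟨c6_24, List.forall_mem_cons.2 ⟨c9_6, List.forall_mem_cons.2 ⟨c10_20,
  List.forall_mem_cons.2 ⟨c13_10, List.forall_mem_cons.2 ⟨c17_12, List.forall_mem_cons.2 ⟨c18_3,
  List.forall_mem_cons.2 ⟨c19_12, List.forall_mem_cons.2 ⟨c20_15, List.forall_mem_cons.2 ⟨c21_4,
  List.forall_mem_cons.2 ⟨c23_1, List.forall_mem_cons.2 ⟨c24_9, List.forall_mem_cons.2 ⟨c26_15,
  List.forall_mem_cons.2 ⟨c28_2, List.forall_mem_cons.2 ⟨c28_4, List.forall_mem_cons.2 ⟨c28_7,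
  List.forall_mem_cons.2 ⟨c28_13, List.forall_mem_cons.2 ⟨c31_6, List.forall_mem_nil
  _⟩⟩⟩⟩⟩⟩⟩⟩⟩⟩⟩⟩⟩⟩⟩⟩⟩

theorem c2_8 : ¬ ESB (caseOf 4 2 8) :=
  not_esb_of_sys s2_8_ok (by decide) (by decide) (by decide) (by decide)

theorem c4_2 : ¬ ESB (caseOf 4 4 2) :=
  not_esb_of_sys s4_2_ok (by decide) (by decide) (by decide) (by decide)

theorem c7_11 : ¬ ESB (caseOf 4 7 11) :=
  not_esb_of_sys s7_11_ok (by decide) (by decide) (by decide) (by decide)

theorem c8_21 : ¬ ESB (caseOf 4 8 21) :=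
  not_esb_of_sys s8_21_ok (by decide) (by decide) (by decide) (by decide)

theorem c9_23 : ¬ ESB (caseOf 4 9 23) :=
  not_esb_of_sys s9_23_ok (by decide) (by decide) (by decide) (by decide)

theorem c12_11 : ¬ ESB (caseOf 4 12 11) :=
  not_esb_of_sys s12_11_ok (by decide) (by decide) (by decide) (by decide)

theorem c13_18 : ¬ ESB (caseOf 4 13 18) :=
  not_esb_of_sys s13_18_ok (by decide) (by decide) (by decide) (by decide)

theorem c15_8 : ¬ ESB (caseOf 4 15 8) :=
  not_esb_of_sys s15_8_ok (by decide) (by decide) (by decide) (by decide)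

theorem c15_9 : ¬ ESB (caseOf 4 15 9) :=
  not_esb_of_sys s15_9_ok (by decide) (by decide) (by decide) (by decide)

theorem c16_5 : ¬ ESB (caseOf 4 16 5) :=
  not_esb_of_sys s16_5_ok (by decide) (by decide) (by decide) (by decide)

theorem c16_14 : ¬ ESB (caseOf 4 16 14) :=
  not_esb_of_sys s16_14_ok (by decide) (by decide) (by decide) (by decide)

theorem c18_8 : ¬ ESB (caseOf 4 18 8) :=
  not_esb_of_sys s18_8_ok (by decide) (by decide) (by decide) (by decide)

theorem c19_7 : ¬ ESB (caseOf 4 19 7) :=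
  not_esb_of_sys s19_7_ok (by decide) (by decide) (by decide) (by decide)

theorem c25_12 : ¬ ESB (caseOf 4 25 12) :=
  not_esb_of_sys s25_12_ok (by decide) (by decide) (by decide) (by decide)

theorem c27_1 : ¬ ESB (caseOf 4 27 1) :=
  not_esb_of_sys s27_1_ok (by decide) (by decide) (by decide) (by decide)

theorem c28_3 : ¬ ESB (caseOf 4 28 3) :=
  not_esb_of_sys s28_3_ok (by decide) (by decide) (by decide) (by decide)

theorem c30_20 : ¬ ESB (caseOf 4 30 20) :=
  not_esb_of_sys s30_20_ok (by decide) (by decide) (by decide) (by decide)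

def chunk20 : List (ℕ × ℕ) := [(2, 8), (4, 2), (7, 11), (8, 21), (9, 23), (12, 11), (13, 18),
  (15, 8), (15, 9), (16, 5), (16, 14), (18, 8), (19, 7), (25, 12), (27, 1), (28, 3), (30, 20)]

theorem chunk20_ok : ∀ p ∈ chunk20, ¬ ESB (caseOf 4 p.1 p.2) :=
  List.forall_mem_cons.2 ⟨c2_8, List.forall_mem_cons.2 ⟨c4_2, List.forall_mem_cons.2 ⟨c7_11,
  List.forall_mem_cons.2 ⟨c8_21, List.forall_mem_cons.2 ⟨c9_23, List.forall_mem_cons.2 ⟨c12_11,
  List.forall_mem_cons.2 ⟨c13_18, List.forall_mem_cons.2 ⟨c15_8, List.forall_mem_cons.2 ⟨c15_9,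
  List.forall_mem_cons.2 ⟨c16_5, List.forall_mem_cons.2 ⟨c16_14, List.forall_mem_cons.2 ⟨c18_8,
  List.forall_mem_cons.2 ⟨c19_7, List.forall_mem_cons.2 ⟨c25_12, List.forall_mem_cons.2 ⟨c27_1,
  List.forall_mem_cons.2 ⟨c28_3, List.forall_mem_cons.2 ⟨c30_20, List.forall_mem_nil
  _⟩⟩⟩⟩⟩⟩⟩⟩⟩⟩⟩⟩⟩⟩⟩⟩⟩

theorem c6_1 : ¬ ESB (caseOf 4 6 1) :=
  not_esb_of_sys s6_1_ok (by decide) (by decide) (by decide) (by decide)

theorem c8_2 : ¬ ESB (caseOf 4 8 2) :=
  not_esb_of_sys s8_2_ok (by decide) (by decide) (by decide) (by decide)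

theorem c12_21 : ¬ ESB (caseOf 4 12 21) :=
  not_esb_of_sys s12_21_ok (by decide) (by decide) (by decide) (by decide)

theorem c13_3 : ¬ ESB (caseOf 4 13 3) :=
  not_esb_of_sys s13_3_ok (by decide) (by decide) (by decide) (by decide)

theorem c13_22 : ¬ ESB (caseOf 4 13 22) :=
  not_esb_of_sys s13_22_ok (by decide) (by decide) (by decide) (by decide)

theorem c13_23 : ¬ ESB (caseOf 4 13 23) :=
  not_esb_of_sys s13_23_ok (by decide) (by decide) (by decide) (by decide)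

theorem c14_3 : ¬ ESB (caseOf 4 14 3) :=
  not_esb_of_sys s14_3_ok (by decide) (by decide) (by decide) (by decide)

theorem c14_6 : ¬ ESB (caseOf 4 14 6) :=
  not_esb_of_sys s14_6_ok (by decide) (by decide) (by decide) (by decide)

theorem c15_1 : ¬ ESB (caseOf 4 15 1) :=
  not_esb_of_sys s15_1_ok (by decide) (by decide) (by decide) (by decide)

theorem c16_8 : ¬ ESB (caseOf 4 16 8) :=
  not_esb_of_sys s16_8_ok (by decide) (by decide) (by decide) (by decide)

theorem c16_15 : ¬ ESB (caseOf 4 16 15) :=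
  not_esb_of_sys s16_15_ok (by decide) (by decide) (by decide) (by decide)

theorem c19_9 : ¬ ESB (caseOf 4 19 9) :=
  not_esb_of_sys s19_9_ok (by decide) (by decide) (by decide) (by decide)

theorem c20_13 : ¬ ESB (caseOf 4 20 13) :=
  not_esb_of_sys s20_13_ok (by decide) (by decide) (by decide) (by decide)

theorem c21_15 : ¬ ESB (caseOf 4 21 15) :=
  not_esb_of_sys s21_15_ok (by decide) (by decide) (by decide) (by decide)

theorem c23_9 : ¬ ESB (caseOf 4 23 9) :=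
  not_esb_of_sys s23_9_ok (by decide) (by decide) (by decide) (by decide)

theorem c27_9 : ¬ ESB (caseOf 4 27 9) :=
  not_esb_of_sys s27_9_ok (by decide) (by decide) (by decide) (by decide)

theorem c28_9 : ¬ ESB (caseOf 4 28 9) :=
  not_esb_of_sys s28_9_ok (by decide) (by decide) (by decide) (by decide)

theorem c29_23 : ¬ ESB (caseOf 4 29 23) :=
  not_esb_of_sys s29_23_ok (by decide) (by decide) (by decide) (by decide)

def chunk21 : List (ℕ × ℕ) := [(6, 1), (8, 2), (12, 21), (13, 3), (13, 22), (13, 23), (14, 3),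
  (14, 6), (15, 1), (16, 8), (16, 15), (19, 9), (20, 13), (21, 15), (23, 9), (27, 9), (28, 9),
  (29, 23)]

theorem chunk21_ok : ∀ p ∈ chunk21, ¬ ESB (caseOf 4 p.1 p.2) :=
  List.forall_mem_cons.2 ⟨c6_1, List.forall_mem_cons.2 ⟨c8_2, List.forall_mem_cons.2 ⟨c12_21,
  List.forall_mem_cons.2 ⟨c13_3, List.forall_mem_cons.2 ⟨c13_22, List.forall_mem_cons.2 ⟨c13_23,
  List.forall_mem_cons.2 ⟨c14_3, List.forall_mem_cons.2 ⟨c14_6, List.forall_mem_cons.2 ⟨c15_1,
  List.forall_mem_cons.2 ⟨c16_8, List.forall_mem_cons.2 ⟨c16_15, List.forall_mem_cons.2 ⟨c19_9,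
  List.forall_mem_cons.2 ⟨c20_13, List.forall_mem_cons.2 ⟨c21_15, List.forall_mem_cons.2 ⟨c23_9,
  List.forall_mem_cons.2 ⟨c27_9, List.forall_mem_cons.2 ⟨c28_9, List.forall_mem_cons.2 ⟨c29_23,
  List.forall_mem_nil _⟩⟩⟩⟩⟩⟩⟩⟩⟩⟩⟩⟩⟩⟩⟩⟩⟩⟩

theorem c2_1 : ¬ ESB (caseOf 4 2 1) :=
  not_esb_of_sys s2_1_ok (by decide) (by decide) (by decide) (by decide)

theorem c6_20 : ¬ ESB (caseOf 4 6 20) :=
  not_esb_of_sys s6_20_ok (by decide) (by decide) (by decide) (by decide)

theorem c11_20 : ¬ ESB (caseOf 4 11 20) :=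
  not_esb_of_sys s11_20_ok (by decide) (by decide) (by decide) (by decide)

theorem c12_22 : ¬ ESB (caseOf 4 12 22) :=
  not_esb_of_sys s12_22_ok (by decide) (by decide) (by decide) (by decide)

theorem c15_2 : ¬ ESB (caseOf 4 15 2) :=
  not_esb_of_sys s15_2_ok (by decide) (by decide) (by decide) (by decide)

theorem c15_22 : ¬ ESB (caseOf 4 15 22) :=
  not_esb_of_sys s15_22_ok (by decide) (by decide) (by decide) (by decide)

theorem c16_10 : ¬ ESB (caseOf 4 16 10) :=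
  not_esb_of_sys s16_10_ok (by decide) (by decide) (by decide) (by decide)

theorem c17_1 : ¬ ESB (caseOf 4 17 1) :=
  not_esb_of_sys s17_1_ok (by decide) (by decide) (by decide) (by decide)

theorem c18_7 : ¬ ESB (caseOf 4 18 7) :=
  not_esb_of_sys s18_7_ok (by decide) (by decide) (by decide) (by decide)

theorem c21_6 : ¬ ESB (caseOf 4 21 6) :=
  not_esb_of_sys s21_6_ok (by decide) (by decide) (by decide) (by decide)

theorem c23_11 : ¬ ESB (caseOf 4 23 11) :=
  not_esb_of_sys s23_11_ok (by decide) (by decide) (by decide) (by decide)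

theorem c24_4 : ¬ ESB (caseOf 4 24 4) :=
  not_esb_of_sys s24_4_ok (by decide) (by decide) (by decide) (by decide)

theorem c24_6 : ¬ ESB (caseOf 4 24 6) :=
  not_esb_of_sys s24_6_ok (by decide) (by decide) (by decide) (by decide)

theorem c25_10 : ¬ ESB (caseOf 4 25 10) :=
  not_esb_of_sys s25_10_ok (by decide) (by decide) (by decide) (by decide)

theorem c25_14 : ¬ ESB (caseOf 4 25 14) :=
  not_esb_of_sys s25_14_ok (by decide) (by decide) (by decide) (by decide)

theorem c25_15 : ¬ ESB (caseOf 4 25 15) :=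
  not_esb_of_sys s25_15_ok (by decide) (by decide) (by decide) (by decide)

theorem c26_8 : ¬ ESB (caseOf 4 26 8) :=
  not_esb_of_sys s26_8_ok (by decide) (by decide) (by decide) (by decide)

theorem c29_3 : ¬ ESB (caseOf 4 29 3) :=
  not_esb_of_sys s29_3_ok (by decide) (by decide) (by decide) (by decide)

def chunk22 : List (ℕ × ℕ) := [(2, 1), (6, 20), (11, 20), (12, 22), (15, 2), (15, 22), (16, 10),
  (17, 1), (18, 7), (21, 6), (23, 11), (24, 4), (24, 6), (25, 10), (25, 14), (25, 15), (26, 8),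
  (29, 3)]

theorem chunk22_ok : ∀ p ∈ chunk22, ¬ ESB (caseOf 4 p.1 p.2) :=
  List.forall_mem_cons.2 ⟨c2_1, List.forall_mem_cons.2 ⟨c6_20, List.forall_mem_cons.2 ⟨c11_20,
  List.forall_mem_cons.2 ⟨c12_22, List.forall_mem_cons.2 ⟨c15_2, List.forall_mem_cons.2 ⟨c15_22,
  List.forall_mem_cons.2 ⟨c16_10, List.forall_mem_cons.2 ⟨c17_1, List.forall_mem_cons.2 ⟨c18_7,
  List.forall_mem_cons.2 ⟨c21_6, List.forall_mem_cons.2 ⟨c23_11, List.forall_mem_cons.2 ⟨c24_4,
  List.forall_mem_cons.2 ⟨c24_6, List.forall_mem_cons.2 ⟨c25_10, List.forall_mem_cons.2 ⟨c25_14,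
  List.forall_mem_cons.2 ⟨c25_15, List.forall_mem_cons.2 ⟨c26_8, List.forall_mem_cons.2 ⟨c29_3,
  List.forall_mem_nil _⟩⟩⟩⟩⟩⟩⟩⟩⟩⟩⟩⟩⟩⟩⟩⟩⟩⟩

theorem c3_12 : ¬ ESB (caseOf 4 3 12) :=
  not_esb_of_sys s3_12_ok (by decide) (by decide) (by decide) (by decide)

theorem c3_16 : ¬ ESB (caseOf 4 3 16) :=
  not_esb_of_sys s3_16_ok (by decide) (by decide) (by decide) (by decide)

theorem c3_28 : ¬ ESB (caseOf 4 3 28) :=
  not_esb_of_sys s3_28_ok (by decide) (by decide) (by decide) (by decide)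

theorem c4_1 : ¬ ESB (caseOf 4 4 1) :=
  not_esb_of_sys s4_1_ok (by decide) (by decide) (by decide) (by decide)

theorem c7_9 : ¬ ESB (caseOf 4 7 9) :=
  not_esb_of_sys s7_9_ok (by decide) (by decide) (by decide) (by decide)

theorem c9_18 : ¬ ESB (caseOf 4 9 18) :=
  not_esb_of_sys s9_18_ok (by decide) (by decide) (by decide) (by decide)

theorem c13_7 : ¬ ESB (caseOf 4 13 7) :=
  not_esb_of_sys s13_7_ok (by decide) (by decide) (by decide) (by decide)

theorem c17_2 : ¬ ESB (caseOf 4 17 2) :=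
  not_esb_of_sys s17_2_ok (by decide) (by decide) (by decide) (by decide)

theorem c17_3 : ¬ ESB (caseOf 4 17 3) :=
  not_esb_of_sys s17_3_ok (by decide) (by decide) (by decide) (by decide)

theorem c19_1 : ¬ ESB (caseOf 4 19 1) :=
  not_esb_of_sys s19_1_ok (by decide) (by decide) (by decide) (by decide)

theorem c20_5 : ¬ ESB (caseOf 4 20 5) :=
  not_esb_of_sys s20_5_ok (by decide) (by decide) (by decide) (by decide)

theorem c21_13 : ¬ ESB (caseOf 4 21 13) :=
  not_esb_of_sys s21_13_ok (by decide) (by decide) (by decide) (by decide)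

theorem c25_6 : ¬ ESB (caseOf 4 25 6) :=
  not_esb_of_sys s25_6_ok (by decide) (by decide) (by decide) (by decide)

theorem c25_13 : ¬ ESB (caseOf 4 25 13) :=
  not_esb_of_sys s25_13_ok (by decide) (by decide) (by decide) (by decide)

theorem c25_23 : ¬ ESB (caseOf 4 25 23) :=
  not_esb_of_sys s25_23_ok (by decide) (by decide) (by decide) (by decide)

theorem c28_15 : ¬ ESB (caseOf 4 28 15) :=
  not_esb_of_sys s28_15_ok (by decide) (by decide) (by decide) (by decide)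

theorem c29_10 : ¬ ESB (caseOf 4 29 10) :=
  not_esb_of_sys s29_10_ok (by decide) (by decide) (by decide) (by decide)

theorem c29_11 : ¬ ESB (caseOf 4 29 11) :=
  not_esb_of_sys s29_11_ok (by decide) (by decide) (by decide) (by decide)

def chunk23 : List (ℕ × ℕ) := [(3, 12), (3, 16), (3, 28), (4, 1), (7, 9), (9, 18), (13, 7), (17,
  2), (17, 3), (19, 1), (20, 5), (21, 13), (25, 6), (25, 13), (25, 23), (28, 15), (29, 10), (29,
  11)]

theorem chunk23_ok : ∀ p ∈ chunk23, ¬ ESB (caseOf 4 p.1 p.2) :=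
  List.forall_mem_cons.2 ⟨c3_12, List.forall_mem_cons.2 ⟨c3_16, List.forall_mem_cons.2 ⟨c3_28,
  List.forall_mem_cons.2 ⟨c4_1, List.forall_mem_cons.2 ⟨c7_9, List.forall_mem_cons.2 ⟨c9_18,
  List.forall_mem_cons.2 ⟨c13_7, List.forall_mem_cons.2 ⟨c17_2, List.forall_mem_cons.2 ⟨c17_3,
  List.forall_mem_cons.2 ⟨c19_1, List.forall_mem_cons.2 ⟨c20_5, List.forall_mem_cons.2 ⟨c21_13,
  List.forall_mem_cons.2 ⟨c25_6, List.forall_mem_cons.2 ⟨c25_13, List.forall_mem_cons.2 ⟨c25_23,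
  List.forall_mem_cons.2 ⟨c28_15, List.forall_mem_cons.2 ⟨c29_10, List.forall_mem_cons.2
  ⟨c29_11, List.forall_mem_nil _⟩⟩⟩⟩⟩⟩⟩⟩⟩⟩⟩⟩⟩⟩⟩⟩⟩⟩

def chunkX : List (ℕ × ℕ) := [(12, 1), (13, 1), (24, 1), (25, 1), (28, 1), (29, 1), (8, 3), (8,
  5), (8, 17), (8, 19), (16, 7), (16, 11), (16, 13), (10, 16), (11, 16), (14, 16), (15, 16)]

theorem c12_1 : ¬ ESB (caseOf 4 12 1) := const_case 1 (by decide)

theorem c13_1 : ¬ ESB (caseOf 4 13 1) := const_case 1 (by decide)

theorem c24_1 : ¬ ESB (caseOf 4 24 1) := const_case 2 (by decide)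

theorem c25_1 : ¬ ESB (caseOf 4 25 1) := const_case 2 (by decide)

theorem c28_1 : ¬ ESB (caseOf 4 28 1) := const_case 2 (by decide)

theorem c29_1 : ¬ ESB (caseOf 4 29 1) := const_case 2 (by decide)

theorem c8_3 : ¬ ESB (caseOf 4 8 3) := zero_case3 (by decide) (by decide)

theorem c8_5 : ¬ ESB (caseOf 4 8 5) := zero_case3 (by decide) (by decide)

theorem c8_17 : ¬ ESB (caseOf 4 8 17) := zero_case3 (by decide) (by decide)

theorem c8_19 : ¬ ESB (caseOf 4 8 19) := zero_case3 (by decide) (by decide)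

theorem c16_7 : ¬ ESB (caseOf 4 16 7) := zero_case4 (by decide) (by decide)

theorem c16_11 : ¬ ESB (caseOf 4 16 11) := zero_case4 (by decide) (by decide)

theorem c16_13 : ¬ ESB (caseOf 4 16 13) := zero_case4 (by decide) (by decide)

theorem c10_16 : ¬ ESB (caseOf 4 10 16) := not_esb_10_16

theorem c11_16 : ¬ ESB (caseOf 4 11 16) := not_esb_11_16

theorem c14_16 : ¬ ESB (caseOf 4 14 16) := not_esb_14_16

theorem c15_16 : ¬ ESB (caseOf 4 15 16) := not_esb_15_16

theorem chunkX_ok : ∀ p ∈ chunkX, ¬ ESB (caseOf 4 p.1 p.2) :=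
  List.forall_mem_cons.2 ⟨c12_1, List.forall_mem_cons.2 ⟨c13_1, List.forall_mem_cons.2 ⟨c24_1,
  List.forall_mem_cons.2 ⟨c25_1, List.forall_mem_cons.2 ⟨c28_1, List.forall_mem_cons.2 ⟨c29_1,
  List.forall_mem_cons.2 ⟨c8_3, List.forall_mem_cons.2 ⟨c8_5, List.forall_mem_cons.2 ⟨c8_17,
  List.forall_mem_cons.2 ⟨c8_19, List.forall_mem_cons.2 ⟨c16_7, List.forall_mem_cons.2 ⟨c16_11,
  List.forall_mem_cons.2 ⟨c16_13, List.forall_mem_cons.2 ⟨c10_16, List.forall_mem_cons.2
  ⟨c11_16, List.forall_mem_cons.2 ⟨c14_16, List.forall_mem_cons.2 ⟨c15_16, List.forall_mem_nil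
  _⟩⟩⟩⟩⟩⟩⟩⟩⟩⟩⟩⟩⟩⟩⟩⟩⟩

/-- all 417 cases -/
def chunks : List (List (ℕ × ℕ)) := [chunk00, chunk01, chunk02, chunk03, chunk04, chunk05,
  chunk06, chunk07, chunk08, chunk09, chunk10, chunk11, chunk12, chunk13, chunk14, chunk15,
  chunk16, chunk17, chunk18, chunk19, chunk20, chunk21, chunk22, chunk23, chunkX]

theorem chunks_ok : ∀ l ∈ chunks, ∀ p ∈ l, ¬ ESB (caseOf 4 p.1 p.2) :=
  List.forall_mem_cons.2 ⟨chunk00_ok, List.forall_mem_cons.2 ⟨chunk01_ok, List.forall_mem_cons.2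
  ⟨chunk02_ok, List.forall_mem_cons.2 ⟨chunk03_ok, List.forall_mem_cons.2 ⟨chunk04_ok,
  List.forall_mem_cons.2 ⟨chunk05_ok, List.forall_mem_cons.2 ⟨chunk06_ok, List.forall_mem_cons.2
  ⟨chunk07_ok, List.forall_mem_cons.2 ⟨chunk08_ok, List.forall_mem_cons.2 ⟨chunk09_ok,
  List.forall_mem_cons.2 ⟨chunk10_ok, List.forall_mem_cons.2 ⟨chunk11_ok, List.forall_mem_cons.2
  ⟨chunk12_ok, List.forall_mem_cons.2 ⟨chunk13_ok, List.forall_mem_cons.2 ⟨chunk14_ok,
  List.forall_mem_cons.2 ⟨chunk15_ok, List.forall_mem_cons.2 ⟨chunk16_ok, List.forall_mem_cons.2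
  ⟨chunk17_ok, List.forall_mem_cons.2 ⟨chunk18_ok, List.forall_mem_cons.2 ⟨chunk19_ok,
  List.forall_mem_cons.2 ⟨chunk20_ok, List.forall_mem_cons.2 ⟨chunk21_ok, List.forall_mem_cons.2
  ⟨chunk22_ok, List.forall_mem_cons.2 ⟨chunk23_ok, List.forall_mem_cons.2 ⟨chunkX_ok,
  List.forall_mem_nil _⟩⟩⟩⟩⟩⟩⟩⟩⟩⟩⟩⟩⟩⟩⟩⟩⟩⟩⟩⟩⟩⟩⟩⟩⟩

end Pool.Agent.H81.RDE
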