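import Mathlib

/-!
# Boundedness counts for rational difference equations: common definitions

Everything is in logarithmic coordinates to base `5`: a positive solution is `x n = 5 ^ (y n)`, and the
coefficient of a term is `5 ^ a` with an integer `a`.
A term is a pair `(i, a)`: `i = 0` is the constant term and `1 ≤ i ≤ 4` is the term `x_{n-i}`.
-/

namespace Pool.Agent.H81.RDE

/-- `u = log_5 (∑ 5 ^ v)`. -/
def LSE (l : List ℝ) (u : ℝ) : Prop := (5 : ℝ) ^ u = (l.map fun v => (5 : ℝ) ^ v).sum

/-- The logarithms of the terms of a numerator or denominator at time `n`. -/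
def tv (L : List (ℕ × ℤ)) (y : ℕ → ℝ) (n : ℕ) : List ℝ :=
  L.map fun p => (p.2 : ℝ) + (if p.1 = 0 then 0 else y (n - p.1))

/-- `y` is the logarithm of a positive solution, `y 0, …, y 3` being the initial values. -/
def Orbit (N D : List (ℕ × ℤ)) (y : ℕ → ℝ) : Prop :=
  ∀ n, 4 ≤ n → ∃ u v, LSE (tv N y n) u ∧ LSE (tv D y n) v ∧ y n = u - v

/-! ### Linear forms with integer coefficients (lists, missing entries are zero) -/

/-- `a₀ t₀ + a₁ t₁ + …` -/
def ev : List ℤ → List ℝ → ℝ
  | [], _ => 0
  | _ :: _, [] => 0
  | a :: as, t :: ts => a * t + ev as ts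

def addL : List ℤ → List ℤ → List ℤ
  | [], b => b
  | a :: as, [] => a :: as
  | a :: as, b :: bs => (a + b) :: addL as bs

def smulL (k : ℤ) : List ℤ → List ℤ
  | [] => []
  | a :: as => (k * a) :: smulL k as

def isNonneg : ℤ → Bool
  | Int.ofNat _ => true
  | Int.negSucc _ => false

def isZero : ℤ → Bool
  | Int.ofNat n => Nat.beq n 0
  | Int.negSucc _ => false

def allZero : List ℤ → Bool
  | [] => true
  | a :: as => isZero a && allZero as

/-- An affine form `co · t + c` with an error radius `r`. -/
structure Form where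
  co : List ℤ
  c : ℤ
  r : ℕ

/-- A hypothesis `0 ≤ co · t + c`. -/
structure Hyp where
  co : List ℤ
  c : ℤ

def Hyp.Holds (h : Hyp) (t : List ℝ) : Prop := 0 ≤ ev h.co t + h.c

/-- The real value `x` is described by the form `f`, the unit of error being `ε`. -/
def Form.Describes (f : Form) (ε : ℝ) (t : List ℝ) (x : ℝ) : Prop :=
  |x - (ev f.co t + f.c)| ≤ f.r * ε

def Form.sub (f g : Form) : Form := ⟨addL f.co (smulL (-1) g.co), f.c - g.c, f.r + g.r⟩

/-- add an integer constant -/
def Form.addc (f : Form) (a : ℤ) : Form := ⟨f.co, f.c + a, f.r⟩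

/-- add `k` units of error -/
def Form.blur (f : Form) (k : ℕ) : Form := ⟨f.co, f.c, f.r + k⟩

/-- From `x ≥ y` (actual values) we know `0 ≤ (f - g) · t + c + (radii)`. -/
def hypGe (f g : Form) : Hyp := ⟨addL f.co (smulL (-1) g.co), f.c - g.c + (f.r + g.r : ℕ)⟩

/-- `H.getD`, written out. -/
def getH : List Hyp → ℕ → Hyp
  | [], _ => ⟨[], 0⟩
  | h :: _, 0 => h
  | _ :: hs, k + 1 => getH hs k

/-- a nonnegative combination of hypotheses (positions counted from the head, multipliers) -/
def comb (H : List Hyp) : List (ℕ × ℕ) → Hyp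
  | [] => ⟨[], 0⟩
  | (i, m) :: l =>
    let h := getH H i
    let s := comb H l
    ⟨addL (smulL m h.co) s.co, m * h.c + s.c⟩

/-- A certificate for an inequality: a positive multiplier and a combination of hypotheses. -/
structure Cert where
  den : ℕ
  lam : List (ℕ × ℕ)

/-- `C` proves `0 ≤ f · t + c` from the hypotheses `H`. -/
def ineq (H : List Hyp) (f : List ℤ) (c : ℤ) (C : Cert) : Bool :=
  let s := comb H C.lam
  Nat.blt 0 C.den && allZero (addL (smulL C.den f) (smulL (-1) s.co)) && isNonneg (C.den * c - s.c)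

/-- the combination `l` of the hypotheses `H` is contradictory -/
def contra (H : List Hyp) (l : List (ℕ × ℕ)) : Bool :=
  let s := comb H l
  allZero s.co && isNonneg (-s.c - 1)

/-- the forms of the terms (`F` describes `y (n-1), y (n-2), …`) -/
def termForm (F : List Form) (p : ℕ × ℤ) : Option Form :=
  match p.1 with
  | 0 => some ⟨[], p.2, 0⟩
  | i + 1 => (F[i]?).map fun f => f.addc p.2

def termForms (F : List Form) : List (ℕ × ℤ) → Option (List Form)
  | [] => some []
  | p :: ps =>
    match termForm F p, termForms F ps with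
    | some f, some fs => some (f :: fs)
    | _, _ => none

/-- hypotheses the value `v` is at least each of `ws`, newest first -/
def addGe (v : Form) (ws : List Form) (H : List Hyp) : List Hyp :=
  ws.foldl (fun H w => hypGe v w :: H) H

/-- certificates that `v` is at least each of `ws` (even with the radii) -/
def domin (H : List Hyp) (v : Form) : List Form → List Cert → Bool
  | [], [] => true
  | w :: ws, C :: Cs =>
    ineq H (addL v.co (smulL (-1) w.co)) (v.c - w.c - (v.r + w.r : ℕ)) C && domin H v ws Cs
  | _, _ => false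

/-- linear combination of forms -/
def combF : List ℤ → List Form → Form
  | [], _ => ⟨[], 0, 0⟩
  | _ :: _, [] => ⟨[], 0, 0⟩
  | a :: as, f :: fs =>
    let s := combF as fs
    ⟨addL (smulL a f.co) s.co, a * f.c + s.c, a.natAbs * f.r + s.r⟩

/-- `a₀ y(n-1) + a₁ y(n-2) + …` -/
def evy : List ℤ → (ℕ → ℝ) → ℕ → ℝ
  | [], _, _ => 0
  | a :: as, y, n => a * y (n - 1) + evy as y (n - 1)

/-- A claim `co · (y(n-1), y(n-2), …) ≥ k`. -/
structure Claim where
  co : List ℤ
  k : ℤ

def Claim.Holds (c : Claim) (y : ℕ → ℝ) (n : ℕ) : Prop := (c.k : ℝ) ≤ evy c.co y n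

/-- check the claims with the certificates -/
def claims (H : List Hyp) (F : List Form) : List Claim → List Cert → Bool
  | [], [] => true
  | c :: cs, C :: Cs =>
    let f := combF c.co F
    Nat.ble c.co.length F.length && ineq H f.co (f.c - f.r - c.k) C && claims H F cs Cs
  | _, _ => false

/-- `F` describes the last values before time `n`. -/
def Valid (ε : ℝ) (t : List ℝ) (y : ℕ → ℝ) (n : ℕ) (F : List Form) : Prop :=
  F.length ≤ n ∧ ∀ k (f : Form), F[k]? = some f → f.Describes ε t (y (n - 1 - k))

end Pool.Agent.H81.RDE
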