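import Pool.Agent.H81.RDE.Tree
import Pool.Agent.H81.RDE.Linear
import Pool.Agent.H81.RDE.LSELemmas

/-!
# [H81 RDE SOUND] Soundness of the certificate trees

`check_sound`: if the tree is accepted in the state `F` (forms describing `y (n-1), y (n-2), …` as affine
functions of the base window `t`, with error radii in units of `1`) and `H` (true hypotheses on `t`),
then after some steps, at a time `m ≥ n`, all claims of some leaf label `l` hold.

Proof by induction on the tree, simultaneously for all modes. The invariant of the modes
(`ModeOK` below):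
* `node none`: nothing.
* `node (some u)`: `u` describes the logarithm `U` of the numerator at time `n`, where
  `LSE (tv N y n) U`, `LSE (tv D y n) V`, `y n = U - V` for some `V`.
* `chN before todo`: `before ++ todo` describes the terms `tv N y n`, and the index `i` of the
  largest term is `≥ before.length` (so when `todo = []` there is a contradiction: `i <
  (tv N y n).length = before.length`).
* `chD u before todo`: `u` describes `U`, `before ++ todo` describes the terms `tv D y n`, and the index
  of the largest term is `≥ before.length`.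
Steps:
* `prune`: `contra_sound`.
* `nbr`: `termForms_sound`, the index of the largest term exists by `exists_max_of_ne_nil` (if
  `tv N y n = []` then `LSE [] U` would say `5 ^ U = 0`, impossible).
* `cons t rest` in mode `chN before (v :: todo)`: if the index `i` is `before.length` then the actual value
  `x` of `v` is `≥` all terms, so `addGe_holds` applies to the others, and `v.blur 1` describes `U`
  since `x ≤ U ≤ x + 1` (`LSE.le`, `LSE.le_add_one`; here `N.length ≤ 5` is used); otherwise the index is
  `≥ before.length + 1 = (before ++ [v]).length`.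
* `cons` in mode `chD`: same, and `y n = U - V` is described by `u.sub (v.blur 1)`; then apply the
  induction hypothesis at time `n + 1` (`Valid.cons`); `F.length + (m - n)` is
  `(F.length + 1) + (m - (n + 1))` because `m ≥ n + 1`.
* `ndet i cs t`: `vs[i]? = some v`, `domin_sound` shows that the value of `v` is at least all the others,
  so it is the largest term.
* `split f c`: the sign of `ev f t + c`.
* `leaf`: `claims_sound`, with `m = n`.
-/

namespace Pool.Agent.H81.RDE

/-- The invariant of the modes. -/
def ModeOK (N D : List (ℕ × ℤ)) (t : List ℝ) (y : ℕ → ℝ) (n : ℕ) : Mode → Prop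
  | .node none => True
  | .node (some u) => ∃ U V, LSE (tv N y n) U ∧ LSE (tv D y n) V ∧ y n = U - V ∧ u.Describes 1 t U
  | .chN before todo =>
    List.Forall₂ (fun f x => f.Describes 1 t x) (before ++ todo) (tv N y n) ∧
      ∃ i v, before.length ≤ i ∧ (tv N y n)[i]? = some v ∧ ∀ w ∈ tv N y n, w ≤ v
  | .chD u before todo =>
    (∃ U V, LSE (tv N y n) U ∧ LSE (tv D y n) V ∧ y n = U - V ∧ u.Describes 1 t U) ∧
    List.Forall₂ (fun f x => f.Describes 1 t x) (before ++ todo) (tv D y n) ∧
      ∃ i v, before.length ≤ i ∧ (tv D y n)[i]? = some v ∧ ∀ w ∈ tv D y n, w ≤ v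

theorem forall2_split {α β : Type*} {R : α → β → Prop} {a : List α} {b : α} {c : List α} :
    ∀ {l : List β}, List.Forall₂ R (a ++ b :: c) l →
      ∃ l1 x l2, l = l1 ++ x :: l2 ∧ List.Forall₂ R a l1 ∧ R b x ∧ List.Forall₂ R c l2 := by
  induction a with
  | nil =>
    intro l h
    cases h with
    | cons h1 h2 => exact ⟨[], _, _, rfl, List.Forall₂.nil, h1, h2⟩
  | cons a0 a ih =>
    intro l h
    cases h with
    | cons h1 h2 =>
      obtain ⟨l1, x, l2, rfl, h3, h4, h5⟩ := ih h2
      exact ⟨_ :: l1, x, l2, rfl, List.Forall₂.cons h1 h3, h4, h5⟩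

theorem forall2_append {α β : Type*} {R : α → β → Prop} {a c : List α} {l l' : List β}
    (h : List.Forall₂ R a l) (h' : List.Forall₂ R c l') : List.Forall₂ R (a ++ c) (l ++ l') := by
  induction h with
  | nil => exact h'
  | cons h1 _ ih => exact List.Forall₂.cons h1 ih

theorem forall2_eraseIdx {α β : Type*} {R : α → β → Prop} {a : List α} {l : List β}
    (h : List.Forall₂ R a l) : ∀ i, List.Forall₂ R (a.eraseIdx i) (l.eraseIdx i) := by
  induction h with
  | nil => intro i; exact List.Forall₂.nil
  | cons h1 h2 ih =>
    intro i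
    cases i with
    | zero => exact h2
    | succ i => exact List.Forall₂.cons h1 (ih i)

theorem forall2_get {α β : Type*} {R : α → β → Prop} {a : List α} {l : List β}
    (h : List.Forall₂ R a l) : ∀ (i : ℕ) (v : α), a[i]? = some v → ∃ x, l[i]? = some x ∧ R v x := by
  induction h with
  | nil => intro i v hv; simp at hv
  | cons h1 h2 ih =>
    intro i v hv
    cases i with
    | zero =>
      simp only [List.getElem?_cons_zero, Option.some.injEq] at hv
      subst hv
      exact ⟨_, rfl, h1⟩
    | succ i =>
      simp only [List.getElem?_cons_succ] at hv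
      obtain ⟨x, hx, hr⟩ := ih i v hv
      exact ⟨x, by simpa only [List.getElem?_cons_succ] using hx, hr⟩

theorem mem_or_mem_eraseIdx {β : Type*} {l : List β} :
    ∀ {i : ℕ} {x w : β}, l[i]? = some x → w ∈ l → w = x ∨ w ∈ l.eraseIdx i := by
  induction l with
  | nil => intro i x w _ hw; simp at hw
  | cons a l ih =>
    intro i x w hx hw
    cases i with
    | zero =>
      simp only [List.getElem?_cons_zero, Option.some.injEq] at hx
      subst hx
      simp only [List.mem_cons] at hw
      exact hw
    | succ i =>
      simp only [List.getElem?_cons_succ] at hx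
      simp only [List.mem_cons] at hw
      rcases hw with rfl | hw
      · right; simp
      · rcases ih hx hw with h | h
        · exact Or.inl h
        · right; simp [h]

theorem length_tv (L : List (ℕ × ℤ)) (y : ℕ → ℝ) (n : ℕ) : (tv L y n).length = L.length := by
  simp [tv]

/-- the largest term describes the logarithm of the sum -/
theorem describes_max {L : List (ℕ × ℤ)} {y : ℕ → ℝ} {n : ℕ} {t : List ℝ} {U x : ℝ} {v : Form}
    (hL : L.length ≤ 5) (hU : LSE (tv L y n) U) (hx : x ∈ tv L y n) (hmax : ∀ w ∈ tv L y n, w ≤ x)
    (hv : v.Describes 1 t x) : (v.blur 1).Describes 1 t U := by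
  have h1 : x ≤ U := hU.le hx
  have h2 : U ≤ x + 1 := hU.le_add_one (by rw [length_tv]; exact hL) hmax
  refine Describes.blur hv 1 h1 ?_
  push_cast
  linarith

/-- one case distinction -/
theorem cons_step {L : List (ℕ × ℤ)} {y : ℕ → ℝ} {n : ℕ} {t : List ℝ} {before todo : List Form}
    {v : Form} {H : List Hyp} (hH : ∀ h ∈ H, h.Holds t)
    (h1 : List.Forall₂ (fun f x => f.Describes 1 t x) (before ++ v :: todo) (tv L y n))
    (h2 : ∃ i x, before.length ≤ i ∧ (tv L y n)[i]? = some x ∧ ∀ w ∈ tv L y n, w ≤ x) :
    (∃ x, x ∈ tv L y n ∧ (∀ w ∈ tv L y n, w ≤ x) ∧ v.Describes 1 t x ∧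
      ∀ h ∈ addGe v (before ++ todo) H, h.Holds t) ∨
    (List.Forall₂ (fun f x => f.Describes 1 t x) ((before ++ [v]) ++ todo) (tv L y n) ∧
      ∃ i x, (before ++ [v]).length ≤ i ∧ (tv L y n)[i]? = some x ∧ ∀ w ∈ tv L y n, w ≤ x) := by
  obtain ⟨i, x, hi, hx, hmax⟩ := h2
  rcases Nat.eq_or_lt_of_le hi with hi' | hi'
  · left
    obtain ⟨l1, x', l2, hl, h3, h4, h5⟩ := forall2_split h1
    have hlen : before.length = l1.length := h3.length_eq
    have hxx : x' = x := by
      rw [hl, ← hi', hlen] at hx
      simpa using hx
    subst hxx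
    have hmem : x' ∈ tv L y n := by rw [hl]; simp
    refine ⟨x', hmem, hmax, h4, ?_⟩
    refine addGe_holds (ε := 1) (ys := l1 ++ l2) zero_le_one le_rfl hH h4 (forall2_append h3 h5) ?_
    intro w hw
    apply hmax
    rw [hl]
    simp only [List.mem_append, List.mem_cons] at hw ⊢
    tauto
  · right
    refine ⟨by simpa using h1, i, x, ?_, hx, hmax⟩
    simp only [List.length_append, List.length_cons, List.length_nil]
    omega

/-- the end of a case distinction -/
theorem nil_step {L : List (ℕ × ℤ)} {y : ℕ → ℝ} {n : ℕ} {t : List ℝ} {before : List Form}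
    (h1 : List.Forall₂ (fun f x => f.Describes 1 t x) (before ++ []) (tv L y n))
    (h2 : ∃ i x, before.length ≤ i ∧ (tv L y n)[i]? = some x ∧ ∀ w ∈ tv L y n, w ≤ x) : False := by
  obtain ⟨i, x, hi, hx, -⟩ := h2
  rw [List.append_nil] at h1
  have hlen := h1.length_eq
  rw [hlen] at hi
  rw [List.getElem?_eq_none hi] at hx
  cases hx

/-- the largest term is known -/
theorem det_step {L : List (ℕ × ℤ)} {y : ℕ → ℝ} {n : ℕ} {t : List ℝ} {vs : List Form} {i : ℕ}
    {v : Form} {H : List Hyp} {cs : List Cert} (hH : ∀ h ∈ H, h.Holds t)
    (h1 : List.Forall₂ (fun f x => f.Describes 1 t x) vs (tv L y n)) (hv : vs[i]? = some v)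
    (hd : domin H v (vs.eraseIdx i) cs = true) :
    ∃ x, x ∈ tv L y n ∧ (∀ w ∈ tv L y n, w ≤ x) ∧ v.Describes 1 t x := by
  obtain ⟨x, hx, hvx⟩ := forall2_get h1 i v hv
  have h2 := domin_sound zero_le_one le_rfl hH hvx (forall2_eraseIdx h1 i) hd
  refine ⟨x, List.mem_of_getElem? hx, ?_, hvx⟩
  intro w hw
  rcases mem_or_mem_eraseIdx hx hw with rfl | hw'
  · exact le_rfl
  · exact h2 w hw'

theorem tv_ne_nil_of_LSE {l : List ℝ} {u : ℝ} (h : LSE l u) : l ≠ [] := by
  rintro rfl
  unfold LSE at h
  simp only [List.map_nil, List.sum_nil] at h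
  exact absurd h (Real.rpow_pos_of_pos (by norm_num) u).ne'

theorem check_sound_aux {N D : List (ℕ × ℤ)} {obl : ℕ → ℕ → List Claim} {y : ℕ → ℝ}
    (hy : Orbit N D y) (hN : N.length ≤ 5) (hD : D.length ≤ 5) {t : List ℝ} (T : Tree) :
    ∀ (F : List Form) (H : List Hyp) (mo : Mode), check N D obl T F H mo = true →
      ∀ n, 4 ≤ n → Valid 1 t y n F → (∀ h ∈ H, h.Holds t) → ModeOK N D t y n mo →
        ∃ m l, n ≤ m ∧ ∀ c ∈ obl l (F.length + (m - n)), c.Holds y m := by
  induction T with
  | prune c =>
    intro F H mo h n hn hF hH hmo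
    rw [check] at h
    exact (contra_sound hH h).elim
  | nbr cs ih =>
    intro F H mo h n hn hF hH hmo
    match mo with
    | .node none =>
      rw [check] at h
      split at h
      · rename_i vs hvs
        obtain ⟨U, V, hU, hV, hUV⟩ := hy n hn
        obtain ⟨i, v, hi, hv⟩ := exists_max_of_ne_nil (tv_ne_nil_of_LSE hU)
        refine ih F H _ h n hn hF hH ⟨?_, i, v, Nat.zero_le _, hi, hv⟩
        simpa using termForms_sound zero_le_one hF hvs
      · cases h
    | .node (some u) => simp [check] at h
    | .chN b td => simp [check] at h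
    | .chD u b td => simp [check] at h
  | dbr cs ih =>
    intro F H mo h n hn hF hH hmo
    match mo with
    | .node (some u) =>
      rw [check] at h
      split at h
      · rename_i vs hvs
        have hmo' := hmo
        obtain ⟨U, V, hU, hV, hUV, hu⟩ := hmo
        obtain ⟨i, v, hi, hv⟩ := exists_max_of_ne_nil (tv_ne_nil_of_LSE hV)
        refine ih F H _ h n hn hF hH ⟨hmo', ?_, i, v, Nat.zero_le _, hi, hv⟩
        simpa using termForms_sound zero_le_one hF hvs
      · cases h
    | .node none => simp [check] at h
    | .chN b td => simp [check] at h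
    | .chD u b td => simp [check] at h
  | cons t' rest ih1 ih2 =>
    intro F H mo h n hn hF hH hmo
    match mo with
    | .chN b (v :: td) =>
      rw [check, Bool.and_eq_true] at h
      obtain ⟨h1, h2⟩ := h
      obtain ⟨hf, hi⟩ := hmo
      rcases cons_step hH hf hi with ⟨x, hx, hmax, hvx, hadd⟩ | h3
      · obtain ⟨U, V, hU, hV, hUV⟩ := hy n hn
        exact ih1 F _ _ h1 n hn hF hadd ⟨U, V, hU, hV, hUV, describes_max hN hU hx hmax hvx⟩
      · exact ih2 F H _ h2 n hn hF hH h3
    | .chD u b (v :: td) =>
      rw [check, Bool.and_eq_true] at h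
      obtain ⟨h1, h2⟩ := h
      obtain ⟨hu, hf, hi⟩ := hmo
      rcases cons_step hH hf hi with ⟨x, hx, hmax, hvx, hadd⟩ | h3
      · obtain ⟨U, V, hU, hV, hUV, huU⟩ := hu
        have hd := describes_max hD hV hx hmax hvx
        have hyn : (u.sub (v.blur 1)).Describes 1 t (y n) := by
          rw [hUV]; exact Describes.sub huU hd
        obtain ⟨m, l, hm, hc⟩ := ih1 _ _ _ h1 (n + 1) (by omega) (hF.cons hyn) hadd trivial
        refine ⟨m, l, by omega, ?_⟩
        have e : (u.sub (v.blur 1) :: F).length + (m - (n + 1)) = F.length + (m - n) := by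
          rw [List.length_cons]; omega
        rw [e] at hc
        exact hc
      · exact ih2 F H _ h2 n hn hF hH ⟨hu, h3⟩
    | .node none => simp [check] at h
    | .node (some u) => simp [check] at h
    | .chN b [] => simp [check] at h
    | .chD u b [] => simp [check] at h
  | nil =>
    intro F H mo h n hn hF hH hmo
    match mo with
    | .chN b [] => exact (nil_step hmo.1 hmo.2).elim
    | .chD u b [] => exact (nil_step hmo.2.1 hmo.2.2).elim
    | .node none => simp [check] at h
    | .node (some u) => simp [check] at h
    | .chN b (v :: td) => simp [check] at h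
    | .chD u b (v :: td) => simp [check] at h
  | ndet i cs t' ih =>
    intro F H mo h n hn hF hH hmo
    match mo with
    | .node none =>
      rw [check] at h
      split at h
      · rename_i vs hvs
        split at h
        · rename_i v hv
          rw [Bool.and_eq_true] at h
          obtain ⟨x, hx, hmax, hvx⟩ := det_step hH (termForms_sound zero_le_one hF hvs) hv h.1
          obtain ⟨U, V, hU, hV, hUV⟩ := hy n hn
          exact ih F H _ h.2 n hn hF hH ⟨U, V, hU, hV, hUV, describes_max hN hU hx hmax hvx⟩
        · cases h
      · cases h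
    | .node (some u) => simp [check] at h
    | .chN b td => simp [check] at h
    | .chD u b td => simp [check] at h
  | ddet i cs t' ih =>
    intro F H mo h n hn hF hH hmo
    match mo with
    | .node (some u) =>
      rw [check] at h
      split at h
      · rename_i vs hvs
        split at h
        · rename_i v hv
          rw [Bool.and_eq_true] at h
          obtain ⟨x, hx, hmax, hvx⟩ := det_step hH (termForms_sound zero_le_one hF hvs) hv h.1
          obtain ⟨U, V, hU, hV, hUV, huU⟩ := hmo
          have hd := describes_max hD hV hx hmax hvx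
          have hyn : (u.sub (v.blur 1)).Describes 1 t (y n) := by
            rw [hUV]; exact Describes.sub huU hd
          obtain ⟨m, l, hm, hc⟩ := ih _ H _ h.2 (n + 1) (by omega) (hF.cons hyn) hH trivial
          refine ⟨m, l, by omega, ?_⟩
          have e : (u.sub (v.blur 1) :: F).length + (m - (n + 1)) = F.length + (m - n) := by
            rw [List.length_cons]; omega
          rw [e] at hc
          exact hc
        · cases h
      · cases h
    | .node none => simp [check] at h
    | .chN b td => simp [check] at h
    | .chD u b td => simp [check] at h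
  | split f c t1 t2 ih1 ih2 =>
    intro F H mo h n hn hF hH hmo
    match mo with
    | .node p =>
      rw [check, Bool.and_eq_true] at h
      rcases le_or_gt 0 (ev f t + c) with hs | hs
      · refine ih1 F _ _ h.1 n hn hF ?_ hmo
        intro h' hh'
        rcases List.mem_cons.1 hh' with rfl | hh'
        · exact hs
        · exact hH _ hh'
      · refine ih2 F _ _ h.2 n hn hF ?_ hmo
        intro h' hh'
        rcases List.mem_cons.1 hh' with rfl | hh'
        · show 0 ≤ ev (smulL (-1) f) t + ((-c : ℤ) : ℝ)
          rw [ev_smulL]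
          push_cast
          linarith
        · exact hH _ hh'
    | .chN b td => simp [check] at h
    | .chD u b td => simp [check] at h
  | leaf l cs =>
    intro F H mo h n hn hF hH hmo
    match mo with
    | .node none =>
      rw [check] at h
      refine ⟨n, l, le_rfl, ?_⟩
      rw [Nat.sub_self, Nat.add_zero]
      exact claims_sound zero_le_one le_rfl hH hF h
    | .node (some u) => simp [check] at h
    | .chN b td => simp [check] at h
    | .chD u b td => simp [check] at h

theorem check_sound {N D : List (ℕ × ℤ)} {obl : ℕ → ℕ → List Claim} {y : ℕ → ℝ}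
    (hy : Orbit N D y) (hN : N.length ≤ 5) (hD : D.length ≤ 5) {t : List ℝ} {T : Tree}
    {F : List Form} {H : List Hyp} (h : check N D obl T F H (.node none) = true) {n : ℕ} (hn : 4 ≤ n)
    (hF : Valid 1 t y n F) (hH : ∀ h ∈ H, h.Holds t) :
    ∃ m l, n ≤ m ∧ ∀ c ∈ obl l (F.length + (m - n)), c.Holds y m :=
  check_sound_aux hy hN hD T F H _ h n hn hF hH trivial

end Pool.Agent.H81.RDE
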