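import Pool.Agent.H81.RDE.Loop
import Pool.Agent.H81.RDE.Sound

/-!
# [H81 RDE GROWTH] A complete certificate implies that the orbit is unbounded above

* Initial tree: at time `n = 4` the forms `s.init.map fun c => ⟨[], c, 0⟩` describe `y 3, y 2, y 1, y 0`
  (with `t = []`); `check_sound` gives `m ≥ 4` and `l` such that the claims `obl0 s.nodes s.W l (4 + (m-4))`
  hold at time `m`. If `s.nodes[l]? = none` or `m < W` the claims contain `⟨[], 1⟩`, i.e. `1 ≤ 0`. So
  `s.nodes[l]? = some nl`, `W ≤ m` and all claims of `nl.entry` hold.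
* One round, from a node `nd ∈ s.nodes` at time `n ≥ max 4 W` with all claims of `nd.entry`: if there is
  a loop, `loop_sound` leads to a time `n' ≥ n` with `nd.exit` and `V ≥ V - 1/2` (if there is none
  `nd.exit = nd.entry`, `n' = n`). Then `check_sound` for `nd.tree` with `t = window y n' W`,
  `F = baseF W` (`valid_base`), `H = hyps nd.exit` (`hyps_holds`) gives `m ≥ n'` and `l`; again `s.nodes[l]? =
  some nl`, the claims of `nl.entry` hold at `m` and the last claim says
  `evy nl.V y m - evy nd.V y n' ≥ 1 + nd.off - nl.off` (`evy_addL`, `evy_replicate`, `evy_smulL`;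
  `(baseF W).length = W`, the number of zeros is `W + (m - n') - W = m - n'`, and `m - (m - n') = n'`).
  So the quantity `Q = evy V y + off` grows by at least `1/2` in each round.
* After `k` rounds `Q ≥ Q₀ + k/2`. If `y ≤ M` (`M ≥ 0` without loss of generality) then
  `Q ≤ (sum of the coefficients) * M + off ≤ C` for a constant `C` depending on the finitely many nodes
  only (`evy_le`), a contradiction.
-/

namespace Pool.Agent.H81.RDE

theorem Sys.ok_elim {s : Sys} (h : s.ok = true) : s.N.length ≤ 5 ∧ s.D.length ≤ 5 ∧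
    s.init.length = 4 ∧ (∀ nd ∈ s.nodes, nd.ok s = true) ∧
    check s.N s.D (obl0 s.nodes s.W) s.tree0 (s.init.map fun c => ⟨[], c, 0⟩) [] (.node none) = true := by
  simp only [Sys.ok, Bool.and_eq_true, List.all_eq_true] at h
  obtain ⟨⟨⟨⟨h1, h2⟩, h3⟩, h4⟩, h5⟩ := h
  exact ⟨Nat.le_of_ble_eq_true h1, Nat.le_of_ble_eq_true h2, Nat.eq_of_beq_eq_true h3, h4, h5⟩

theorem Node.ok_elim {s : Sys} {nd : Node} (h : nd.ok s = true) :
    check s.N s.D (obl s.nodes nd s.W) nd.tree (baseF s.W) (hyps nd.exit) (.node none) = true ∧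
    nd.V.all isNonneg = true ∧ nd.V.length ≤ s.W ∧ (∀ c ∈ nd.exit, c.co.length ≤ s.W) ∧
    (∀ L, nd.loop = some L → loopOK s.N s.D s.W nd.V L = true) := by
  simp only [Node.ok, Bool.and_eq_true] at h
  obtain ⟨⟨⟨⟨h1, h2⟩, h3⟩, h4⟩, h5⟩ := h
  refine ⟨h1, h2, Nat.le_of_ble_eq_true h3, ?_, ?_⟩
  · intro c hc
    rw [List.all_eq_true] at h4
    exact Nat.le_of_ble_eq_true (h4 c hc)
  · intro L hL
    rw [hL] at h5
    exact h5

theorem not_holds_one (y : ℕ → ℝ) (n : ℕ) : ¬ (Claim.Holds ⟨[], 1⟩ y n) := by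
  intro h
  simp only [Claim.Holds, evy] at h
  norm_num at h

/-- one round -/
theorem Sys.round {s : Sys} (h : s.ok = true) {y : ℕ → ℝ} (hy : Orbit s.N s.D y) {nd : Node}
    (hnd : nd ∈ s.nodes) {n : ℕ} (hn : 4 ≤ n) (hW : s.W ≤ n) (hc : ∀ c ∈ nd.entry, c.Holds y n) :
    ∃ m, n ≤ m ∧ ∃ nl ∈ s.nodes, (∀ c ∈ nl.entry, c.Holds y m) ∧
      evy nd.V y n + nd.off + 1 / 2 ≤ evy nl.V y m + nl.off := by
  obtain ⟨hN, hD, -, hnodes, -⟩ := Sys.ok_elim h
  obtain ⟨hcheck, -, -, hlen, hloop⟩ := Node.ok_elim (hnodes nd hnd)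
  have h1 : ∃ n', n ≤ n' ∧ (∀ c ∈ nd.exit, c.Holds y n') ∧ evy nd.V y n - 1 / 2 ≤ evy nd.V y n' := by
    cases hL : nd.loop with
    | none =>
      refine ⟨n, le_refl n, ?_, by linarith⟩
      simpa [Node.exit, Node.entry, hL] using hc
    | some L =>
      have hc' : ∀ c ∈ L.entry nd.V, c.Holds y n := by
        simpa [Node.entry, hL] using hc
      obtain ⟨m, hm, he, hV⟩ := loop_sound hy hN hD (hloop L hL) hn hW hc'
      refine ⟨m, hm, ?_, hV⟩
      simpa [Node.exit, hL] using he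
  obtain ⟨n', hn', hexit, hV⟩ := h1
  obtain ⟨m, l, hm, hcl⟩ := check_sound hy hN hD hcheck (le_trans hn hn')
    (valid_base (le_trans hW hn') zero_le_one y) (hyps_holds hlen hexit)
  rw [length_baseF] at hcl
  refine ⟨m, le_trans hn' hm, ?_⟩
  cases hl : s.nodes[l]? with
  | none =>
    exfalso
    have := hcl ⟨[], 1⟩ (by simp [obl, hl])
    exact not_holds_one _ _ this
  | some nl =>
    refine ⟨nl, List.mem_of_getElem? hl, ?_, ?_⟩
    · intro c hcc
      exact hcl c (by simp [obl, hl, hcc])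
    · have h2 := hcl ⟨addL nl.V (List.replicate (s.W + (m - n') - s.W) 0 ++ smulL (-1) nd.V),
        1 + nd.off - nl.off⟩ (by simp [obl, hl])
      simp only [Claim.Holds] at h2
      rw [evy_addL, evy_replicate, evy_smulL, Nat.add_sub_cancel_left, Nat.sub_sub_self hm] at h2
      push_cast at h2
      linarith

/-- the start -/
theorem Sys.start {s : Sys} (h : s.ok = true) {y : ℕ → ℝ} (hy : Orbit s.N s.D y)
    (h0 : s.init.map (fun c : ℤ => (c : ℝ)) = [y 3, y 2, y 1, y 0]) :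
    ∃ m, 4 ≤ m ∧ s.W ≤ m ∧ ∃ nl ∈ s.nodes, ∀ c ∈ nl.entry, c.Holds y m := by
  obtain ⟨hN, hD, hi, -, hcheck⟩ := Sys.ok_elim h
  have hval : Valid 1 [] y 4 (s.init.map fun c => (⟨[], c, 0⟩ : Form)) := by
    constructor
    · simp [hi]
    · intro k f hf
      rw [List.getElem?_map] at hf
      cases hk : s.init[k]? with
      | none => rw [hk] at hf; simp at hf
      | some c =>
        rw [hk] at hf
        simp only [Option.map_some, Option.some.injEq] at hf
        subst hf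
        have h1 : (s.init.map (fun c : ℤ => (c : ℝ)))[k]? = some (c : ℝ) := by
          rw [List.getElem?_map, hk]; rfl
        rw [h0] at h1
        have hk4 : k < 4 := by
          by_contra hcon
          rw [List.getElem?_eq_none (by rw [hi]; exact not_lt.1 hcon)] at hk
          · simp at hk
        simp only [Form.Describes, ev]
        have h2 : y (4 - 1 - k) = c := by
          interval_cases k <;> simpa using h1
        rw [h2]; simp
  obtain ⟨m, l, hm, hcl⟩ := check_sound hy hN hD hcheck (le_refl 4) hval (by simp)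
  rw [List.length_map, hi] at hcl
  have h4 : 4 + (m - 4) = m := by omega
  rw [h4] at hcl
  refine ⟨m, hm, ?_⟩
  cases hl : s.nodes[l]? with
  | none =>
    exfalso
    have := hcl ⟨[], 1⟩ (by simp [obl0, hl])
    exact not_holds_one _ _ this
  | some nl =>
    cases hb : Nat.ble s.W m with
    | false =>
      exfalso
      have := hcl ⟨[], 1⟩ (by simp [obl0, hl, hb])
      exact not_holds_one _ _ this
    | true =>
      refine ⟨Nat.le_of_ble_eq_true hb, nl, List.mem_of_getElem? hl, ?_⟩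
      intro c hcc
      exact hcl c (by simp only [obl0, hl, hb]; exact hcc)

theorem Sys.rounds {s : Sys} (h : s.ok = true) {y : ℕ → ℝ} (hy : Orbit s.N s.D y)
    (h0 : s.init.map (fun c : ℤ => (c : ℝ)) = [y 3, y 2, y 1, y 0]) :
    ∃ Q : ℝ, ∀ k : ℕ, ∃ m, 4 ≤ m ∧ s.W ≤ m ∧ ∃ nd ∈ s.nodes, (∀ c ∈ nd.entry, c.Holds y m) ∧
      Q + k / 2 ≤ evy nd.V y m + nd.off := by
  obtain ⟨m0, hm0, hW0, nd0, hnd0, hc0⟩ := Sys.start h hy h0
  refine ⟨evy nd0.V y m0 + nd0.off, fun k => ?_⟩
  induction k with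
  | zero => exact ⟨m0, hm0, hW0, nd0, hnd0, hc0, by simp⟩
  | succ k ih =>
    obtain ⟨m, hm, hW, nd, hnd, hc, hQ⟩ := ih
    obtain ⟨m', hm', nl, hnl, hcl, hg⟩ := Sys.round h hy hnd hm hW hc
    refine ⟨m', le_trans hm hm', le_trans hW hm', nl, hnl, hcl, ?_⟩
    push_cast
    linarith

/-- a uniform bound over finitely many nodes -/
theorem nodes_bound (l : List Node) (hl : ∀ nd ∈ l, nd.V.all isNonneg = true) {y : ℕ → ℝ} {M : ℝ}
    (hM : 0 ≤ M) (hy : ∀ n, y n ≤ M) : ∃ C : ℝ, ∀ nd ∈ l, ∀ n, evy nd.V y n + nd.off ≤ C := by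
  induction l with
  | nil => exact ⟨0, by simp⟩
  | cons a l ih =>
    obtain ⟨C, hC⟩ := ih (fun nd hnd => hl nd (List.mem_cons_of_mem _ hnd))
    refine ⟨max C (((a.V.sum : ℤ) : ℝ) * M + a.off), ?_⟩
    intro nd hnd n
    rcases List.mem_cons.1 hnd with rfl | h1
    · refine le_trans ?_ (le_max_right _ _)
      have := evy_le (hl nd (List.mem_cons_self ..)) hM hy n
      linarith
    · exact le_trans (hC nd h1 n) (le_max_left _ _)

theorem Sys.unbounded {s : Sys} (h : s.ok = true) {y : ℕ → ℝ} (hy : Orbit s.N s.D y)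
    (h0 : s.init.map (fun c : ℤ => (c : ℝ)) = [y 3, y 2, y 1, y 0]) (M : ℝ) : ∃ n, M < y n := by
  by_contra hcon
  push Not at hcon
  have hy' : ∀ n, y n ≤ max M 0 := fun n => le_trans (hcon n) (le_max_left _ _)
  obtain ⟨-, -, -, hnodes, -⟩ := Sys.ok_elim h
  obtain ⟨C, hC⟩ := nodes_bound s.nodes (fun nd hnd => (Node.ok_elim (hnodes nd hnd)).2.1)
    (le_max_right M 0) hy'
  obtain ⟨Q, hQ⟩ := Sys.rounds h hy h0
  obtain ⟨k, hk⟩ := exists_nat_gt (2 * (C - Q))
  obtain ⟨m, -, -, nd, hnd, -, hg⟩ := hQ k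
  have := hC nd hnd m
  linarith

end Pool.Agent.H81.RDE
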