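import Pool.Agent.H81.RDE.Base
import Pool.Agent.H81.RDE.LSELemmas
import Pool.Agent.H81.RDE.Sound

/-!
# [H81 RDE LOOP] Soundness of the loops

`loop_period`: one period of the forced word. Put `t = window y n W`, `a = evy L.om y n - L.e0 ≥ 0`,
`b = evy L.tau y n - L.x0 ≥ 0`, `μ = min a b`, `ε = 3 * 5 ^ (-(L.G + μ))` (real power), so
`0 ≤ ε ≤ 3/5 ≤ 1`. The hypotheses `H = hyps (L.inner V)` hold at `t` (`hyps_holds`).
* `gapOK_sound`: `gapOK H L f c C = true` gives
  `C.den * (ev f t + c) ≥ C.ka * a + C.kb * b ≥ (C.ka + C.kb) * μ ≥ C.den * μ`, so `μ ≤ ev f t + c`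
  (here `ev L.om t = evy L.om y n` etc. by `ev_window`).
* hence, if `v, w` describe `X, Y` with unit `ε ≤ 1`, the gap `X - Y ≥ ev (v.co - w.co) t + (v.c - w.c) -
  (v.r + w.r) ε ≥ L.G + μ`, and by `LSE.gap` (with `g = L.G + μ`) the logarithm of the sum is in
  `[X, X + ε]`, i.e. described by `v.blur 1` with the unit `ε`.
* `runLoop_sound`: induction on the steps: if `runLoop N D H L ss F = some F'` and `Valid ε t y n' F` then
  `Valid ε t y (n' + ss.length) F'`.
* then the conclusions with `combF_sound`: e.g. `V`: `evy V y n' = ev fv.co t + fv.c ± fv.r ε` and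
  `ev fv.co t = ev V t = evy V y n`, `fv.c = 0`, `fv.r * ε ≤ 5 ^ G / 24 * 3 * 5 ^ (-G - μ) = (1/8) 5 ^ (-μ)`.

`loop_sound`: iterate. Let `P = L.steps.length` and `n_j = n + j P`. As long as `τ(n_j) ≥ x₀` the state is
in the region `L.inner V`: `V(n_j) ≥ V(n) - 1/2 ≥ vmin - 1` by the following estimate. Let `a_j, b_j` be the
values at time `n_j`; then `a_j ≥ j` and, if `τ(n_0), …, τ(n_{M-1}) ≥ x₀`, `b_j ≥ M - 1 - j` for `j < M`
(because `b` decreases by at least one). Since `5 ^ (-min a b) ≤ 5 ^ (-a) + 5 ^ (-b)`, the total change of `V`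
up to time `n_M` is at most `(1/8) ∑_{j<M} (5 ^ (-j) + 5 ^ (-(M-1-j))) ≤ (1/8) * 2 * (5/4) = 5/16 ≤ 1/2`.
The process stops (`τ` decreases by at least `1` each time): let `M` be the first index with
`τ(n_M) < x₀`; `M ≥ 1` since `τ(n_0) ≥ x₀`; then `x₀ - dmax ≤ τ(n_M)`, and all claims of `L.exit V` hold.
Suggestion: prove by induction on `M` the statement
`INV M : (∀ j ≤ M, τ(n_j) ≥ x₀ for j < M) → near, ω(n_M) ≥ e₀ + M, τ(n_M) + ... , |V(n_M) - V(n)| ≤
(1/8) ∑_{j<M} (5 ^ (-(j:ℝ)) + 5 ^ (-(b_j)))`, and bound the sum afterwards; or carry the bound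
`V(n_M) ≥ V(n) - (1/8) (5/4) - (1/8) (5/4) 5 ^ (-(b_M))`-like quantity: with `b_{j+1} ≤ b_j - 1`,
`∑_{j<M} 5 ^ (-b_j) ≤ (5/4) * 5 ^ (-b_{M-1})`, `b_{M-1} ≥ 0`.
(The period may be empty only if the check fails: `ω` must grow, so `P ≥ 1`; not needed.)
-/

namespace Pool.Agent.H81.RDE

theorem gapOK_sound {H : List Hyp} {t : List ℝ} (hH : ∀ h ∈ H, h.Holds t) {L : Loop} {f : List ℤ}
    {c : ℤ} {C : GCert} (h : gapOK H L f c C = true) (ha : 0 ≤ ev L.om t - L.e0)
    (hb : 0 ≤ ev L.tau t - L.x0) : min (ev L.om t - L.e0) (ev L.tau t - L.x0) ≤ ev f t + c := by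
  unfold gapOK at h
  rw [Bool.and_eq_true, Bool.and_eq_true] at h
  obtain ⟨⟨h1, h2⟩, h3⟩ := h
  have h1' : 0 < C.den := by
    rw [Nat.blt_eq] at h1; exact h1
  have h2' : C.den ≤ C.ka + C.kb := Nat.le_of_ble_eq_true h2
  have h4 := ineq_sound hH h3
  rw [ev_addL, ev_addL, ev_smulL, ev_smulL, ev_smulL] at h4
  push_cast at h4
  have hden : (0 : ℝ) < (C.den : ℝ) := by exact_mod_cast h1'
  have h2r : (C.den : ℝ) ≤ (C.ka : ℝ) + (C.kb : ℝ) := by exact_mod_cast h2'
  set a := ev L.om t - L.e0 with ha'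
  set b := ev L.tau t - L.x0 with hb'
  have hmin0 : 0 ≤ min a b := le_min ha hb
  have hka : (C.ka : ℝ) * min a b ≤ C.ka * a :=
    mul_le_mul_of_nonneg_left (min_le_left _ _) (Nat.cast_nonneg _)
  have hkb : (C.kb : ℝ) * min a b ≤ C.kb * b :=
    mul_le_mul_of_nonneg_left (min_le_right _ _) (Nat.cast_nonneg _)
  have hd : (C.den : ℝ) * min a b ≤ ((C.ka : ℝ) + C.kb) * min a b :=
    mul_le_mul_of_nonneg_right h2r hmin0
  have h5 : (C.den : ℝ) * min a b ≤ C.den * (ev f t + c) := by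
    have e1 : (C.ka : ℝ) * a = C.ka * ev L.om t - C.ka * L.e0 := by rw [ha']; ring
    have e2 : (C.kb : ℝ) * b = C.kb * ev L.tau t - C.kb * L.x0 := by rw [hb']; ring
    nlinarith [h4, hka, hkb, hd, e1, e2]
  exact le_of_mul_le_mul_left h5 hden

theorem gapsOK_sound {H : List Hyp} {t : List ℝ} (hH : ∀ h ∈ H, h.Holds t) {L : Loop} {ε : ℝ}
    (hε1 : ε ≤ 1) (ha : 0 ≤ ev L.om t - L.e0)
    (hb : 0 ≤ ev L.tau t - L.x0) {v : Form} {x : ℝ} (hv : v.Describes ε t x) {ws : List Form}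
    {ys : List ℝ} (hw : List.Forall₂ (fun f y => f.Describes ε t y) ws ys) :
    ∀ {Cs : List GCert}, gapsOK H L v ws Cs = true →
      ∀ y ∈ ys, y + ((L.G : ℝ) + min (ev L.om t - L.e0) (ev L.tau t - L.x0)) ≤ x := by
  induction hw with
  | nil => intro Cs _ y hy; simp at hy
  | @cons w y0 ws ys h1 h2 ih =>
    intro Cs h y hy
    cases Cs with
    | nil => simp [gapsOK] at h
    | cons C Cs =>
      rw [gapsOK, Bool.and_eq_true] at h
      rcases List.mem_cons.1 hy with rfl | hy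
      · have h3 := gapOK_sound hH h.1 ha hb
        rw [ev_addL, ev_smulL] at h3
        push_cast at h3
        unfold Form.Describes at hv h1
        rw [abs_le] at hv h1
        have hr1 : (v.r : ℝ) * ε ≤ v.r := by
          have := mul_le_mul_of_nonneg_left hε1 (Nat.cast_nonneg (α := ℝ) v.r)
          linarith
        have hr2 : (w.r : ℝ) * ε ≤ w.r := by
          have := mul_le_mul_of_nonneg_left hε1 (Nat.cast_nonneg (α := ℝ) w.r)
          linarith
        linarith [hv.1, h1.2]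
      · exact ih h.2 y hy

theorem runLoop_sound {N D : List (ℕ × ℤ)} {y : ℕ → ℝ} (hy : Orbit N D y) (hN : N.length ≤ 5)
    (hD : D.length ≤ 5) {H : List Hyp} {t : List ℝ} (hH : ∀ h ∈ H, h.Holds t) {L : Loop}
    {ε g : ℝ} (hg : g = (L.G : ℝ) + min (ev L.om t - L.e0) (ev L.tau t - L.x0))
    (hε : ε = 3 * (5 : ℝ) ^ (-g)) (hε1 : ε ≤ 1) (ha : 0 ≤ ev L.om t - L.e0)
    (hb : 0 ≤ ev L.tau t - L.x0) (ss : List LStep) :
    ∀ (F F' : List Form) (n : ℕ), 4 ≤ n → runLoop N D H L ss F = some F' → Valid ε t y n F →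
      Valid ε t y (n + ss.length) F' := by
  have hg0 : 0 ≤ g := by
    rw [hg]
    have := le_min ha hb
    positivity
  have hε0 : 0 ≤ ε := by
    rw [hε]; positivity
  induction ss with
  | nil =>
    intro F F' n hn h hF
    simp only [runLoop, Option.some.injEq] at h
    subst h
    exact hF
  | cons s ss ih =>
    intro F F' n hn h hF
    rw [runLoop] at h
    split at h
    · rename_i vs ws hvs hws
      split at h
      · rename_i v w hv hw
        split at h
        · rename_i hgaps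
          rw [Bool.and_eq_true] at hgaps
          obtain ⟨U, V, hU, hV, hUV⟩ := hy n hn
          have hF1 := termForms_sound hε0 hF hvs
          have hF2 := termForms_sound hε0 hF hws
          obtain ⟨x, hx, hvx⟩ := forall2_get hF1 _ _ hv
          obtain ⟨z, hz, hwz⟩ := forall2_get hF2 _ _ hw
          have hg1 := gapsOK_sound hH hε1 ha hb hvx (forall2_eraseIdx hF1 _) hgaps.1
          have hg2 := gapsOK_sound hH hε1 ha hb hwz (forall2_eraseIdx hF2 _) hgaps.2
          rw [← hg] at hg1 hg2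
          have hU1 : x ≤ U := hU.le (List.mem_of_getElem? hx)
          have hV1 : z ≤ V := hV.le (List.mem_of_getElem? hz)
          have hU2 := hU.gap (by rw [length_tv]; exact hN) hx hg0 hg1
          have hV2 := hV.gap (by rw [length_tv]; exact hD) hz hg0 hg2
          rw [← hε] at hU2 hV2
          have hU3 : (v.blur 1).Describes ε t U :=
            Describes.blur hvx 1 hU1 (by push_cast; linarith)
          have hV3 : (w.blur 1).Describes ε t V :=
            Describes.blur hwz 1 hV1 (by push_cast; linarith)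
          have hyn : ((v.blur 1).sub (w.blur 1)).Describes ε t (y n) := by
            rw [hUV]; exact Describes.sub hU3 hV3
          have h3 := ih _ F' (n + 1) (by omega) h (hF.cons hyn)
          rw [List.length_cons]
          have e : n + (ss.length + 1) = n + 1 + ss.length := by omega
          rw [e]
          exact h3
        · cases h
      · cases h
    · cases h

theorem loop_period {N D : List (ℕ × ℤ)} {y : ℕ → ℝ} (hy : Orbit N D y) (hN : N.length ≤ 5)
    (hD : D.length ≤ 5) {W : ℕ} {V : List ℤ} {L : Loop} (h : loopOK N D W V L = true) {n : ℕ}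
    (hn : 4 ≤ n) (hW : W ≤ n) (hin : ∀ c ∈ L.inner V, c.Holds y n) :
    (∀ c ∈ L.near, c.Holds y (n + L.steps.length)) ∧
    evy L.om y n + 1 ≤ evy L.om y (n + L.steps.length) ∧
    evy L.tau y (n + L.steps.length) + 1 ≤ evy L.tau y n ∧
    evy L.tau y n - L.dmax ≤ evy L.tau y (n + L.steps.length) ∧
    |evy V y (n + L.steps.length) - evy V y n| ≤
      1 / 8 * (5 : ℝ) ^ (-(min (evy L.om y n - L.e0) (evy L.tau y n - L.x0))) := by
  unfold loopOK at h
  simp only at h
  split at h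
  · cases h
  rename_i F hF
  simp only [Bool.and_eq_true] at h
  obtain ⟨⟨⟨⟨⟨⟨⟨⟨⟨⟨⟨⟨⟨⟨hnear, hlom⟩, hltau⟩, hlV⟩, hOm⟩, hUp⟩, hLo⟩, hVz⟩, hVc⟩, hVr⟩, hG⟩, hlomW⟩,
    hltauW⟩, hlVW⟩, hnearW⟩ := h
  have hlom' : L.om.length ≤ F.length := Nat.le_of_ble_eq_true hlom
  have hltau' : L.tau.length ≤ F.length := Nat.le_of_ble_eq_true hltau
  have hlV' : V.length ≤ F.length := Nat.le_of_ble_eq_true hlV
  have hVr' : 24 * (combF V F).r ≤ 5 ^ L.G := Nat.le_of_ble_eq_true hVr
  have hG' : 1 ≤ L.G := Nat.le_of_ble_eq_true hG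
  have hlomW' : L.om.length ≤ W := Nat.le_of_ble_eq_true hlomW
  have hltauW' : L.tau.length ≤ W := Nat.le_of_ble_eq_true hltauW
  have hlVW' : V.length ≤ W := Nat.le_of_ble_eq_true hlVW
  have hVc' : (combF V F).c = 0 := (isZero_iff _).1 hVc
  have hlen : ∀ c ∈ L.inner V, c.co.length ≤ W := by
    intro c hc
    unfold Loop.inner at hc
    rcases List.mem_append.1 hc with hc | hc
    · exact Nat.le_of_ble_eq_true (List.all_eq_true.1 hnearW c hc)
    · simp only [List.mem_cons, List.not_mem_nil, or_false] at hc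
      rcases hc with rfl | rfl | rfl
      · exact hlomW'
      · exact hlVW'
      · exact hltauW'
  set t := window y n W with ht
  have hH : ∀ h ∈ hyps (L.inner V), h.Holds t := hyps_holds hlen hin
  have eom : ev L.om t = evy L.om y n := ev_window hlomW' y n
  have etau : ev L.tau t = evy L.tau y n := ev_window hltauW' y n
  have eV : ev V t = evy V y n := ev_window hlVW' y n
  have ha : 0 ≤ ev L.om t - L.e0 := by
    have h1 := hin ⟨L.om, L.e0⟩ (by unfold Loop.inner; simp)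
    unfold Claim.Holds at h1
    rw [eom]; simp only at h1; linarith
  have hb : 0 ≤ ev L.tau t - L.x0 := by
    have h1 := hin ⟨L.tau, L.x0⟩ (by unfold Loop.inner; simp)
    unfold Claim.Holds at h1
    rw [etau]; simp only at h1; linarith
  obtain ⟨g, hg⟩ : ∃ g : ℝ, g = (L.G : ℝ) + min (ev L.om t - L.e0) (ev L.tau t - L.x0) := ⟨_, rfl⟩
  obtain ⟨ε, hε⟩ : ∃ ε : ℝ, ε = 3 * (5 : ℝ) ^ (-g) := ⟨_, rfl⟩
  have hmin0 := le_min ha hb
  have hg1 : 1 ≤ g := by
    rw [hg]
    have : (1 : ℝ) ≤ L.G := by exact_mod_cast hG'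
    linarith
  have hε0 : 0 ≤ ε := by rw [hε]; positivity
  have hε1 : ε ≤ 1 := by
    rw [hε]
    have h1 : (5 : ℝ) ^ (-g) ≤ (5 : ℝ) ^ (-1 : ℝ) :=
      Real.rpow_le_rpow_of_exponent_le (by norm_num) (by linarith)
    rw [Real.rpow_neg_one] at h1
    norm_num at h1
    linarith
  have hbase : Valid ε t y n (baseF W) := valid_base hW hε0 y
  have hval : Valid ε t y (n + L.steps.length) F :=
    runLoop_sound hy hN hD hH hg hε hε1 ha hb L.steps _ _ n hn hF hbase
  have hrr : ∀ f : Form, (f.r : ℝ) * ε ≤ f.r := by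
    intro f
    have := mul_le_mul_of_nonneg_left hε1 (Nat.cast_nonneg (α := ℝ) f.r)
    linarith
  refine ⟨claims_sound hε0 hε1 hH hval hnear, ?_, ?_, ?_, ?_⟩
  · have h1 := combF_sound hε0 hval L.om hlom'
    have h2 := ineq_sound hH hOm
    rw [ev_addL, ev_smulL, eom] at h2
    push_cast at h2
    rw [abs_le] at h1
    linarith [h1.1, hrr (combF L.om F)]
  · have h1 := combF_sound hε0 hval L.tau hltau'
    have h2 := ineq_sound hH hUp
    rw [ev_addL, ev_smulL, etau] at h2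
    push_cast at h2
    rw [abs_le] at h1
    linarith [h1.2, hrr (combF L.tau F)]
  · have h1 := combF_sound hε0 hval L.tau hltau'
    have h2 := ineq_sound hH hLo
    rw [ev_addL, ev_smulL, etau] at h2
    push_cast at h2
    rw [abs_le] at h1
    linarith [h1.1, hrr (combF L.tau F)]
  · have h1 := combF_sound hε0 hval V hlV'
    have h2 := ev_eq_zero hVz t
    rw [ev_addL, ev_smulL, eV] at h2
    push_cast at h2
    rw [hVc'] at h1
    push_cast at h1
    have h3 : ev (combF V F).co t + 0 = evy V y n := by linarith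
    rw [h3] at h1
    refine h1.trans ?_
    rw [hε, hg, ← eom, ← etau, neg_add, Real.rpow_add (by norm_num), Real.rpow_neg (by norm_num),
      Real.rpow_natCast]
    have hVr'' : 24 * ((combF V F).r : ℝ) ≤ (5 : ℝ) ^ L.G := by exact_mod_cast hVr'
    have h5G : (0 : ℝ) < (5 : ℝ) ^ L.G := by positivity
    have hX : (0 : ℝ) ≤ (5 : ℝ) ^ (-(min (ev L.om t - L.e0) (ev L.tau t - L.x0))) := by positivity
    have h6 : ((combF V F).r : ℝ) * ((5 : ℝ) ^ L.G)⁻¹ ≤ 1 / 24 := by
      rw [← div_eq_mul_inv, div_le_iff₀ h5G]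
      linarith
    calc ((combF V F).r : ℝ) * (3 * (((5 : ℝ) ^ L.G)⁻¹ *
          (5 : ℝ) ^ (-(min (ev L.om t - L.e0) (ev L.tau t - L.x0)))))
        = 3 * (((combF V F).r : ℝ) * ((5 : ℝ) ^ L.G)⁻¹) *
          (5 : ℝ) ^ (-(min (ev L.om t - L.e0) (ev L.tau t - L.x0))) := by ring
      _ ≤ 3 * (1 / 24) * (5 : ℝ) ^ (-(min (ev L.om t - L.e0) (ev L.tau t - L.x0))) := by
          apply mul_le_mul_of_nonneg_right _ hX
          linarith
      _ = 1 / 8 * (5 : ℝ) ^ (-(min (ev L.om t - L.e0) (ev L.tau t - L.x0))) := by ring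

/-- The state during the loop: `V0` is the value of `V` at the start of the loop. -/
def St (V : List ℤ) (L : Loop) (V0 : ℝ) (y : ℕ → ℝ) (n : ℕ) : Prop :=
  (∀ c ∈ L.near, c.Holds y n) ∧ (L.e0 : ℝ) ≤ evy L.om y n ∧ (L.x0 : ℝ) ≤ evy L.tau y n ∧
    V0 - 1 / 8 * (5 / 4 * (1 - (5 : ℝ) ^ (-(evy L.om y n - L.e0))) +
      1 / 4 * (5 : ℝ) ^ (-(evy L.tau y n - L.x0))) ≤ evy V y n

theorem five_rpow_le_one {a : ℝ} (ha : 0 ≤ a) : (5 : ℝ) ^ (-a) ≤ 1 :=
  Real.rpow_le_one_of_one_le_of_nonpos (by norm_num) (by linarith)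

theorem five_rpow_min_le (a b : ℝ) : (5 : ℝ) ^ (-(min a b)) ≤ (5 : ℝ) ^ (-a) + (5 : ℝ) ^ (-b) := by
  have ha : (0 : ℝ) < (5 : ℝ) ^ (-a) := by positivity
  have hb : (0 : ℝ) < (5 : ℝ) ^ (-b) := by positivity
  rcases min_choice a b with h | h <;> rw [h] <;> linarith

theorem loop_step {N D : List (ℕ × ℤ)} {y : ℕ → ℝ} (hy : Orbit N D y) (hN : N.length ≤ 5)
    (hD : D.length ≤ 5) {W : ℕ} {V : List ℤ} {L : Loop} (h : loopOK N D W V L = true) {V0 : ℝ}
    (hV0 : (L.vmin : ℝ) ≤ V0) {n : ℕ} (hn : 4 ≤ n) (hW : W ≤ n) (hst : St V L V0 y n) :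
    ∃ m, n ≤ m ∧ ((∀ c ∈ L.exit V, c.Holds y m) ∧ V0 - 1 / 2 ≤ evy V y m ∨
      (St V L V0 y m ∧ evy L.tau y m + 1 ≤ evy L.tau y n)) := by
  obtain ⟨hnear, hom, htau, hV⟩ := hst
  have hA1 := five_rpow_le_one (a := evy L.om y n - L.e0) (by linarith)
  have hB1 := five_rpow_le_one (a := evy L.tau y n - L.x0) (by linarith)
  have hA0 : (0 : ℝ) < (5 : ℝ) ^ (-(evy L.om y n - L.e0)) := by positivity
  have hB0 : (0 : ℝ) < (5 : ℝ) ^ (-(evy L.tau y n - L.x0)) := by positivity
  have hin : ∀ c ∈ L.inner V, c.Holds y n := by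
    intro c hc
    unfold Loop.inner at hc
    rcases List.mem_append.1 hc with hc | hc
    · exact hnear c hc
    · simp only [List.mem_cons, List.not_mem_nil, or_false] at hc
      rcases hc with rfl | rfl | rfl
      · exact hom
      · show ((L.vmin - 1 : ℤ) : ℝ) ≤ evy V y n
        push_cast
        linarith
      · exact htau
  obtain ⟨h1, h2, h3, h4, h5⟩ := loop_period hy hN hD h hn hW hin
  have h6 := five_rpow_min_le (evy L.om y n - L.e0) (evy L.tau y n - L.x0)
  rw [abs_le] at h5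
  refine ⟨n + L.steps.length, Nat.le_add_right _ _, ?_⟩
  rcases le_or_gt (L.x0 : ℝ) (evy L.tau y (n + L.steps.length)) with h7 | h7
  · right
    refine ⟨⟨h1, by linarith, h7, ?_⟩, h3⟩
    have hA' : (5 : ℝ) ^ (-(evy L.om y (n + L.steps.length) - L.e0)) ≤
        1 / 5 * (5 : ℝ) ^ (-(evy L.om y n - L.e0)) := by
      have e : (1 / 5 : ℝ) * (5 : ℝ) ^ (-(evy L.om y n - L.e0)) =
          (5 : ℝ) ^ (-(evy L.om y n - L.e0) - 1) := by
        rw [Real.rpow_sub_one (by norm_num)]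
        ring
      rw [e]
      exact Real.rpow_le_rpow_of_exponent_le (by norm_num) (by linarith)
    have hB' : 5 * (5 : ℝ) ^ (-(evy L.tau y n - L.x0)) ≤
        (5 : ℝ) ^ (-(evy L.tau y (n + L.steps.length) - L.x0)) := by
      have e : 5 * (5 : ℝ) ^ (-(evy L.tau y n - L.x0)) =
          (5 : ℝ) ^ (-(evy L.tau y n - L.x0) + 1) := by
        rw [Real.rpow_add_one (by norm_num)]
        ring
      rw [e]
      exact Real.rpow_le_rpow_of_exponent_le (by norm_num) (by linarith)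
    linarith [h5.1]
  · left
    refine ⟨?_, by linarith [h5.1]⟩
    intro c hc
    unfold Loop.exit at hc
    rcases List.mem_append.1 hc with hc | hc
    · exact h1 c hc
    · simp only [List.mem_cons, List.not_mem_nil, or_false] at hc
      rcases hc with rfl | rfl | rfl | rfl
      · show (L.e0 : ℝ) ≤ evy L.om y _
        linarith
      · show ((L.vmin - 1 : ℤ) : ℝ) ≤ evy V y _
        push_cast
        linarith [h5.1]
      · show ((-L.x0 : ℤ) : ℝ) ≤ evy (smulL (-1) L.tau) y _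
        rw [evy_smulL]
        push_cast
        linarith
      · show ((L.x0 - L.dmax : ℤ) : ℝ) ≤ evy L.tau y _
        push_cast
        linarith

theorem loop_iter {N D : List (ℕ × ℤ)} {y : ℕ → ℝ} (hy : Orbit N D y) (hN : N.length ≤ 5)
    (hD : D.length ≤ 5) {W : ℕ} {V : List ℤ} {L : Loop} (h : loopOK N D W V L = true) {V0 : ℝ}
    (hV0 : (L.vmin : ℝ) ≤ V0) (k : ℕ) :
    ∀ n : ℕ, 4 ≤ n → W ≤ n → St V L V0 y n → evy L.tau y n - L.x0 < k →
      ∃ m, n ≤ m ∧ (∀ c ∈ L.exit V, c.Holds y m) ∧ V0 - 1 / 2 ≤ evy V y m := by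
  induction k with
  | zero =>
    intro n _ _ hst hk
    push_cast at hk
    exact absurd hst.2.2.1 (by linarith)
  | succ k ih =>
    intro n hn hW hst hk
    push_cast at hk
    obtain ⟨m, hm, h1 | ⟨h1, h2⟩⟩ := loop_step hy hN hD h hV0 hn hW hst
    · exact ⟨m, hm, h1⟩
    · obtain ⟨m', hm', h3⟩ := ih m (hn.trans hm) (hW.trans hm) h1 (by linarith)
      exact ⟨m', hm.trans hm', h3⟩

theorem loop_sound {N D : List (ℕ × ℤ)} {y : ℕ → ℝ} (hy : Orbit N D y) (hN : N.length ≤ 5)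
    (hD : D.length ≤ 5) {W : ℕ} {V : List ℤ} {L : Loop} (h : loopOK N D W V L = true) {n : ℕ}
    (hn : 4 ≤ n) (hW : W ≤ n) (hin : ∀ c ∈ L.entry V, c.Holds y n) :
    ∃ m, n ≤ m ∧ (∀ c ∈ L.exit V, c.Holds y m) ∧ evy V y n - 1 / 2 ≤ evy V y m := by
  have hom := hin ⟨L.om, L.e0⟩ (by unfold Loop.entry; simp)
  have hv := hin ⟨V, L.vmin⟩ (by unfold Loop.entry; simp)
  have htau := hin ⟨L.tau, L.x0⟩ (by unfold Loop.entry; simp)
  unfold Claim.Holds at hom hv htau
  simp only at hom hv htau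
  obtain ⟨k, hk⟩ := exists_nat_gt (evy L.tau y n - L.x0)
  refine loop_iter hy hN hD h hv k n hn hW ⟨?_, hom, htau, ?_⟩ hk
  · intro c hc
    exact hin c (by unfold Loop.entry; exact List.mem_append_left _ hc)
  · have hA1 := five_rpow_le_one (a := evy L.om y n - L.e0) (by linarith)
    have hB0 : (0 : ℝ) < (5 : ℝ) ^ (-(evy L.tau y n - L.x0)) := by positivity
    linarith

end Pool.Agent.H81.RDE
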