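import Mathlib

/-!
# [H81 RDE SHADOW] Solutions close to approximate solutions (denominator `x_{n-4}`)

For the equation `x (n+4) * x n = α + β₁ x (n+3) + β₂ x (n+2) + β₃ x (n+1)`.

Proof. For each `T` define a sequence `X_T`: `X_T n = z n` for `n > T` and, for `n ≤ T`, backwards,
`X_T n = num (X_T) n / X_T (n+4)` (recursion on `T + 1 - n`; e.g. define `w : ℕ → ℝ` with `w k = X_T (T + 4 - k)`,
`w 0, …, w 3 = z (T+4), …, z (T+1)`). By induction (downwards) `|log X_T n - log z n| ≤ E n` for all `n`: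
for `n > T` because `0 ≤ E n`; for `n ≤ T`: each term of `num` at `X_T` is between `exp (-E (n+1))` and
`exp (E (n+1))` times the term at `z` (the constant too; `E` is antitone and `≥ 0`), so
`|log num (X_T) n - log num z n| ≤ E (n+1)` and
`|log X_T n - log z n| ≤ E (n+1) + E (n+4) + ε n ≤ E n`.
All `X_T` are in the compact set `∏ₙ [z n * exp (-E n), z n * exp (E n)]` (`isCompact_univ_pi`), so the sequence
`T ↦ X_T` has a cluster point `x`. For each `n` the closed condition `x (n+4) * x n = num x n` holds for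
`X_T` for all `T ≥ n`, hence for `x`.
-/

namespace Pool.Agent.H81.RDE

open Real

/-- the numerator at time `n + 4` -/
def num4 (α β₁ β₂ β₃ : ℝ) (x : ℕ → ℝ) (n : ℕ) : ℝ :=
  α + β₁ * x (n + 3) + β₂ * x (n + 2) + β₃ * x (n + 1)

theorem num4_pos {α β₁ β₂ β₃ : ℝ} (hα : 0 ≤ α) (h₁ : 0 ≤ β₁) (h₂ : 0 ≤ β₂) (h₃ : 0 ≤ β₃)
    (hpos : 0 < α + β₁ + β₂ + β₃) {x : ℕ → ℝ} (hx : ∀ n, 0 < x n) (n : ℕ) :
    0 < num4 α β₁ β₂ β₃ x n := by
  unfold num4
  have a1 := mul_nonneg h₁ (hx (n + 3)).le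
  have a2 := mul_nonneg h₂ (hx (n + 2)).le
  have a3 := mul_nonneg h₃ (hx (n + 1)).le
  by_contra hcon
  have b0 : α = 0 := by linarith
  have b1 : β₁ * x (n + 3) = 0 := by linarith
  have b2 : β₂ * x (n + 2) = 0 := by linarith
  have b3 : β₃ * x (n + 1) = 0 := by linarith
  have c1 := (mul_eq_zero.1 b1).resolve_right (hx _).ne'
  have c2 := (mul_eq_zero.1 b2).resolve_right (hx _).ne'
  have c3 := (mul_eq_zero.1 b3).resolve_right (hx _).ne'
  rw [b0, c1, c2, c3] at hpos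
  norm_num at hpos

theorem le_of_log_le {a b D : ℝ} (ha : 0 < a) (hb : 0 < b) (h : log a - log b ≤ D) :
    a ≤ exp D * b := by
  have h1 : log a ≤ D + log b := by linarith
  have h2 := exp_le_exp.2 h1
  rwa [exp_log ha, exp_add, exp_log hb] at h2

theorem num4_le {α β₁ β₂ β₃ : ℝ} (hα : 0 ≤ α) (h₁ : 0 ≤ β₁) (h₂ : 0 ≤ β₂) (h₃ : 0 ≤ β₃)
    {x z : ℕ → ℝ} (hx : ∀ n, 0 < x n) (hz : ∀ n, 0 < z n) {D : ℝ} (hD : 0 ≤ D) (n : ℕ)
    (h : ∀ i, 1 ≤ i → i ≤ 3 → log (x (n + i)) - log (z (n + i)) ≤ D) :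
    num4 α β₁ β₂ β₃ x n ≤ exp D * num4 α β₁ β₂ β₃ z n := by
  unfold num4
  have a1 := mul_le_mul_of_nonneg_left (le_of_log_le (hx _) (hz _) (h 3 (by norm_num) le_rfl)) h₁
  have a2 := mul_le_mul_of_nonneg_left
    (le_of_log_le (hx _) (hz _) (h 2 (by norm_num) (by norm_num))) h₂
  have a3 := mul_le_mul_of_nonneg_left
    (le_of_log_le (hx _) (hz _) (h 1 (by norm_num) (by norm_num))) h₃
  have a0 : α ≤ exp D * α := le_mul_of_one_le_left hα (one_le_exp hD)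
  calc α + β₁ * x (n + 3) + β₂ * x (n + 2) + β₃ * x (n + 1)
      ≤ exp D * α + β₁ * (exp D * z (n + 3)) + β₂ * (exp D * z (n + 2)) +
        β₃ * (exp D * z (n + 1)) := by linarith
    _ = _ := by ring

theorem num4_close {α β₁ β₂ β₃ : ℝ} (hα : 0 ≤ α) (h₁ : 0 ≤ β₁) (h₂ : 0 ≤ β₂) (h₃ : 0 ≤ β₃)
    (hpos : 0 < α + β₁ + β₂ + β₃)
    {x z : ℕ → ℝ} (hx : ∀ n, 0 < x n) (hz : ∀ n, 0 < z n) {D : ℝ} (hD : 0 ≤ D) (n : ℕ)
    (h : ∀ i, 1 ≤ i → i ≤ 3 → |log (x (n + i)) - log (z (n + i))| ≤ D) :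
    |log (num4 α β₁ β₂ β₃ x n) - log (num4 α β₁ β₂ β₃ z n)| ≤ D := by
  have p1 := num4_pos hα h₁ h₂ h₃ hpos hx n
  have p2 := num4_pos hα h₁ h₂ h₃ hpos hz n
  have q1 := num4_le hα h₁ h₂ h₃ hx hz hD n fun i hi hi' => (abs_le.1 (h i hi hi')).2
  have q2 := num4_le hα h₁ h₂ h₃ hz hx hD n fun i hi hi' => by
    have := (abs_le.1 (h i hi hi')).1
    linarith
  have r1 := log_le_log p1 q1
  have r2 := log_le_log p2 q2
  rw [log_mul (exp_pos _).ne' p2.ne', log_exp] at r1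
  rw [log_mul (exp_pos _).ne' p1.ne', log_exp] at r2
  rw [abs_le]
  constructor <;> linarith

theorem shadow_stage {α β₁ β₂ β₃ : ℝ} (hα : 0 ≤ α) (h₁ : 0 ≤ β₁) (h₂ : 0 ≤ β₂) (h₃ : 0 ≤ β₃)
    (hpos : 0 < α + β₁ + β₂ + β₃) {z E ε : ℕ → ℝ} (hz : ∀ n, 0 < z n) (hE : ∀ n, 0 ≤ E n)
    (hE1 : Antitone E)
    (h : ∀ n, |log (num4 α β₁ β₂ β₃ z n) - log (z (n + 4)) - log (z n)| ≤ ε n)
    (hb : ∀ n, ε n + E (n + 1) + E (n + 4) ≤ E n) (T m : ℕ) (hm : m ≤ T + 1) :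
    ∃ x : ℕ → ℝ, (∀ n, 0 < x n) ∧ (∀ n, |log (x n) - log (z n)| ≤ E n) ∧
      ∀ n, n ≤ T → T < n + m → x (n + 4) * x n = num4 α β₁ β₂ β₃ x n := by
  induction m with
  | zero => exact ⟨z, hz, fun n => by rw [sub_self, abs_zero]; exact hE n, fun n h1 h2 => by omega⟩
  | succ m ih =>
    obtain ⟨x, hx1, hx2, hx3⟩ := ih (by omega)
    set n₀ := T - m with hn₀
    set v := num4 α β₁ β₂ β₃ x n₀ / x (n₀ + 4) with hv
    have hN := num4_pos hα h₁ h₂ h₃ hpos hx1 n₀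
    have hv0 : 0 < v := div_pos hN (hx1 _)
    have hne : ∀ n, n ≠ n₀ → Function.update x n₀ v n = x n := fun n hn =>
      Function.update_of_ne hn _ _
    have heq : Function.update x n₀ v n₀ = v := Function.update_self _ _ _
    refine ⟨Function.update x n₀ v, fun n => ?_, fun n => ?_, fun n hn1 hn2 => ?_⟩
    · by_cases hn : n = n₀
      · rw [hn, heq]; exact hv0
      · rw [hne n hn]; exact hx1 n
    · by_cases hn : n = n₀
      · rw [hn, heq, hv, log_div hN.ne' (hx1 _).ne']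
        have c1 := num4_close hα h₁ h₂ h₃ hpos hx1 hz (hE (n₀ + 1)) n₀ fun i hi hi' =>
          (hx2 (n₀ + i)).trans (hE1 (by omega))
        have c2 := hx2 (n₀ + 4)
        have c3 := h n₀
        have c4 := hb n₀
        rw [abs_le] at c1 c2 c3 ⊢
        constructor <;> linarith
      · rw [hne n hn]; exact hx2 n
    · unfold num4
      rw [hne (n + 4) (by omega), hne (n + 3) (by omega), hne (n + 2) (by omega),
        hne (n + 1) (by omega)]
      by_cases hn : n = n₀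
      · rw [hn, heq, hv, mul_div_cancel₀ _ (hx1 _).ne']
        rfl
      · rw [hne n hn]
        exact hx3 n hn1 (by omega)

theorem shadow {α β₁ β₂ β₃ : ℝ} (hα : 0 ≤ α) (h₁ : 0 ≤ β₁) (h₂ : 0 ≤ β₂) (h₃ : 0 ≤ β₃)
    (hpos : 0 < α + β₁ + β₂ + β₃) {z E ε : ℕ → ℝ} (hz : ∀ n, 0 < z n) (hE : ∀ n, 0 ≤ E n)
    (hE1 : Antitone E)
    (h : ∀ n, |log (num4 α β₁ β₂ β₃ z n) - log (z (n + 4)) - log (z n)| ≤ ε n)
    (hb : ∀ n, ε n + E (n + 1) + E (n + 4) ≤ E n) :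
    ∃ x : ℕ → ℝ, (∀ n, 0 < x n) ∧ (∀ n, x (n + 4) * x n = num4 α β₁ β₂ β₃ x n) ∧
      ∀ n, |log (x n) - log (z n)| ≤ E n := by
  choose X hX1 hX2 hX3 using fun T : ℕ =>
    shadow_stage hα h₁ h₂ h₃ hpos hz hE hE1 h hb T (T + 1) le_rfl
  have hK : IsCompact (Set.univ.pi fun n => Set.Icc (exp (log (z n) - E n))
      (exp (log (z n) + E n))) := isCompact_univ_pi fun n => isCompact_Icc
  have hmem : ∀ T, X T ∈ Set.univ.pi fun n => Set.Icc (exp (log (z n) - E n))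
      (exp (log (z n) + E n)) := by
    intro T n _
    have h1 := abs_le.1 (hX2 T n)
    constructor
    · rw [← le_log_iff_exp_le (hX1 T n)]
      linarith
    · rw [← log_le_iff_le_exp (hX1 T n)]
      linarith
  obtain ⟨x, hx, φ, hφ, hlim⟩ := hK.tendsto_subseq hmem
  have hpt : ∀ n, Filter.Tendsto (fun k => X (φ k) n) Filter.atTop (nhds (x n)) := fun n =>
    (tendsto_pi_nhds.1 hlim) n
  have hx0 : ∀ n, 0 < x n := fun n => (exp_pos _).trans_le (hx n trivial).1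
  refine ⟨x, hx0, fun n => ?_, fun n => ?_⟩
  · have l1 := (hpt (n + 4)).mul (hpt n)
    have l2 : Filter.Tendsto (fun k => num4 α β₁ β₂ β₃ (X (φ k)) n) Filter.atTop
        (nhds (num4 α β₁ β₂ β₃ x n)) := by
      unfold num4
      exact (((tendsto_const_nhds.add ((hpt (n + 3)).const_mul β₁)).add
        ((hpt (n + 2)).const_mul β₂)).add ((hpt (n + 1)).const_mul β₃))
    refine tendsto_nhds_unique l1 (l2.congr' ?_)
    filter_upwards [Filter.eventually_ge_atTop n] with k hk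
    have h1 : n ≤ φ k := hk.trans (hφ.id_le k)
    exact (hX3 (φ k) n h1 (by omega)).symm
  · have h1 := hx n trivial
    have h2 := (le_log_iff_exp_le (hx0 n)).2 h1.1
    have h3 := (log_le_iff_le_exp (hx0 n)).2 h1.2
    rw [abs_le]
    constructor <;> linarith

end Pool.Agent.H81.RDE
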