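import Pool.Agent.H81.RDE.Growth
import Pool.Agent.H81.RDE.Real

/-! # From a certificate to a special case that is not ESB -/

namespace Pool.Agent.H81.RDE

theorem not_esb_of_sys {s : Sys} (h : s.ok = true) {N D : ℕ} (hN : s.N.map Prod.fst = bitsL N)
    (hD : s.D.map Prod.fst = bitsL D) (hN0 : bitsL N ≠ []) (hD0 : bitsL D ≠ []) :
    ¬ ESB (caseOf 4 N D) := by
  have hlen : s.init.length = 4 := by
    simp only [Sys.ok, Bool.and_eq_true] at h
    exact Nat.eq_of_beq_eq_true h.1.1.2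
  refine not_esb_of_orbits hN hD (fun h0 => hN0 (by rw [← hN, h0]; rfl))
    (fun h0 => hD0 (by rw [← hD, h0]; rfl)) (fun i => ((s.init.getD (3 - i) 0 : ℤ) : ℝ)) ?_
  intro y hy hinit M
  refine Sys.unbounded h hy ?_ M
  obtain ⟨a, b, c, d, he⟩ : ∃ a b c d, s.init = [a, b, c, d] := by
    match hs : s.init, hlen with
    | [a, b, c, d], _ => exact ⟨a, b, c, d, rfl⟩
  have h0 := hinit 0 (by norm_num)
  have h1 := hinit 1 (by norm_num)
  have h2 := hinit 2 (by norm_num)
  have h3 := hinit 3 (by norm_num)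
  rw [he] at h0 h1 h2 h3 ⊢
  simp at h0 h1 h2 h3
  simp [h0, h1, h2, h3]

end Pool.Agent.H81.RDE
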