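import Pool.Agent.H81.RDE.Defs

namespace Pool.Agent.H81.RDE

/-- Certificate trees. `nbr cs`, `dbr cs`: case distinction on the largest term of the numerator
(denominator), `cs` being the chain `cons t₁ (cons t₂ … nil)` of the subtrees; `ndet`, `ddet`: the
largest term is known; `split`: case distinction on the sign of an affine form; `leaf l`: the claims
with label `l` hold; `prune`: this case is impossible. -/
inductive Tree where
  | prune (c : List (ℕ × ℕ))
  | nbr (cs : Tree)
  | dbr (cs : Tree)
  | cons (t rest : Tree)
  | nil
  | ndet (i : ℕ) (cs : List Cert) (t : Tree)
  | ddet (i : ℕ) (cs : List Cert) (t : Tree)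
  | split (f : List ℤ) (c : ℤ) (t₁ t₂ : Tree)
  | leaf (l : ℕ) (cs : List Cert)

/-- The state of the checker. `node`: an ordinary node (`pend` is the form of the logarithm of the
numerator when it has been computed). `chN before todo`: inside `nbr`. `chD`: inside `dbr`. -/
inductive Mode where
  | node (pend : Option Form)
  | chN (before todo : List Form)
  | chD (u : Form) (before todo : List Form)

def check (N D : List (ℕ × ℤ)) (obl : ℕ → ℕ → List Claim) : Tree → List Form → List Hyp → Mode → Bool
  | .prune c, _, H, _ => contra H c
  | .nbr cs, F, H, .node none =>
    match termForms F N with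
    | some vs => check N D obl cs F H (.chN [] vs)
    | none => false
  | .dbr cs, F, H, .node (some u) =>
    match termForms F D with
    | some vs => check N D obl cs F H (.chD u [] vs)
    | none => false
  | .cons t rest, F, H, .chN before (v :: todo) =>
    check N D obl t F (addGe v (before ++ todo) H) (.node (some (v.blur 1))) &&
      check N D obl rest F H (.chN (before ++ [v]) todo)
  | .cons t rest, F, H, .chD u before (v :: todo) =>
    check N D obl t (u.sub (v.blur 1) :: F) (addGe v (before ++ todo) H) (.node none) &&
      check N D obl rest F H (.chD u (before ++ [v]) todo)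
  | .nil, _, _, .chN _ [] => true
  | .nil, _, _, .chD _ _ [] => true
  | .ndet i cs t, F, H, .node none =>
    match termForms F N with
    | some vs =>
      match vs[i]? with
      | some v => domin H v (vs.eraseIdx i) cs && check N D obl t F H (.node (some (v.blur 1)))
      | none => false
    | none => false
  | .ddet i cs t, F, H, .node (some u) =>
    match termForms F D with
    | some vs =>
      match vs[i]? with
      | some v => domin H v (vs.eraseIdx i) cs &&
          check N D obl t (u.sub (v.blur 1) :: F) H (.node none)
      | none => false
    | none => false
  | .split f c t₁ t₂, F, H, .node p =>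
    check N D obl t₁ F (⟨f, c⟩ :: H) (.node p) &&
      check N D obl t₂ F (⟨smulL (-1) f, -c⟩ :: H) (.node p)
  | .leaf l cs, F, H, .node none => claims H F (obl l F.length) cs
  | _, _, _, _ => false

end Pool.Agent.H81.RDE
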